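import Mathlib

set_option autoImplicit false

/-!
# Periodic groups of regular automorphisms: basic facts
-/

namespace Pool.Agent.MPd299d2

/-- A homomorphism from a group to a ring is regular if for every element of prime order `q` the
sum of its first `q` powers is mapped to `0` and `q` is invertible in the ring. -/
def Reg {H R : Type*} [Group H] [Ring R] (φ : H →* R) : Prop :=
  ∀ h : H, (orderOf h).Prime →
    (∑ i ∈ Finset.range (orderOf h), φ h ^ i = 0) ∧ IsUnit ((orderOf h : ℕ) : R)

theorem Reg.comp_ringHom {H R S : Type*} [Group H] [Ring R] [Ring S] {φ : H →* R} (hφ : Reg φ)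
    (f : R →+* S) : Reg ((f : R →* S).comp φ) := by
  intro h hq
  obtain ⟨h1, h2⟩ := hφ h hq
  refine ⟨?_, ?_⟩
  · have := congrArg f h1
    rw [map_sum, map_zero] at this
    simpa using this
  · have := h2.map f
    rwa [map_natCast] at this

theorem Reg.comp {H H' R : Type*} [Group H] [Group H'] [Ring R] {φ : H →* R} (hφ : Reg φ)
    (j : H' →* H) (hj : Function.Injective j) : Reg (φ.comp j) := by
  intro h hq
  have h1 : orderOf (j h) = orderOf h := orderOf_injective j hj h
  have := hφ (j h) (by rw [h1]; exact hq)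
  rw [h1] at this
  exact this

/-- an element `≠ 1` of finite order has a power of prime order -/
theorem exists_pow_prime {H : Type*} [Group H] {h : H} (h1 : h ≠ 1) (hf : IsOfFinOrder h) :
    ∃ k : ℕ, (orderOf (h ^ k)).Prime := by
  have hn : orderOf h ≠ 1 := fun h2 => h1 (orderOf_eq_one_iff.mp h2)
  obtain ⟨q, hq, hqd⟩ := Nat.exists_prime_and_dvd hn
  refine ⟨orderOf h / q, ?_⟩
  rw [orderOf_pow_orderOf_div hf.orderOf_pos.ne' hqd]
  exact hq

theorem Reg.injective {H R : Type*} [Group H] [Ring R] [Nontrivial R] {φ : H →* R}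
    (hφ : Reg φ) (ht : ∀ h : H, IsOfFinOrder h) : Function.Injective φ := by
  rw [injective_iff_map_eq_one]
  intro h hh
  by_contra h1
  obtain ⟨k, hk⟩ := exists_pow_prime h1 (ht h)
  obtain ⟨h2, h3⟩ := hφ _ hk
  rw [map_pow, hh] at h2
  simp only [one_pow, Finset.sum_const, Finset.card_range, nsmul_eq_mul, mul_one] at h2
  rw [h2] at h3
  exact not_isUnit_zero h3

section action

variable {A G : Type*} [Group A] [AddCommGroup G] [DistribMulAction A G]

/-- `A` acts on `G` as a periodic group of regular automorphisms. -/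
structure PR (A G : Type*) [Group A] [AddCommGroup G] [DistribMulAction A G] : Prop where
  per : ∀ a : A, IsOfFinOrder a
  reg : ∀ a : A, a ≠ 1 → ∀ g : G, a • g = g → g = 0

theorem PR.sum_zero (h : PR A G) {a : A} (ha : (orderOf a).Prime) (g : G) :
    ∑ i ∈ Finset.range (orderOf a), a ^ i • g = 0 := by
  have h1 : a ≠ 1 := fun h2 => by
    rw [h2, orderOf_one] at ha
    exact Nat.not_prime_one ha
  refine h.reg a h1 _ ?_
  rw [Finset.smul_sum]
  have h2 : ∀ i, a • a ^ i • g = a ^ (i + 1) • g := fun i => by rw [smul_smul, ← pow_succ']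
  simp only [h2]
  have h3 := Finset.sum_range_succ' (fun i => a ^ i • g) (orderOf a)
  rw [Finset.sum_range_succ, pow_orderOf_eq_one, pow_zero] at h3
  exact (add_right_cancel h3).symm

/-- `G` has no `q`-torsion if `A` has an element of prime order `q`. -/
theorem PR.nsmul_inj (h : PR A G) {a : A} (ha : (orderOf a).Prime) {g : G}
    (hg : orderOf a • g = 0) : g = 0 := by
  have h1 : a ≠ 1 := fun h2 => by
    rw [h2, orderOf_one] at ha
    exact Nat.not_prime_one ha
  set f : AddMonoid.End G := DistribMulAction.toAddMonoidEnd A G a with hf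
  set q := orderOf a with hq
  obtain ⟨r, hr⟩ := (Commute.one_right f).neg_right.exists_add_pow_prime_eq ha
  have hfq : f ^ q = 1 := by rw [hf, ← map_pow, hq, pow_orderOf_eq_one, map_one]
  have h2 : ∃ s : AddMonoid.End G, (f + -1) ^ q = (q : AddMonoid.End G) * s := by
    rcases ha.eq_two_or_odd' with h2 | h2
    · refine ⟨1 + f * -1 * r, ?_⟩
      rw [hr, hfq, h2]
      have : (-1 : AddMonoid.End G) ^ 2 = 1 := by rw [neg_one_sq]
      rw [this]
      push_cast
      rw [mul_add, mul_one, one_add_one_eq_two]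
      simp only [mul_assoc]
    · refine ⟨f * -1 * r, ?_⟩
      rw [hr, hfq, h2.neg_one_pow]
      simp [mul_assoc]
  obtain ⟨s, hs⟩ := h2
  have h3 : ((f + -1) ^ q) g = 0 := by
    rw [hs]
    show (q : AddMonoid.End G) (s g) = 0
    rw [AddMonoid.End.natCast_apply, ← map_nsmul, hg, map_zero]
  have h4 : ∀ k : ℕ, ((f + -1) ^ k) g = 0 → g = 0 := by
    intro k
    induction k with
    | zero => intro h5; exact h5
    | succ k ih =>
      intro h5
      apply ih
      rw [pow_succ'] at h5
      have h6 : f (((f + -1) ^ k) g) + -(((f + -1) ^ k) g) = 0 := h5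
      exact h.reg a h1 _ (add_neg_eq_zero.mp h6)
  exact h4 q h3

/-- An element of order `2` acts as `-1`. -/
theorem PR.two (h : PR A G) {t : A} (ht : orderOf t = 2) (g : G) : t • g = -g := by
  have h1 := h.sum_zero (a := t) (by rw [ht]; exact Nat.prime_two) g
  rw [ht, Finset.sum_range_succ, Finset.sum_range_one, pow_zero, pow_one, one_smul] at h1
  exact eq_neg_of_add_eq_zero_right h1

theorem PR.faithful [Nontrivial G] (h : PR A G) {a : A} (ha : ∀ g : G, a • g = g) : a = 1 := by
  by_contra h1
  obtain ⟨g, hg⟩ := exists_ne (0 : G)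
  exact hg (h.reg a h1 g (ha g))

theorem PR.two_central [Nontrivial G] (h : PR A G) {t : A} (ht : orderOf t = 2) (b : A) :
    b * t = t * b := by
  have h1 : b * t * (t * b)⁻¹ = 1 := by
    refine h.faithful fun g => ?_
    have h2 : ∀ g : G, t⁻¹ • g = -g := fun g => by
      rw [inv_smul_eq_iff, smul_neg, h.two ht, neg_neg]
    rw [mul_inv_rev, ← mul_assoc, mul_smul, mul_smul, mul_smul, h2, smul_neg, h.two ht,
      neg_neg, smul_inv_smul]
  exact mul_inv_eq_one.mp h1

/-- Commuting elements of the same prime order generate the same subgroup. -/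
theorem PR.mem_zpowers [Nontrivial G] (h : PR A G) {x y : A} {q : ℕ} (hq : q.Prime)
    (hx : orderOf x = q) (hy : orderOf y = q) (hxy : x * y = y * x) :
    y ∈ Subgroup.zpowers x := by
  by_contra hcon
  have hc : Commute x y := hxy
  obtain ⟨g, hg⟩ := exists_ne (0 : G)
  have hxq : x ^ q = 1 := by rw [← hx]; exact pow_orderOf_eq_one x
  have hyq : y ^ q = 1 := by rw [← hy]; exact pow_orderOf_eq_one y
  have hpow : ∀ z : A, z ^ q = 1 → z ≠ 1 → ∑ i ∈ Finset.range q, z ^ i • g = 0 := by
    intro z hz hz1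
    have h1 : orderOf z = q := orderOf_eq_prime hz hz1 (hp := ⟨hq⟩)
    have h2 := h.sum_zero (a := z) (by rw [h1]; exact hq) g
    rwa [h1] at h2
  have h1 : ∀ i ∈ Finset.range q, ∑ j ∈ Finset.range q, (x * y ^ i) ^ j • g = 0 := by
    intro i hi
    rw [Finset.mem_range] at hi
    refine hpow _ ?_ ?_
    · rw [(hc.pow_right i).mul_pow, hxq, one_mul, ← pow_mul, mul_comm, pow_mul, hyq, one_pow]
    · intro h2
      have h3 : y ^ i ∈ Subgroup.zpowers x := by
        rw [eq_inv_of_mul_eq_one_right h2]
        exact inv_mem (Subgroup.mem_zpowers x)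
      rcases Nat.eq_zero_or_pos i with rfl | hi0
      · rw [pow_zero, mul_one] at h2
        rw [h2, orderOf_one] at hx
        exact hq.one_lt.ne hx
      · have hcop : Nat.Coprime i q := (Nat.coprime_of_lt_prime hi0.ne' hi hq).symm
        obtain ⟨m, hm⟩ := exists_pow_eq_self_of_coprime (x := y) (n := i) (by rw [hy]; exact hcop)
        apply hcon
        rw [← hm]
        exact pow_mem h3 m
  have h2 : ∑ j ∈ Finset.range q, x ^ j • ∑ i ∈ Finset.range q, (y ^ j) ^ i • g = 0 := by
    rw [← Finset.sum_eq_zero h1, Finset.sum_comm]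
    refine Finset.sum_congr rfl fun j _ => ?_
    rw [Finset.smul_sum]
    refine Finset.sum_congr rfl fun i _ => ?_
    rw [(hc.pow_right i).mul_pow, mul_smul, ← pow_mul, ← pow_mul, mul_comm i j]
  have h3 : ∀ j ∈ Finset.range q, j ≠ 0 →
      x ^ j • ∑ i ∈ Finset.range q, (y ^ j) ^ i • g = 0 := by
    intro j hj hj0
    rw [Finset.mem_range] at hj
    rw [hpow (y ^ j), smul_zero]
    · rw [← pow_mul, mul_comm, pow_mul, hyq, one_pow]
    · intro h4
      have h5 := orderOf_dvd_of_pow_eq_one h4
      rw [hy] at h5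
      exact absurd (Nat.le_of_dvd (Nat.pos_of_ne_zero hj0) h5) (by omega)
  rw [Finset.sum_eq_single 0 h3 (fun h4 => absurd (Finset.mem_range.mpr hq.pos) h4)] at h2
  simp only [pow_zero, one_pow, one_smul, Finset.sum_const, Finset.card_range] at h2
  rw [← hx] at h2
  exact hg (h.nsmul_inj (by rw [hx]; exact hq) h2)

end action

end Pool.Agent.MPd299d2
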