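import Mathlib
import Pool.Agent.Lib.MP_d299d2_al.Basic

set_option autoImplicit false

/-!
# Periodic groups of regular automorphisms: normal subgroups of prime order
-/

namespace Pool.Agent.MPd299d2

variable {A : Type*} [Group A]

theorem conj_iter {a b : A} {s : ℕ} (h : b * a * b⁻¹ = a ^ s) (k : ℕ) :
    b ^ k * a * (b ^ k)⁻¹ = a ^ s ^ k := by
  induction k with
  | zero => simp
  | succ k ih =>
    calc b ^ (k + 1) * a * (b ^ (k + 1))⁻¹ = b * (b ^ k * a * (b ^ k)⁻¹) * b⁻¹ := by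
          rw [pow_succ']
          group
      _ = b * a ^ s ^ k * b⁻¹ := by rw [ih]
      _ = (b * a * b⁻¹) ^ s ^ k := by rw [conj_pow]
      _ = a ^ s ^ (k + 1) := by rw [h, ← pow_mul, pow_succ']

theorem exists_conj_pow {a b : A} (ha : IsOfFinOrder a)
    (h : b * a * b⁻¹ ∈ Subgroup.zpowers a) : ∃ s : ℕ, b * a * b⁻¹ = a ^ s := by
  obtain ⟨s, hs⟩ := ha.mem_powers_iff_mem_zpowers.mpr h
  exact ⟨s, hs.symm⟩

theorem eq_of_zmod {a : A} {q s : ℕ} (ha : orderOf a = q) (hs : (s : ZMod q) = 1) :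
    a ^ s = a := by
  have h1 : s ≡ 1 [MOD q] := by
    rw [← ZMod.natCast_eq_natCast_iff, hs, Nat.cast_one]
  calc a ^ s = a ^ 1 := by rw [pow_eq_pow_iff_modEq, ha]; exact h1
    _ = a := pow_one a

theorem zmod_of_eq {a : A} {q s : ℕ} (ha : orderOf a = q) (hs : a ^ s = a) :
    (s : ZMod q) = 1 := by
  have h1 : a ^ s = a ^ 1 := by rw [hs, pow_one]
  rw [pow_eq_pow_iff_modEq, ha] at h1
  have h2 := (ZMod.natCast_eq_natCast_iff s 1 q).mpr h1
  rwa [Nat.cast_one] at h2

/-- If `b` normalizes `⟨a⟩`, where `a` has prime order `q` and `b ^ q = 1`, then `b` commutes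
with `a`. -/
theorem commute_of_conj {a b : A} {q : ℕ} (hq : q.Prime) (ha : orderOf a = q)
    (hb : b ^ q = 1) (h : b * a * b⁻¹ ∈ Subgroup.zpowers a) : b * a = a * b := by
  have : Fact q.Prime := ⟨hq⟩
  obtain ⟨s, hs⟩ := exists_conj_pow (orderOf_pos_iff.mp (by rw [ha]; exact hq.pos)) h
  have h1 := conj_iter hs q
  rw [hb, one_mul, inv_one, mul_one] at h1
  have h2 := zmod_of_eq ha h1.symm
  rw [Nat.cast_pow, ZMod.pow_card] at h2
  rw [eq_of_zmod ha h2] at hs
  exact mul_inv_eq_iff_eq_mul.mp hs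

/-- If `b` normalizes `⟨a⟩`, where `a` has prime order `q` and the order of `b` is prime to
`q - 1`, then `b` commutes with `a`. -/
theorem commute_of_conj_coprime {a b : A} {q m : ℕ} (hq : q.Prime) (ha : orderOf a = q)
    (hb : b ^ m = 1) (hm : m.Coprime (q - 1)) (h : b * a * b⁻¹ ∈ Subgroup.zpowers a) :
    b * a = a * b := by
  have : Fact q.Prime := ⟨hq⟩
  obtain ⟨s, hs⟩ := exists_conj_pow (orderOf_pos_iff.mp (by rw [ha]; exact hq.pos)) h
  have h1 := conj_iter hs m
  rw [hb, one_mul, inv_one, mul_one] at h1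
  have h2 := zmod_of_eq ha h1.symm
  rw [Nat.cast_pow] at h2
  have hs0 : (s : ZMod q) ≠ 0 := by
    intro h0
    rw [ZMod.natCast_eq_zero_iff] at h0
    have h3 : a ^ s = 1 := by rw [← orderOf_dvd_iff_pow_eq_one, ha]; exact h0
    rw [h3] at hs
    have h4 : a = 1 := by
      have := mul_inv_eq_one.mp hs
      exact mul_left_cancel (this.trans (mul_one b).symm)
    rw [h4, orderOf_one] at ha
    exact hq.one_lt.ne ha
  have h3 : (s : ZMod q) ^ (q - 1) = 1 := ZMod.pow_card_sub_one_eq_one hs0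
  have h4 : (s : ZMod q) = 1 := by
    have h5 : orderOf (s : ZMod q) ∣ Nat.gcd m (q - 1) :=
      Nat.dvd_gcd (orderOf_dvd_of_pow_eq_one h2) (orderOf_dvd_of_pow_eq_one h3)
    rw [hm, Nat.dvd_one, orderOf_eq_one_iff] at h5
    exact h5
  rw [eq_of_zmod ha h4] at hs
  exact mul_inv_eq_iff_eq_mul.mp hs

/-- If no element of `A` has a prime order smaller than `q` then orders of elements are prime
to `q - 1`. -/
theorem coprime_of_min {q : ℕ} (hmin : ∀ b : A, (orderOf b).Prime → q ≤ orderOf b) (hq : 1 < q)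
    (b : A) (hb : IsOfFinOrder b) : (orderOf b).Coprime (q - 1) := by
  rw [Nat.coprime_iff_gcd_eq_one]
  by_contra hcon
  obtain ⟨p, hp, hpd⟩ := Nat.exists_prime_and_dvd hcon
  have h1 : p ∣ orderOf b := hpd.trans (Nat.gcd_dvd_left _ _)
  have h2 : p ∣ q - 1 := hpd.trans (Nat.gcd_dvd_right _ _)
  have h3 : orderOf (b ^ (orderOf b / p)) = p := orderOf_pow_orderOf_div hb.orderOf_pos.ne' h1
  have h4 := hmin _ (by rw [h3]; exact hp)
  rw [h3] at h4
  have h5 := Nat.le_of_dvd (by omega) h2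
  omega

/-- If all conjugates of `a` lie in `⟨a⟩`, where `a` has the smallest prime order, then `a` is
central. -/
theorem central_of_conj {a : A} {q : ℕ} (hq : q.Prime) (ha : orderOf a = q)
    (hmin : ∀ b : A, (orderOf b).Prime → q ≤ orderOf b) (hfin : ∀ b : A, IsOfFinOrder b)
    (h : ∀ b : A, b * a * b⁻¹ ∈ Subgroup.zpowers a) : a ∈ Subgroup.center A := by
  rw [Subgroup.mem_center_iff]
  intro b
  exact commute_of_conj_coprime hq ha (pow_orderOf_eq_one b)
    (coprime_of_min hmin hq.one_lt b (hfin b)) (h b)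

variable {G : Type*} [AddCommGroup G] [DistribMulAction A G]

/-- If all conjugates of `a` commute with `a` then `⟨a⟩` is normal. -/
theorem PR.conj_mem [Nontrivial G] (h : PR A G) {a b : A} (ha : (orderOf a).Prime)
    (hab : a * (b * a * b⁻¹) = b * a * b⁻¹ * a) : b * a * b⁻¹ ∈ Subgroup.zpowers a := by
  refine h.mem_zpowers ha rfl ?_ hab
  have : b * a * b⁻¹ = MulAut.conj b a := rfl
  rw [this]
  exact orderOf_injective (MulAut.conj b).toMonoidHom (MulAut.conj b).injective a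

end Pool.Agent.MPd299d2
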