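import Mathlib
import Pool.Agent.Lib.MP_d299d2_al.Normal

set_option autoImplicit false

/-!
# Quadratic elements of prime order whose conjugates are powers are central
-/

namespace Pool.Agent.MPd299d2

variable {A Ω V : Type*} [Group A] [Field Ω] [AddCommGroup V] [Module Ω V] [Nontrivial V]
  {φ : A →* Module.End Ω V}

omit [Nontrivial V] in
theorem pow_eigen (F : Module.End Ω V) {l : Ω} {x : V} (hx : F x = l • x) (k : ℕ) :
    (F ^ k) x = l ^ k • x := by
  induction k with
  | zero => simp
  | succ k ih => rw [pow_succ', Module.End.mul_apply, ih, map_smul, hx, smul_smul, pow_succ]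

theorem isUnit_natCast_iff (q : ℕ) : IsUnit ((q : ℕ) : Module.End Ω V) ↔ (q : Ω) ≠ 0 := by
  have h1 : ((q : ℕ) : Module.End Ω V) = algebraMap Ω (Module.End Ω V) (q : Ω) := by simp
  constructor
  · intro h h0
    rw [h1, h0, map_zero] at h
    exact not_isUnit_zero h
  · intro h
    rw [h1]
    exact (IsUnit.mk0 _ h).map _

theorem Reg.natCast_ne (hφ : Reg φ) {c : A} (hc : (orderOf c).Prime) :
    ((orderOf c : ℕ) : Ω) ≠ 0 := (isUnit_natCast_iff _).mp (hφ c hc).2

/-- eigenvalues of elements of prime order are primitive roots of unity -/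
theorem Reg.primitive (hφ : Reg φ) {c : A} {q : ℕ} (hq : q.Prime) (hc : orderOf c = q) {l : Ω}
    {x : V} (hx0 : x ≠ 0) (hx : φ c x = l • x) : IsPrimitiveRoot l q := by
  have : Fact q.Prime := ⟨hq⟩
  have h1 : l ^ q = 1 := by
    have h2 := pow_eigen (φ c) hx q
    rw [← map_pow, ← hc, pow_orderOf_eq_one, map_one, Module.End.one_apply, hc] at h2
    have h3 : (l ^ q - 1) • x = 0 := by rw [sub_smul, one_smul, ← h2, sub_self]
    exact sub_eq_zero.mp ((smul_eq_zero.mp h3).resolve_right hx0)
  have h2 : l ≠ 1 := by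
    rintro rfl
    have h3 := (hφ c (by rw [hc]; exact hq)).1
    have h4 := congrArg (fun f : Module.End Ω V => f x) h3
    simp only [LinearMap.sum_apply, LinearMap.zero_apply] at h4
    have h5 : ∀ i ∈ Finset.range (orderOf c), (φ c ^ i) x = x := fun i _ => by
      rw [pow_eigen _ hx, one_pow, one_smul]
    rw [Finset.sum_congr rfl h5, Finset.sum_const, Finset.card_range,
      ← Nat.cast_smul_eq_nsmul Ω] at h4
    exact (smul_ne_zero (hφ.natCast_ne (by rw [hc]; exact hq)) hx0) h4
  rw [← orderOf_eq_prime h1 h2]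
  exact IsPrimitiveRoot.orderOf l

theorem odd_of_ne_two (ht : ∀ a : A, IsOfFinOrder a) (h2 : ∀ a : A, orderOf a ≠ 2) (b : A) :
    Odd (orderOf b) := by
  rw [← Nat.not_even_iff_odd]
  intro h
  have h1 : orderOf (b ^ (orderOf b / 2)) = 2 :=
    orderOf_pow_orderOf_div (ht b).orderOf_pos.ne' h.two_dvd
  exact h2 _ h1

theorem commute_of_sq (ht : ∀ a : A, IsOfFinOrder a) (h2 : ∀ a : A, orderOf a ≠ 2) {b c : A}
    (h : Commute (b ^ 2) c) : Commute b c := by
  obtain ⟨k, hk⟩ := odd_of_ne_two ht h2 b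
  have h1 : (b ^ 2) ^ (k + 1) = b := by
    rw [← pow_mul]
    have : 2 * (k + 1) = orderOf b + 1 := by omega
    rw [this, pow_succ, pow_orderOf_eq_one, one_mul]
  rw [← h1]
  exact h.pow_left (k + 1)

theorem central_of_quadratic (hφ : Reg φ) (ht : ∀ a : A, IsOfFinOrder a)
    (h2 : ∀ a : A, orderOf a ≠ 2) {c : A} {q : ℕ} (hq : q.Prime) (hc : orderOf c = q) (α β : Ω)
    (hquad : ∀ x, φ c (φ c x) = (α + β) • φ c x - (α * β) • x)
    (hconj : ∀ b : A, b * c * b⁻¹ ∈ Subgroup.zpowers c) : c ∈ Subgroup.center A := by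
  have hinj : Function.Injective φ := hφ.injective ht
  rw [Subgroup.mem_center_iff]
  intro b
  -- scalar case
  have hscal : ∀ l : Ω, (∀ x, φ c x = l • x) → b * c = c * b := by
    intro l hl
    apply hinj
    rw [map_mul, map_mul]
    ext x
    rw [Module.End.mul_apply, Module.End.mul_apply, hl, hl, map_smul]
  by_cases hα : ∀ x, φ c x = α • x
  · exact hscal α hα
  by_cases hβ : ∀ x, φ c x = β • x
  · exact hscal β hβ
  push Not at hα hβ
  obtain ⟨x1, hx1⟩ := hα
  obtain ⟨x2, hx2⟩ := hβ
  have hfin : IsOfFinOrder c := ht c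
  obtain ⟨s, hs⟩ := exists_conj_pow hfin (hconj b)
  have hs0 : 1 ≤ s := by
    rcases Nat.eq_zero_or_pos s with rfl | h
    · rw [pow_zero] at hs
      have h4 : c = 1 := by
        have := mul_inv_eq_one.mp hs
        exact mul_left_cancel (this.trans (mul_one b).symm)
      rw [h4, orderOf_one] at hc
      exact absurd hc hq.one_lt.ne
    · exact h
  -- eigenvectors
  have e1 : ∀ (l m : Ω) (x : V), (∀ y, φ c (φ c y) = (l + m) • φ c y - (l * m) • y) →
      φ c (φ c x - l • x) = m • (φ c x - l • x) := by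
    intro l m x h
    rw [map_sub, map_smul, h, smul_sub, smul_smul, add_smul, mul_comm m l]
    abel
  have hquad' : ∀ x, φ c (φ c x) = (β + α) • φ c x - (β * α) • x := fun x => by
    rw [hquad, add_comm, mul_comm]
  have e2 := e1 α β x1 hquad
  have e3 := e1 β α x2 hquad'
  have n2 : φ c x1 - α • x1 ≠ 0 := sub_ne_zero.mpr hx1
  have n3 : φ c x2 - β • x2 ≠ 0 := sub_ne_zero.mpr hx2
  -- how eigenvalues move
  have e4 : ∀ (l : Ω) (y : V), y ≠ 0 → φ c y = l • y → α ^ s = l ∨ β ^ s = l := by
    intro l y hy0 hy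
    set z := φ b y with hz
    have hz0 : z ≠ 0 := by
      intro h0
      have h5 : φ b⁻¹ z = y := by
        rw [hz, ← Module.End.mul_apply, ← map_mul, inv_mul_cancel, map_one, Module.End.one_apply]
      rw [h0, map_zero] at h5
      exact hy0 h5.symm
    have h6 : (φ c ^ s) z = l • z := by
      rw [← map_pow, ← hs, hz, ← Module.End.mul_apply, ← map_mul]
      have : b * c * b⁻¹ * b = b * c := by group
      rw [this, map_mul, Module.End.mul_apply, hy, map_smul]
    by_cases h7 : φ c z - β • z = 0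
    · right
      have h8 := pow_eigen (φ c) (sub_eq_zero.mp h7) s
      rw [h6] at h8
      have h9 : (β ^ s - l) • z = 0 := by rw [sub_smul, h8, sub_self]
      exact sub_eq_zero.mp ((smul_eq_zero.mp h9).resolve_right hz0)
    · left
      have h8 := pow_eigen (φ c) (e1 β α z hquad') s
      have h10 : (φ c ^ s) (φ c z - β • z) = l • (φ c z - β • z) := by
        rw [map_sub, map_smul, ← Module.End.mul_apply, ← pow_succ, pow_succ', Module.End.mul_apply,
          h6, map_smul, smul_sub, smul_smul, smul_smul, mul_comm β l]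
      rw [h10] at h8
      have h9 : (α ^ s - l) • (φ c z - β • z) = 0 := by rw [sub_smul, h8, sub_self]
      exact sub_eq_zero.mp ((smul_eq_zero.mp h9).resolve_right h7)
  have pα : IsPrimitiveRoot α q := hφ.primitive hq hc n3 e3
  have pβ : IsPrimitiveRoot β q := hφ.primitive hq hc n2 e2
  have e5 : ∀ (l : Ω) (k : ℕ), IsPrimitiveRoot l q → 1 ≤ k → l ^ k = l → c ^ k = c := by
    intro l k hl hk h
    have h11 : l ^ (k - 1) = 1 := by
      have h12 : l ^ (k - 1) * l = 1 * l := by
        rw [← pow_succ, Nat.sub_add_cancel hk, h, one_mul]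
      exact mul_right_cancel₀ (hl.ne_zero hq.pos.ne') h12
    have h13 := hl.dvd_of_pow_eq_one _ h11
    have h14 : c ^ (k - 1) = 1 := by rw [← orderOf_dvd_iff_pow_eq_one, hc]; exact h13
    rw [← Nat.sub_add_cancel hk, pow_succ, h14, one_mul]
  have done1 : c ^ s = c → b * c = c * b := fun h => by
    rw [h] at hs
    exact mul_inv_eq_iff_eq_mul.mp hs
  rcases e4 α _ n3 e3 with h | h
  · exact done1 (e5 α s pα hs0 h)
  rcases e4 β _ n2 e2 with h' | h'
  · have h3 : c ^ (s ^ 2) = c := by
      refine e5 α (s ^ 2) pα (Nat.one_le_pow _ _ hs0) ?_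
      rw [pow_two, pow_mul, h', h]
    have h4 := conj_iter hs 2
    rw [h3] at h4
    exact commute_of_sq ht h2 (mul_inv_eq_iff_eq_mul.mp h4)
  · exact done1 (e5 β s pβ hs0 h')

end Pool.Agent.MPd299d2
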