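import Mathlib

set_option autoImplicit false

/-!
# Independence of semilinear maps
-/

namespace Pool.Agent.MPd299d2

theorem dedekind {B M : Type*} [CommRing B] [AddCommGroup M] [Module B M] (P : Ideal B)
    [P.IsPrime] (hP : Module.annihilator B M ≤ P) (q : ℕ) (hq : 0 < q) (x : ℕ → M →+ M)
    (σ : ℕ → B → B) (hx0 : ∀ m, x 0 m = m) (hσ0 : ∀ b, σ 0 b = b)
    (hx : ∀ i (b : B) (m : M), x i (b • m) = σ i b • x i m)
    (hsum : ∀ m, ∑ i ∈ Finset.range q, x i m = 0) :
    ∃ i, 0 < i ∧ i < q ∧ ∀ b, b - σ i b ∈ P := by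
  by_contra hcon
  push Not at hcon
  have hex : ∀ i, ∃ b, 0 < i → i < q → b - σ i b ∉ P := by
    intro i
    by_cases h : 0 < i ∧ i < q
    · obtain ⟨b, hb⟩ := hcon i h.1 h.2
      exact ⟨b, fun _ _ => hb⟩
    · exact ⟨0, fun h1 h2 => absurd ⟨h1, h2⟩ h⟩
  choose β hβ using hex
  have key : ∀ k, k < q → ∀ m : M, ∑ i ∈ Finset.range q,
      (∏ j ∈ Finset.Ioc 0 k, (σ i (β j) - σ j (β j))) • x i m = 0 := by
    intro k
    induction k with
    | zero =>
      intro _ m
      simp only [Finset.Ioc_self, Finset.prod_empty, one_smul]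
      exact hsum m
    | succ k ih =>
      intro hk m
      have h1 := ih (by omega) (β (k + 1) • m)
      have h2 := congrArg (fun y => σ (k + 1) (β (k + 1)) • y) (ih (by omega) m)
      simp only [smul_zero, Finset.smul_sum] at h2
      have h3 : ∀ i ∈ Finset.range q,
          (∏ j ∈ Finset.Ioc 0 (k + 1), (σ i (β j) - σ j (β j))) • x i m =
          (∏ j ∈ Finset.Ioc 0 k, (σ i (β j) - σ j (β j))) • x i (β (k + 1) • m) -
          σ (k + 1) (β (k + 1)) • (∏ j ∈ Finset.Ioc 0 k, (σ i (β j) - σ j (β j))) • x i m := by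
        intro i _
        rw [Finset.prod_Ioc_succ_top (Nat.zero_le k), hx, smul_smul, smul_smul, ← sub_smul]
        congr 1
        ring
      rw [Finset.sum_congr rfl h3, Finset.sum_sub_distrib, h1, h2, sub_zero]
  have h1 := key (q - 1) (by omega)
  have h2 : ∀ m : M, (∏ j ∈ Finset.Ioc 0 (q - 1), (β j - σ j (β j))) • m = 0 := by
    intro m
    have h3 := h1 m
    rw [Finset.sum_eq_single 0] at h3
    · simp only [hx0, hσ0] at h3
      exact h3
    · intro i hi hi0
      rw [Finset.mem_range] at hi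
      rw [Finset.prod_eq_zero (Finset.mem_Ioc.mpr ⟨Nat.pos_of_ne_zero hi0, by omega⟩)
        (sub_self _), zero_smul]
    · intro h
      exact absurd (Finset.mem_range.mpr hq) h
  have h3 : (∏ j ∈ Finset.Ioc 0 (q - 1), (β j - σ j (β j))) ∈ P :=
    hP (Module.mem_annihilator.mpr h2)
  obtain ⟨j, hj, hj'⟩ := Ideal.IsPrime.prod_mem_iff.mp h3
  rw [Finset.mem_Ioc] at hj
  exact hβ j hj.1 (by omega) hj'

end Pool.Agent.MPd299d2
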