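import Mathlib
import Pool.Agent.Lib.MP_d299d2_al.Basic

set_option autoImplicit false

/-!
# Finitely generated periodic matrix groups with a regular representation, characteristic `p`
-/

namespace Pool.Agent.MPd299d2

/-- If the group `H` of matrices over `K` is generated by a finite set then all its entries lie in
a finitely generated subring. -/
theorem exists_entries {H K : Type*} [Group H] [Field K] {n : ℕ}
    (φ : H →* Matrix (Fin n) (Fin n) K) {S : Set H} (hS : S.Finite)
    (hgen : Subgroup.closure S = ⊤) :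
    ∃ T : Set K, T.Finite ∧ ∀ (R : Type*) [CommRing R] [Algebra R K] (h : H) (i j : Fin n),
      φ h i j ∈ Algebra.adjoin R T := by
  refine ⟨(fun x : H × (Fin n × Fin n) => φ x.1 x.2.1 x.2.2) ''
    ((S ∪ (fun x => x⁻¹) '' S) ×ˢ Set.univ), ?_, ?_⟩
  · exact ((hS.union (hS.image _)).prod Set.finite_univ).image _
  · intro R _ _
    set T : Set K := (fun x : H × (Fin n × Fin n) => φ x.1 x.2.1 x.2.2) ''
      ((S ∪ (fun x => x⁻¹) '' S) ×ˢ Set.univ) with hT
    have hmul : ∀ x y : H, (∀ i j, φ x i j ∈ Algebra.adjoin R T) →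
        (∀ i j, φ y i j ∈ Algebra.adjoin R T) → ∀ i j, φ (x * y) i j ∈ Algebra.adjoin R T := by
      intro x y hx hy i j
      rw [map_mul, Matrix.mul_apply]
      exact Subalgebra.sum_mem _ fun k _ => Subalgebra.mul_mem _ (hx i k) (hy k j)
    have key : ∀ h : H, (∀ i j, φ h i j ∈ Algebra.adjoin R T) ∧
        ∀ i j, φ h⁻¹ i j ∈ Algebra.adjoin R T := by
      intro h
      have hh : h ∈ Subgroup.closure S := by rw [hgen]; exact Subgroup.mem_top h
      induction hh using Subgroup.closure_induction with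
      | mem x hx =>
        refine ⟨fun i j => Algebra.subset_adjoin ⟨(x, (i, j)), ⟨Or.inl hx, trivial⟩, rfl⟩,
          fun i j => Algebra.subset_adjoin ⟨(x⁻¹, (i, j)), ⟨Or.inr ⟨x, hx, rfl⟩, trivial⟩, rfl⟩⟩
      | one =>
        have h1 : ∀ i j, φ 1 i j ∈ Algebra.adjoin R T := by
          intro i j
          rw [map_one, Matrix.one_apply]
          split_ifs
          · exact Subalgebra.one_mem _
          · exact Subalgebra.zero_mem _
        refine ⟨h1, ?_⟩
        rw [inv_one]
        exact h1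
      | mul x y _ _ hx hy =>
        refine ⟨hmul x y hx.1 hy.1, ?_⟩
        rw [mul_inv_rev]
        exact hmul _ _ hy.2 hx.2
      | inv x _ hx =>
        refine ⟨hx.2, ?_⟩
        rw [inv_inv]
        exact hx.1
    exact fun h i j => (key h).1 i j

theorem finite_of_charP {H K : Type*} [Group H] [Field K] (p : ℕ) [Fact p.Prime] [CharP K p]
    {n : ℕ} (hn : 0 < n) {φ : H →* Matrix (Fin n) (Fin n) K} (hφ : Reg φ)
    (ht : ∀ h : H, IsOfFinOrder h) {S : Set H} (hS : S.Finite)
    (hgen : Subgroup.closure S = ⊤) : Finite H := by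
  have : NeZero n := ⟨hn.ne'⟩
  let := ZMod.algebra K p
  obtain ⟨T, hTf, hT⟩ := exists_entries φ hS hgen
  set R0 : Subalgebra (ZMod p) K := Algebra.adjoin (ZMod p) T with hR0
  have hmem : ∀ (h : H) (i j : Fin n), φ h i j ∈ R0 := hT (ZMod p)
  have hft : Algebra.FiniteType (ZMod p) R0 := by
    have h1 : R0.FG := Subalgebra.fg_def.2 ⟨T, hTf, rfl⟩
    exact R0.fg_iff_finiteType.1 h1
  obtain ⟨m, hm⟩ := Ideal.exists_maximal R0
  let : Field (R0 ⧸ m) := Ideal.Quotient.field m
  have hft2 : Algebra.FiniteType (ZMod p) (R0 ⧸ m) :=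
    hft.of_surjective (Ideal.Quotient.mkₐ (ZMod p) m) (Ideal.Quotient.mkₐ_surjective _ _)
  have hmf : Module.Finite (ZMod p) (R0 ⧸ m) := finite_of_finite_type_of_isJacobsonRing _ _
  have hfin : Finite (R0 ⧸ m) := Module.finite_of_finite (ZMod p)
  set ι : R0 →+* K := R0.val.toRingHom with hι
  have hιi : Function.Injective ι := Subtype.val_injective
  have hιM : Function.Injective (ι.mapMatrix : Matrix (Fin n) (Fin n) R0 →+* _) :=
    Matrix.map_injective hιi
  set ψf : H → Matrix (Fin n) (Fin n) R0 := fun h => Matrix.of fun i j => ⟨φ h i j, hmem h i j⟩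
    with hψf
  have hψ : ∀ h, ι.mapMatrix (ψf h) = φ h := by
    intro h
    ext i j
    rfl
  set ψ0 : H →* Matrix (Fin n) (Fin n) R0 :=
    { toFun := ψf
      map_one' := by
        apply hιM
        rw [hψ, map_one, map_one]
      map_mul' := fun x y => by
        apply hιM
        rw [map_mul, hψ, hψ, hψ, map_mul] } with hψ0
  have hψ0' : ∀ h, ι.mapMatrix (ψ0 h) = φ h := hψ
  have hreg : Reg ψ0 := by
    intro h hq
    obtain ⟨h1, h2⟩ := hφ h hq
    refine ⟨?_, ?_⟩
    · apply hιM
      rw [map_sum, map_zero, ← h1]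
      refine Finset.sum_congr rfl fun i _ => ?_
      rw [map_pow, hψ0']
    · have h3 : ((orderOf h : ℕ) : ZMod p) ≠ 0 := by
        intro h4
        rw [ZMod.natCast_eq_zero_iff] at h4
        have h5 : ((orderOf h : ℕ) : K) = 0 := (CharP.cast_eq_zero_iff K p _).2 h4
        have h6 : ((orderOf h : ℕ) : Matrix (Fin n) (Fin n) K) = 0 := by
          have := congrArg (algebraMap K (Matrix (Fin n) (Fin n) K)) h5
          rwa [map_natCast, map_zero] at this
        rw [h6] at h2
        exact not_isUnit_zero h2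
      have h4 := (isUnit_iff_ne_zero.2 h3).map (algebraMap (ZMod p) (Matrix (Fin n) (Fin n) R0))
      rwa [map_natCast] at h4
  have hreg2 := hreg.comp_ringHom ((Ideal.Quotient.mk m).mapMatrix :
    Matrix (Fin n) (Fin n) R0 →+* Matrix (Fin n) (Fin n) (R0 ⧸ m))
  have hinj := hreg2.injective ht
  have : Finite (Matrix (Fin n) (Fin n) (R0 ⧸ m)) :=
    inferInstanceAs (Finite (Fin n → Fin n → R0 ⧸ m))
  exact Finite.of_injective _ hinj

end Pool.Agent.MPd299d2
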