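import Mathlib
import Pool.Agent.Lib.MP_d299d2_al.FinP

set_option autoImplicit false

/-!
# Finitely generated periodic matrix groups with a regular representation, characteristic `0`
-/

namespace Pool.Agent.MPd299d2

/-- a number field in the wide sense embeds into rational matrices -/
theorem Fin0_field (k : Type*) [Field k] [Algebra ℚ k] [Module.Finite ℚ k] :
    ∃ (e : ℕ) (_ : 0 < e), Nonempty (k →+* Matrix (Fin e) (Fin e) ℚ) :=
  ⟨Module.finrank ℚ k, Module.finrank_pos,
    ⟨(Algebra.leftMulMatrix (Module.finBasis ℚ k)).toRingHom⟩⟩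

/-- a finitely generated commutative algebra over the rational numbers has a rational
representation -/
theorem Fin0_quot (R : Type*) [CommRing R] [Nontrivial R] [Algebra ℚ R] [Algebra.FiniteType ℚ R] :
    ∃ (e : ℕ) (_ : 0 < e), Nonempty (R →+* Matrix (Fin e) (Fin e) ℚ) := by
  obtain ⟨m, hm⟩ := Ideal.exists_maximal R
  let _ : Field (R ⧸ m) := Ideal.Quotient.field m
  have hftk : Algebra.FiniteType ℚ (R ⧸ m) :=
    Algebra.FiniteType.of_surjective (Ideal.Quotient.mkₐ ℚ m) (Ideal.Quotient.mkₐ_surjective ℚ m)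
  have hfin : Module.Finite ℚ (R ⧸ m) := finite_of_finite_type_of_isJacobsonRing ℚ (R ⧸ m)
  obtain ⟨e, he, ⟨f⟩⟩ := Fin0_field (R ⧸ m)
  exact ⟨e, he, ⟨f.comp (Ideal.Quotient.mk m)⟩⟩

/-- reduction to the field of rational numbers -/
theorem exists_rat {H K : Type*} [Group H] [Field K] [CharZero K]
    {n : ℕ} (hn : 0 < n) {φ : H →* Matrix (Fin n) (Fin n) K} (hφ : Reg φ)
    {S : Set H} (hS : S.Finite) (hgen : Subgroup.closure S = ⊤) :
    ∃ (d : ℕ) (_ : 0 < d) (ψ : H →* Matrix (Fin d) (Fin d) ℚ), Reg ψ := by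
  obtain ⟨T, hT, hent⟩ := exists_entries φ hS hgen
  set R₀ : Subalgebra ℚ K := Algebra.adjoin ℚ T with hR₀
  have hft : Algebra.FiniteType ℚ R₀ := by
    rw [← Subalgebra.fg_iff_finiteType]
    exact ⟨hT.toFinset, by rw [hT.coe_toFinset]⟩
  obtain ⟨e, he, ⟨f⟩⟩ := Fin0_quot R₀
  -- the representation over the subring
  let ι : Matrix (Fin n) (Fin n) R₀ →+* Matrix (Fin n) (Fin n) K := R₀.val.toRingHom.mapMatrix
  have hι : Function.Injective ι := by
    intro A B hAB
    ext i j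
    exact congrFun (congrFun hAB i) j
  let F : H → Matrix (Fin n) (Fin n) R₀ := fun h => Matrix.of fun i j => ⟨φ h i j, hent ℚ h i j⟩
  have hιF : ∀ h, ι (F h) = φ h := fun h => rfl
  let ψ₀ : H →* Matrix (Fin n) (Fin n) R₀ :=
    { toFun := F
      map_one' := by
        apply hι
        rw [hιF, map_one, map_one]
      map_mul' := by
        intro g h
        apply hι
        rw [map_mul, hιF, hιF, hιF, map_mul] }
  have hιψ : ∀ h, ι (ψ₀ h) = φ h := fun h => rfl
  have hreg : Reg ψ₀ := by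
    intro h hq
    refine ⟨?_, ?_⟩
    · apply hι
      rw [map_sum, map_zero]
      simp only [map_pow, hιψ]
      exact (hφ h hq).1
    · have h1 : IsUnit ((orderOf h : ℕ) : ℚ) :=
        IsUnit.mk0 _ (by exact_mod_cast hq.pos.ne')
      have h2 := h1.map (algebraMap ℚ (Matrix (Fin n) (Fin n) R₀))
      rwa [map_natCast] at h2
  -- to the rational numbers
  let f2 : Matrix (Fin n) (Fin n) R₀ →+* Matrix (Fin n) (Fin n) (Matrix (Fin e) (Fin e) ℚ) :=
    f.mapMatrix
  let f3 : Matrix (Fin n) (Fin n) (Matrix (Fin e) (Fin e) ℚ) →+*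
      Matrix (Fin n × Fin e) (Fin n × Fin e) ℚ :=
    (Matrix.compRingEquiv (Fin n) (Fin e) ℚ).toRingHom
  let f4 : Matrix (Fin n × Fin e) (Fin n × Fin e) ℚ →+* Matrix (Fin (n * e)) (Fin (n * e)) ℚ :=
    (Matrix.reindexAlgEquiv ℚ ℚ finProdFinEquiv).toRingEquiv.toRingHom
  exact ⟨n * e, Nat.mul_pos hn he, _, hreg.comp_ringHom ((f4.comp f3).comp f2)⟩

end Pool.Agent.MPd299d2
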