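import Mathlib
import Pool.Agent.Lib.MP_d299d2_al.FinP

set_option autoImplicit false

/-!
# Finitely generated periodic matrix groups with a regular representation over `ℚ`
-/

namespace Pool.Agent.MPd299d2

theorem prime_le_of_rat {H : Type*} [Group H] {d : ℕ} (hd : 0 < d)
    {ψ : H →* Matrix (Fin d) (Fin d) ℚ} (hψ : Reg ψ) {h : H} (hq : (orderOf h).Prime) :
    orderOf h ≤ d + 1 := by
  have : Nonempty (Fin d) := ⟨⟨0, hd⟩⟩
  have : Fact (orderOf h).Prime := ⟨hq⟩
  set q := orderOf h with hqdef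
  have h1 := (hψ h hq).1
  rw [← hqdef] at h1
  have h2 : Polynomial.aeval (ψ h) (Polynomial.cyclotomic q ℚ) = 0 := by
    rw [Polynomial.cyclotomic_prime, map_sum]
    simpa using h1
  have h3 := minpoly.eq_of_irreducible_of_monic
    (Polynomial.cyclotomic.irreducible_rat hq.pos) h2 (Polynomial.cyclotomic.monic q ℚ)
  have h4 := Matrix.minpoly_dvd_charpoly (ψ h)
  rw [← h3] at h4
  have h5 := Polynomial.natDegree_le_of_dvd h4 (Matrix.charpoly_monic (ψ h)).ne_zero
  rw [Polynomial.natDegree_cyclotomic, Nat.totient_prime hq, Matrix.charpoly_natDegree_eq_dim,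
    Fintype.card_fin] at h5
  omega

/-- elements of a finitely generated subring of the rational numbers are integral at a prime
which divides no denominator of a generator -/
theorem FinQ_norm {T : Set ℚ} {l : ℕ} [Fact l.Prime] (hT : ∀ t ∈ T, ¬ l ∣ t.den) {x : ℚ}
    (hx : x ∈ Algebra.adjoin ℤ T) : ‖(x : ℚ_[l])‖ ≤ 1 := by
  induction hx using Algebra.adjoin_induction with
  | mem y hy => exact Padic.norm_rat_le_one (hT y hy)
  | algebraMap r =>
    have h1 : (((algebraMap ℤ ℚ) r : ℚ) : ℚ_[l]) = ((r : ℤ) : ℚ_[l]) := by simp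
    rw [h1]
    exact Padic.norm_int_le_one r
  | add y z _ _ hy hz =>
    push_cast
    exact (Padic.nonarchimedean _ _).trans (max_le hy hz)
  | mul y z _ _ hy hz =>
    push_cast
    rw [norm_mul]
    exact mul_le_one₀ hy (norm_nonneg _) hz

theorem finite_of_rat {H : Type*} [Group H] {d : ℕ} (hd : 0 < d)
    {ψ : H →* Matrix (Fin d) (Fin d) ℚ} (hψ : Reg ψ) (ht : ∀ h : H, IsOfFinOrder h)
    {S : Set H} (hS : S.Finite) (hgen : Subgroup.closure S = ⊤) : Finite H := by
  classical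
  have : Nonempty (Fin d) := ⟨⟨0, hd⟩⟩
  obtain ⟨T, hTf, hT⟩ := exists_entries ψ hS hgen
  -- the prime
  obtain ⟨l, hl1, hl2⟩ := Nat.exists_infinite_primes (d + 2 + ∑ t ∈ hTf.toFinset, t.den)
  have : Fact l.Prime := ⟨hl2⟩
  have hlT : ∀ t ∈ T, ¬ l ∣ t.den := by
    intro t ht' hdvd
    have h1 : t.den ≤ ∑ t ∈ hTf.toFinset, t.den :=
      Finset.single_le_sum (f := fun t : ℚ => t.den) (fun _ _ => Nat.zero_le _)
        (hTf.mem_toFinset.mpr ht')
    have h2 := Nat.le_of_dvd t.pos hdvd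
    omega
  have hint : ∀ (h : H) (i j : Fin d), ‖((ψ h i j : ℚ) : ℚ_[l])‖ ≤ 1 := fun h i j =>
    FinQ_norm hlT (hT ℤ h i j)
  -- the representation over the `l`-adic integers
  let φQ : Matrix (Fin d) (Fin d) ℚ →+* Matrix (Fin d) (Fin d) ℚ_[l] :=
    (Rat.castHom ℚ_[l]).mapMatrix
  let φZ : Matrix (Fin d) (Fin d) ℤ_[l] →+* Matrix (Fin d) (Fin d) ℚ_[l] :=
    (PadicInt.Coe.ringHom (p := l)).mapMatrix
  have hφZ : Function.Injective φZ := by
    intro A B hAB
    refine Matrix.ext fun i j => ?_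
    have h1 : φZ A i j = φZ B i j := congrFun (congrFun hAB i) j
    exact Subtype.ext h1
  let ψ0 : H → Matrix (Fin d) (Fin d) ℤ_[l] := fun h => Matrix.of fun i j =>
    ⟨((ψ h i j : ℚ) : ℚ_[l]), hint h i j⟩
  have hψ0 : ∀ h, φZ (ψ0 h) = φQ (ψ h) := by
    intro h
    ext i j
    rfl
  let ψ1 : H →* Matrix (Fin d) (Fin d) ℤ_[l] :=
    { toFun := ψ0
      map_one' := by
        apply hφZ
        rw [hψ0, map_one, map_one, map_one]
      map_mul' := by
        intro a b
        apply hφZ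
        rw [map_mul, hψ0, hψ0, hψ0, map_mul, map_mul] }
  have hψ1 : ∀ h, φZ (ψ1 h) = φQ (ψ h) := hψ0
  let f : Matrix (Fin d) (Fin d) ℤ_[l] →+* Matrix (Fin d) (Fin d) (ZMod l) :=
    (PadicInt.toZMod (p := l)).mapMatrix
  let ψ2 : H →* Matrix (Fin d) (Fin d) (ZMod l) :=
    (f : Matrix (Fin d) (Fin d) ℤ_[l] →* Matrix (Fin d) (Fin d) (ZMod l)).comp ψ1
  have hreg : Reg ψ2 := by
    intro h hq
    have hle := prime_le_of_rat hd hψ hq
    refine ⟨?_, ?_⟩
    · have h1 : ∑ i ∈ Finset.range (orderOf h), ψ1 h ^ i = 0 := by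
        apply hφZ
        rw [map_sum, map_zero]
        have h2 := congrArg φQ (hψ h hq).1
        rw [map_sum, map_zero] at h2
        rw [← h2]
        refine Finset.sum_congr rfl fun i _ => ?_
        rw [map_pow, map_pow, hψ1]
      have h3 := congrArg f h1
      rw [map_sum, map_zero] at h3
      rw [← h3]
      refine Finset.sum_congr rfl fun i _ => ?_
      rw [map_pow]
      rfl
    · have h1 : ((orderOf h : ℕ) : ZMod l) ≠ 0 := by
        intro h2
        rw [ZMod.natCast_eq_zero_iff] at h2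
        have := Nat.le_of_dvd hq.pos h2
        omega
      have h2 : IsUnit ((orderOf h : ℕ) : ZMod l) := isUnit_iff_ne_zero.mpr h1
      have h3 := h2.map (algebraMap (ZMod l) (Matrix (Fin d) (Fin d) (ZMod l)))
      rwa [map_natCast] at h3
  have hinj := hreg.injective ht
  exact Finite.of_injective ψ2 hinj

end Pool.Agent.MPd299d2
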