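import Mathlib
import Pool.Agent.Lib.MP_d299d2_al.Normal
import Pool.Agent.Lib.MP_d299d2_al.Central

set_option autoImplicit false

/-!
# Regular representations over an algebraically closed field: arguments with eigenvectors
-/

namespace Pool.Agent.MPd299d2

variable {H K V : Type*} [Group H] [Field K] [IsAlgClosed K] [AddCommGroup V] [Module K V]
  [FiniteDimensional K V] [Nontrivial V] {φ : H →* Module.End K V}

omit [IsAlgClosed K] [FiniteDimensional K V] in
theorem Eig_fix (hφ : Reg φ) {c : H} (hc : (orderOf c).Prime) {x : V} (hx : x ≠ 0)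
    (hf : φ c x = x) : False := by
  have h1 := hφ.primitive hc rfl (l := (1 : K)) hx (by rw [hf, one_smul])
  have h2 := h1.eq_orderOf
  rw [orderOf_one] at h2
  rw [h2] at hc
  exact Nat.not_prime_one hc

/-- the eigenvalue of an element `n` of finite order has the same order as `n` -/
theorem Reg.eigenvalue (hφ : Reg φ) {n : H} (hn : IsOfFinOrder n) {ξ : K} {x : V} (hx : x ≠ 0)
    (hξ : φ n x = ξ • x) : IsPrimitiveRoot ξ (orderOf n) := by
  refine ⟨?_, ?_⟩
  · have h2 := pow_eigen (φ n) hξ (orderOf n)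
    rw [← map_pow, pow_orderOf_eq_one, map_one, Module.End.one_apply] at h2
    have h3 : (ξ ^ orderOf n - 1) • x = 0 := by rw [sub_smul, one_smul, ← h2, sub_self]
    exact sub_eq_zero.mp ((smul_eq_zero.mp h3).resolve_right hx)
  · intro k hk
    by_contra hcon
    have h1 : n ^ k ≠ 1 := fun h => hcon (orderOf_dvd_of_pow_eq_one h)
    obtain ⟨m, hm⟩ := exists_pow_prime h1 (hn.pow)
    refine Eig_fix hφ hm hx ?_
    have h2 := pow_eigen (φ n) hξ (k * m)
    rw [pow_mul ξ, hk, one_pow, one_smul, ← map_pow, pow_mul] at h2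
    exact h2

theorem Reg.mem_zpowers (hφ : Reg φ) {x y : H} {q : ℕ} (hq : q.Prime) (hx : orderOf x = q)
    (hy : orderOf y = q) (hxy : x * y = y * x) : y ∈ Subgroup.zpowers x := by
  obtain ⟨ξ, hξ⟩ := Module.End.exists_eigenvalue (φ x)
  have hcomm : φ x * φ y = φ y * φ x := by rw [← map_mul, ← map_mul, hxy]
  set W := Module.End.eigenspace (φ x) ξ with hW
  have hinv : ∀ w ∈ W, φ y w ∈ W := by
    intro w hw
    rw [hW, Module.End.mem_eigenspace_iff] at hw ⊢
    have h1 := congrArg (fun f : Module.End K V => f w) hcomm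
    simp only [Module.End.mul_apply] at h1
    rw [h1, hw, map_smul]
  have hWn : Nontrivial W := by
    rw [Submodule.nontrivial_iff_ne_bot]
    exact hξ
  obtain ⟨η, hη⟩ := Module.End.exists_eigenvalue ((φ y).restrict hinv)
  obtain ⟨w, hw⟩ := hη.exists_hasEigenvector
  have hw0 : (w : V) ≠ 0 := fun h => hw.2 (Subtype.ext h)
  have hyw : φ y (w : V) = η • (w : V) := by
    have h1 := congrArg Subtype.val hw.apply_eq_smul
    simpa using h1
  have hxw : φ x (w : V) = ξ • (w : V) := Module.End.mem_eigenspace_iff.mp w.2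
  have hξp := hφ.primitive hq hx hw0 hxw
  have hηp := hφ.primitive hq hy hw0 hyw
  have hqz : NeZero q := ⟨hq.ne_zero⟩
  obtain ⟨s, hs, hsη⟩ := hξp.eq_pow_of_pow_eq_one hηp.pow_eq_one
  have hxq : x ^ q = 1 := by rw [← hx]; exact pow_orderOf_eq_one x
  have hyq : y ^ q = 1 := by rw [← hy]; exact pow_orderOf_eq_one y
  have hcom : Commute y (x ^ (q - s)) := Commute.pow_right (show y * x = x * y from hxy.symm) _
  have hz : y * x ^ (q - s) = 1 := by
    by_contra hz1
    have : Fact q.Prime := ⟨hq⟩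
    have h1 : (y * x ^ (q - s)) ^ q = 1 := by
      rw [hcom.mul_pow, hyq, one_mul, ← pow_mul, mul_comm, pow_mul, hxq, one_pow]
    have h2 := orderOf_eq_prime h1 hz1
    refine Eig_fix hφ (c := y * x ^ (q - s)) (by rw [h2]; exact hq) hw0 ?_
    rw [map_mul, map_pow, Module.End.mul_apply, pow_eigen _ hxw, map_smul, hyw, ← hsη, smul_smul,
      ← pow_add, Nat.sub_add_cancel hs.le, hξp.pow_eq_one, one_smul]
  rw [eq_inv_of_mul_eq_one_left hz]
  exact Subgroup.inv_mem _ (Subgroup.pow_mem _ (Subgroup.mem_zpowers x) _)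

/-- If `a` has prime order and normalizes `⟨n⟩` then `a` commutes with `n`. -/
theorem Reg.commute_of_normalizes (hφ : Reg φ) {a n : H} (ha : (orderOf a).Prime)
    (hn : IsOfFinOrder n) (h : a * n * a⁻¹ ∈ Subgroup.zpowers n) : a * n = n * a := by
  by_contra hcon
  obtain ⟨s, hs⟩ := exists_conj_pow hn h
  obtain ⟨ξ, hξ⟩ := Module.End.exists_eigenvalue (φ n)
  obtain ⟨x, hx⟩ := hξ.exists_hasEigenvector
  have hx0 : x ≠ 0 := hx.2
  have hnx : φ n x = ξ • x := hx.apply_eq_smul
  have hprim := hφ.eigenvalue hn hx0 hnx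
  have hconj : ∀ i : ℕ, a ^ i * n * (a ^ i)⁻¹ = n ^ s ^ i := fun i => conj_iter hs i
  have hv : ∀ i : ℕ, φ n (φ ((a ^ i)⁻¹) x) = ξ ^ s ^ i • φ ((a ^ i)⁻¹) x := by
    intro i
    have h1 : n * (a ^ i)⁻¹ = (a ^ i)⁻¹ * n ^ s ^ i := by
      rw [← hconj i]
      group
    have h2 : φ n (φ ((a ^ i)⁻¹) x) = φ (n * (a ^ i)⁻¹) x := by
      rw [map_mul, Module.End.mul_apply]
    rw [h2, h1, map_mul, Module.End.mul_apply, map_pow, pow_eigen _ hnx, map_smul]
  have hv0 : ∀ i : ℕ, φ ((a ^ i)⁻¹) x ≠ 0 := by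
    intro i h0
    apply hx0
    have h1 : φ (a ^ i) (φ ((a ^ i)⁻¹) x) = x := by
      rw [← Module.End.mul_apply, ← map_mul, mul_inv_cancel, map_one, Module.End.one_apply]
    rw [← h1, h0, map_zero]
  have hlt : ∀ i j : ℕ, i < j → j < orderOf a → ξ ^ s ^ i ≠ ξ ^ s ^ j := by
    intro i j hij hj he
    apply hcon
    have h1 : n ^ s ^ i = n ^ s ^ j := by
      have hpos : 0 < orderOf n := hn.orderOf_pos
      rw [← pow_mod_orderOf ξ (s ^ i), ← pow_mod_orderOf ξ (s ^ j), ← hprim.eq_orderOf] at he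
      rw [← pow_mod_orderOf n (s ^ i), ← pow_mod_orderOf n (s ^ j),
        hprim.pow_inj (Nat.mod_lt _ hpos) (Nat.mod_lt _ hpos) he]
    rw [← hconj i, ← hconj j] at h1
    have h2 : Commute (a ^ (j - i)) n := by
      have e : a ^ j = a ^ i * a ^ (j - i) := by rw [← pow_add, Nat.add_sub_cancel' hij.le]
      rw [e] at h1
      have h3 : n = a ^ (j - i) * n * (a ^ (j - i))⁻¹ := by
        have h4 := congrArg (fun z => (a ^ i)⁻¹ * z * a ^ i) h1
        have e1 : (a ^ i)⁻¹ * (a ^ i * n * (a ^ i)⁻¹) * a ^ i = n := by group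
        have e2 : (a ^ i)⁻¹ * (a ^ i * a ^ (j - i) * n * (a ^ i * a ^ (j - i))⁻¹) * a ^ i =
            a ^ (j - i) * n * (a ^ (j - i))⁻¹ := by
          rw [mul_inv_rev]
          simp [mul_assoc]
        rw [e1, e2] at h4
        exact h4
      show a ^ (j - i) * n = n * a ^ (j - i)
      nth_rewrite 2 [h3]
      simp [mul_assoc]
    have hcop : (j - i).Coprime (orderOf a) := by
      rw [Nat.coprime_comm]
      exact (Nat.Prime.coprime_iff_not_dvd ha).mpr (Nat.not_dvd_of_pos_of_lt (by omega) (by omega))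
    obtain ⟨m, hm⟩ := exists_pow_eq_self_of_coprime hcop
    have h3 : Commute ((a ^ (j - i)) ^ m) n := h2.pow_left m
    rw [hm] at h3
    exact h3
  have hμ : Function.Injective fun i : Fin (orderOf a) => ξ ^ s ^ (i : ℕ) := by
    intro i j hij
    by_contra hne
    rcases lt_or_gt_of_ne (fun h' => hne (Fin.ext h') : (i : ℕ) ≠ (j : ℕ)) with h1 | h1
    · exact hlt i j h1 j.2 hij
    · exact hlt j i h1 i.2 hij.symm
  have hli := Module.End.eigenvectors_linearIndependent' (φ n)
    (fun i : Fin (orderOf a) => ξ ^ s ^ (i : ℕ)) hμ (fun i => φ ((a ^ (i : ℕ))⁻¹) x)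
    (fun i => ⟨Module.End.mem_eigenspace_iff.mpr (hv i), hv0 i⟩)
  have hsum : ∑ i : Fin (orderOf a), (1 : K) • φ ((a ^ (i : ℕ))⁻¹) x = 0 := by
    have h1 := (hφ a⁻¹ (by rw [orderOf_inv]; exact ha)).1
    rw [orderOf_inv] at h1
    have h2 := congrArg (fun f : Module.End K V => f x) h1
    simp only [LinearMap.sum_apply, LinearMap.zero_apply] at h2
    rw [← Fin.sum_univ_eq_sum_range (fun i => (φ a⁻¹ ^ i) x)] at h2
    rw [← h2]
    refine Finset.sum_congr rfl fun i _ => ?_
    rw [one_smul, ← map_pow, inv_pow]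
  have h1 := Fintype.linearIndependent_iff.mp hli (fun _ => 1) hsum ⟨0, ha.pos⟩
  exact one_ne_zero h1

end Pool.Agent.MPd299d2
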