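import Mathlib

set_option autoImplicit false

/-!
# Finite `p`-groups, `p` odd, in which commuting elements of order `p` generate the same subgroup
-/

namespace Pool.Agent.MPd299d2

theorem PGroup_conj {G : Type*} [Group G] {x y z : G} (h : x * y = z * (y * x))
    (hx : Commute z x) (n : ℕ) : x ^ n * y = z ^ n * (y * x ^ n) := by
  induction n with
  | zero => simp
  | succ n ih =>
    have h1 : x ^ (n + 1) * y = x ^ n * (x * y) := by rw [pow_succ]; group
    have h2 : x ^ n * z = z * x ^ n := ((hx.pow_right n).eq).symm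
    rw [h1, h]
    calc x ^ n * (z * (y * x)) = (x ^ n * z) * (y * x) := by group
      _ = z * (x ^ n * y) * x := by rw [h2]; group
      _ = z * (z ^ n * (y * x ^ n)) * x := by rw [ih]
      _ = z ^ (n + 1) * (y * x ^ (n + 1)) := by
        rw [pow_succ' z, pow_succ x]; simp only [mul_assoc]

theorem PGroup_mul_pow {G : Type*} [Group G] {u v c : G} (h : u * v = c * (v * u))
    (hu : Commute c u) (hv : Commute c v) (n : ℕ) :
    c ^ (n.choose 2) * (u * v) ^ n = u ^ n * v ^ n := by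
  induction n with
  | zero => simp
  | succ n ih =>
    have hc : Commute c (u * v) := hu.mul_right hv
    have h1 : (u * v) * v = c * (v * (u * v)) := by
      calc (u * v) * v = c * (v * u) * v := by rw [h]
        _ = c * (v * (u * v)) := by simp only [mul_assoc]
    have h2 := PGroup_conj h1 hc n
    have hch : (n + 1).choose 2 = n.choose 2 + n := by
      rw [Nat.choose_succ_succ' n 1, Nat.choose_one_right]; ring
    have h3 : u * c ^ (n.choose 2) = c ^ (n.choose 2) * u := ((hu.pow_left _).eq).symm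
    have h4 : u * c ^ n = c ^ n * u := ((hu.pow_left _).eq).symm
    symm
    calc u ^ (n + 1) * v ^ (n + 1) = u * (u ^ n * v ^ n) * v := by
          rw [pow_succ' u, pow_succ v]; simp only [mul_assoc]
      _ = (u * c ^ (n.choose 2)) * ((u * v) ^ n * v) := by
          rw [← ih]; simp only [mul_assoc]
      _ = c ^ (n.choose 2) * ((u * c ^ n) * (v * (u * v) ^ n)) := by
          rw [h2, h3]; simp only [mul_assoc]
      _ = c ^ ((n + 1).choose 2) * (u * v) ^ (n + 1) := by
          rw [h4, hch, pow_add, pow_succ' (u * v)]; simp only [mul_assoc]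

theorem PGroup_mem_of_pow {G : Type*} [Group G] {p : ℕ} [Fact p.Prime] (hG : IsPGroup p G)
    (M : Subgroup G) (g : G) (m : ℤ) (hm : IsCoprime m (p : ℤ)) (h : g ^ m ∈ M) : g ∈ M := by
  obtain ⟨k, hk⟩ := hG g
  have h1 : IsCoprime m ((p : ℤ) ^ k) := hm.pow_right
  obtain ⟨a, b, hab⟩ := h1
  have h2 : g = (g ^ m) ^ a := by
    have h3 : g ^ (a * m + b * (p : ℤ) ^ k) = g := by rw [hab, zpow_one]
    have h4 : g ^ (b * (p : ℤ) ^ k) = 1 := by
      have h5 : g ^ ((p : ℤ) ^ k) = 1 := by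
        have := hk
        rw [← zpow_natCast] at this
        push_cast at this
        exact this
      rw [mul_comm, zpow_mul, h5, one_zpow]
    rw [zpow_add, h4, mul_one, mul_comm, zpow_mul] at h3
    exact h3.symm
  rw [h2]
  exact M.zpow_mem h a

theorem PGroup_pow_mem {G : Type*} [Group G] {p : ℕ} [Fact p.Prime] (hG : IsPGroup p G)
    (M : Subgroup G) (hM : IsCoatom M) (hn : M.Normal) (g : G) : g ^ p ∈ M := by
  by_contra hgp
  have hlt : M < M ⊔ Subgroup.zpowers (g ^ p) := by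
    refine lt_of_le_of_ne le_sup_left ?_
    intro h
    apply hgp
    rw [h]
    exact (le_sup_right : Subgroup.zpowers (g ^ p) ≤ _) (Subgroup.mem_zpowers _)
  have htop := hM.2 _ hlt
  have hg : g ∈ M ⊔ Subgroup.zpowers (g ^ p) := by rw [htop]; exact Subgroup.mem_top g
  rw [Subgroup.mem_sup_of_normal_left] at hg
  obtain ⟨m, hm, w, hw, hmw⟩ := hg
  obtain ⟨k, rfl⟩ := Subgroup.mem_zpowers_iff.1 hw
  have h1 : g ^ (1 - (p : ℤ) * k) ∈ M := by
    have : g ^ (1 - (p : ℤ) * k) = m := by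
      rw [zpow_sub, zpow_one, zpow_mul, zpow_natCast]
      rw [mul_inv_eq_iff_eq_mul]
      exact hmw.symm
    rw [this]; exact hm
  have h2 : g ∈ M := PGroup_mem_of_pow hG M g _ ⟨1, k, by ring⟩ h1
  exact hgp (M.pow_mem h2 p)

theorem PGroup_main {P : Type*} [Group P] [Finite P] {p : ℕ} [Fact p.Prime] (hp : p ≠ 2)
    (hP : IsPGroup p P)
    (hU : ∀ x y : P, orderOf x = p → orderOf y = p → x * y = y * x →
      y ∈ Subgroup.zpowers x)
    (ih : ∀ M : Subgroup P, M ≠ ⊤ → IsCyclic M) : IsCyclic P := by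
  have hpp : p.Prime := Fact.out
  by_contra hcyc
  have hz : ∀ g : P, Subgroup.zpowers g ≠ ⊤ := by
    intro g hg
    apply hcyc
    exact ⟨g, fun y => by
      have : y ∈ (⊤ : Subgroup P) := Subgroup.mem_top y
      rw [← hg] at this
      exact this⟩
  have hnil : Group.IsNilpotent P := hP.isNilpotent
  have hnc : NormalizerCondition P := Group.normalizerCondition_of_isNilpotent
  obtain ⟨M1, hM1, -⟩ := (eq_top_or_exists_le_coatom (Subgroup.zpowers (1 : P))).resolve_left (hz 1)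
  have hy0 : ∃ y0 : P, y0 ∉ M1 := by
    by_contra hcon
    push Not at hcon
    exact hM1.1 ((Subgroup.eq_top_iff' M1).2 hcon)
  obtain ⟨y0, hy0⟩ := hy0
  obtain ⟨M2, hM2, hle⟩ :=
    (eq_top_or_exists_le_coatom (Subgroup.zpowers y0)).resolve_left (hz y0)
  have hne : M1 ≠ M2 := by
    intro h
    apply hy0
    rw [h]
    exact hle (Subgroup.mem_zpowers y0)
  have hN1 : M1.Normal := Subgroup.NormalizerCondition.normal_of_coatom M1 hnc hM1
  have hN2 : M2.Normal := Subgroup.NormalizerCondition.normal_of_coatom M2 hnc hM2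
  obtain ⟨x, hx⟩ := (Subgroup.isCyclic_iff_exists_zpowers_eq_top M1).1 (ih M1 hM1.1)
  obtain ⟨y, hy⟩ := (Subgroup.isCyclic_iff_exists_zpowers_eq_top M2).1 (ih M2 hM2.1)
  have hxM1 : x ∈ M1 := by rw [← hx]; exact Subgroup.mem_zpowers x
  have hyM2 : y ∈ M2 := by rw [← hy]; exact Subgroup.mem_zpowers y
  have hxM2 : x ∉ M2 := by
    intro h
    have h1 : M1 ≤ M2 := by rw [← hx]; exact (Subgroup.zpowers_le).2 h
    rcases h1.eq_or_lt with h2 | h2
    · exact hne h2
    · exact hM2.1 (hM1.2 _ h2)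
  have hyM1 : y ∉ M1 := by
    intro h
    have h1 : M2 ≤ M1 := by rw [← hy]; exact (Subgroup.zpowers_le).2 h
    rcases h1.eq_or_lt with h2 | h2
    · exact hne h2.symm
    · exact hM1.1 (hM2.2 _ h2)
  have hcomm1 : ∀ a ∈ M1, ∀ b ∈ M1, Commute a b := by
    intro a ha b hb
    rw [← hx] at ha hb
    obtain ⟨i, rfl⟩ := Subgroup.mem_zpowers_iff.1 ha
    obtain ⟨j, rfl⟩ := Subgroup.mem_zpowers_iff.1 hb
    exact (Commute.refl x).zpow_zpow i j
  have hcomm2 : ∀ a ∈ M2, ∀ b ∈ M2, Commute a b := by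
    intro a ha b hb
    rw [← hy] at ha hb
    obtain ⟨i, rfl⟩ := Subgroup.mem_zpowers_iff.1 ha
    obtain ⟨j, rfl⟩ := Subgroup.mem_zpowers_iff.1 hb
    exact (Commute.refl y).zpow_zpow i j
  -- the commutator of an element of `M1` and one of `M2`
  have hbr1 : ∀ u ∈ M1, ∀ v : P, u * v * u⁻¹ * v⁻¹ ∈ M1 := by
    intro u hu v
    have h1 : v * u⁻¹ * v⁻¹ ∈ M1 := hN1.conj_mem _ (M1.inv_mem hu) v
    have h2 : u * v * u⁻¹ * v⁻¹ = u * (v * u⁻¹ * v⁻¹) := by group
    rw [h2]
    exact M1.mul_mem hu h1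
  have hbr2 : ∀ u : P, ∀ v ∈ M2, u * v * u⁻¹ * v⁻¹ ∈ M2 := by
    intro u v hv
    exact M2.mul_mem (hN2.conj_mem _ hv u) (M2.inv_mem hv)
  have hpow : ∀ u ∈ M1, ∀ v ∈ M2, (u * v) ^ p = u ^ p * v ^ p := by
    intro u hu v hv
    set c := u * v * u⁻¹ * v⁻¹ with hc
    have hc1 : c ∈ M1 := hbr1 u hu v
    have hc2 : c ∈ M2 := hbr2 u v hv
    have hcu : Commute c u := hcomm1 c hc1 u hu
    have hcv : Commute c v := hcomm2 c hc2 v hv
    have huv : u * v = c * (v * u) := by rw [hc]; group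
    have hupM2 : u ^ p ∈ M2 := PGroup_pow_mem hP M2 hM2 hN2 u
    have h1 := PGroup_conj huv hcu p
    have h2 : u ^ p * v = v * u ^ p := (hcomm2 _ hupM2 v hv).eq
    have h3 : c ^ p = 1 := by
      rw [h2] at h1
      exact right_eq_mul.1 h1
    have h4 := PGroup_mul_pow huv hcu hcv p
    have h5 : p ∣ p.choose 2 := by
      refine hpp.dvd_choose_self (by norm_num) ?_
      have := hpp.two_le
      omega
    obtain ⟨r, hr⟩ := h5
    rw [hr, pow_mul, h3, one_pow, one_mul] at h4
    exact h4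
  have hxp : x ^ p ∈ M2 := PGroup_pow_mem hP M2 hM2 hN2 x
  have hyp : y ^ p ∈ M1 := PGroup_pow_mem hP M1 hM1 hN1 y
  have hkey : ∃ k : ℤ, y ^ p = (x ^ p) ^ k := by
    have h1 := hyp
    rw [← hx] at h1
    obtain ⟨m, hm⟩ := Subgroup.mem_zpowers_iff.1 h1
    by_cases hd : (p : ℤ) ∣ m
    · obtain ⟨k, rfl⟩ := hd
      refine ⟨k, ?_⟩
      rw [← hm, zpow_mul, zpow_natCast]
    · exfalso
      apply hxM2
      have hco : IsCoprime m (p : ℤ) := by
        rw [isCoprime_comm]
        exact ((Nat.prime_iff_prime_int.1 hpp).coprime_iff_not_dvd).2 hd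
      refine PGroup_mem_of_pow hP M2 x m hco ?_
      rw [hm]
      exact M2.pow_mem hyM2 p
  obtain ⟨k, hk⟩ := hkey
  set u := (x ^ k)⁻¹ with hu
  have huM1 : u ∈ M1 := M1.inv_mem (M1.zpow_mem hxM1 k)
  have hw : (u * y) ^ p = 1 := by
    rw [hpow u huM1 y hyM2, hk, hu, inv_pow, ← zpow_natCast, ← zpow_natCast, ← zpow_mul,
      ← zpow_mul, mul_comm k]
    simp
  have hwM1 : u * y ∉ M1 := by
    intro h
    exact hyM1 ((M1.mul_mem_cancel_left huM1).1 h)
  have hword : orderOf (u * y) = p := by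
    refine orderOf_eq_prime hw ?_
    intro h
    apply hwM1
    rw [h]
    exact M1.one_mem
  by_cases hZ : M1 ⊓ M2 = ⊥
  · have hc : x * y * x⁻¹ * y⁻¹ ∈ M1 ⊓ M2 := ⟨hbr1 x hxM1 y, hbr2 x y hyM2⟩
    rw [hZ, Subgroup.mem_bot] at hc
    have hcomm : x * y = y * x := by
      have h1 : x * y = (x * y * x⁻¹ * y⁻¹) * (y * x) := by group
      rw [h1, hc, one_mul]
    have hx1 : x ^ p = 1 := by
      have : x ^ p ∈ M1 ⊓ M2 := ⟨M1.pow_mem hxM1 p, hxp⟩
      rw [hZ, Subgroup.mem_bot] at this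
      exact this
    have hy1 : y ^ p = 1 := by
      have : y ^ p ∈ M1 ⊓ M2 := ⟨hyp, M2.pow_mem hyM2 p⟩
      rw [hZ, Subgroup.mem_bot] at this
      exact this
    have hxo : orderOf x = p := orderOf_eq_prime hx1 (by
      intro h
      apply hxM2
      rw [h]
      exact M2.one_mem)
    have hyo : orderOf y = p := orderOf_eq_prime hy1 (by
      intro h
      apply hyM1
      rw [h]
      exact M1.one_mem)
    have h1 := hU x y hxo hyo hcomm
    rw [hx] at h1
    exact hyM1 h1
  · obtain ⟨z, hzM, hz1⟩ := ((M1 ⊓ M2).bot_or_exists_ne_one).resolve_left hZ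
    have hordz : ∃ t ∈ M1 ⊓ M2, orderOf t = p := by
      have hdv : p ∣ orderOf z := by
        obtain ⟨n, hn⟩ := hP z
        obtain ⟨j, -, hj⟩ := (Nat.dvd_prime_pow hpp).1 (orderOf_dvd_of_pow_eq_one hn)
        rw [hj]
        rcases Nat.eq_zero_or_pos j with h0 | h0
        · exfalso
          rw [h0, pow_zero, orderOf_eq_one_iff] at hj
          exact hz1 hj
        · exact dvd_pow_self p h0.ne'
      refine ⟨z ^ (orderOf z / p), (M1 ⊓ M2).pow_mem hzM _, ?_⟩
      exact orderOf_pow_orderOf_div (orderOf_pos z).ne' hdv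
    obtain ⟨t, ht, hto⟩ := hordz
    have hcomm : t * (u * y) = u * y * t := by
      have h1 : Commute t u := hcomm1 t ht.1 u huM1
      have h2 : Commute t y := hcomm2 t ht.2 y hyM2
      exact (h1.mul_right h2).eq
    have h1 := hU t (u * y) hto hword hcomm
    apply hwM1
    have h2 : Subgroup.zpowers t ≤ M1 := (Subgroup.zpowers_le).2 ht.1
    exact h2 h1

theorem PGroup_ind {p : ℕ} [Fact p.Prime] (hp : p ≠ 2) (n : ℕ) :
    ∀ {P : Type*} [Group P] [Finite P], Nat.card P = n → IsPGroup p P →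
    (∀ x y : P, orderOf x = p → orderOf y = p → x * y = y * x →
      y ∈ Subgroup.zpowers x) → IsCyclic P := by
  induction n using Nat.strong_induction_on with
  | _ n ih =>
    intro P _ _ hn hP hU
    refine PGroup_main hp hP hU ?_
    intro M hM
    have hlt : Nat.card M < n := by
      rw [← hn]
      exact lt_of_le_of_ne (Subgroup.card_le_card_group M)
        (fun h => hM (Subgroup.eq_top_of_card_eq M h))
    refine ih (Nat.card M) hlt rfl (hP.to_subgroup M) ?_
    intro x y hx hy hxy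
    have h1 := hU x.1 y.1 (by rw [Subgroup.orderOf_coe]; exact hx)
      (by rw [Subgroup.orderOf_coe]; exact hy) (congrArg Subtype.val hxy)
    obtain ⟨k, hk⟩ := Subgroup.mem_zpowers_iff.1 h1
    exact Subgroup.mem_zpowers_iff.2 ⟨k, Subtype.ext (by simpa using hk)⟩

theorem isCyclic_of_pGroup {P : Type*} [Group P] [Finite P] {p : ℕ} [Fact p.Prime] (hp : p ≠ 2)
    (hP : IsPGroup p P)
    (hU : ∀ x y : P, orderOf x = p → orderOf y = p → x * y = y * x →
      y ∈ Subgroup.zpowers x) : IsCyclic P :=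
  PGroup_ind hp (Nat.card P) rfl hP hU

end Pool.Agent.MPd299d2
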