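import Mathlib
import Pool.Agent.Lib.MP_d299d2_al.Eig
import Pool.Agent.Lib.MP_d299d2_al.PGroup

set_option autoImplicit false

/-!
# Finite groups of odd order with a regular representation
-/

namespace Pool.Agent.MPd299d2

variable {H K V : Type*} [Group H] [Field K] [IsAlgClosed K] [AddCommGroup V] [Module K V]
  [FiniteDimensional K V] [Nontrivial V] {φ : H →* Module.End K V}

theorem FinReg_zgroup [Finite H] (hφ : Reg φ) (h2 : ∀ h : H, orderOf h ≠ 2) : IsZGroup H := by
  refine ⟨fun r hr P => ?_⟩
  have : Fact r.Prime := ⟨hr⟩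
  by_cases hr2 : r = 2
  · subst hr2
    have hnd : ¬ 2 ∣ Nat.card P := by
      intro hd
      obtain ⟨x, hx⟩ := exists_prime_orderOf_dvd_card' 2 hd
      exact h2 (x : H) (by rw [Subgroup.orderOf_coe]; exact hx)
    obtain ⟨n, hn⟩ := IsPGroup.iff_card.1 P.2
    have hn0 : n = 0 := by
      by_contra h0
      apply hnd
      rw [hn]
      exact dvd_pow_self 2 h0
    have hc : Nat.card P = 1 := by
      rw [hn, hn0, pow_zero]
    have : Subsingleton P := (Nat.card_eq_one_iff_unique.1 hc).1
    exact isCyclic_of_subsingleton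
  · refine isCyclic_of_pGroup hr2 P.2 fun x y hx hy hxy => ?_
    have h1 := hφ.mem_zpowers (x := (x : H)) (y := (y : H)) hr
      (by rw [Subgroup.orderOf_coe]; exact hx) (by rw [Subgroup.orderOf_coe]; exact hy)
      (congrArg Subtype.val hxy)
    obtain ⟨k, hk⟩ := Subgroup.mem_zpowers_iff.1 h1
    exact Subgroup.mem_zpowers_iff.2 ⟨k, Subtype.ext (by simpa using hk)⟩

/-- In a finite group without involutions which has a regular representation elements of the same
prime order commute. -/
theorem Reg.commute_finite [Finite H] (hφ : Reg φ) (h2 : ∀ h : H, orderOf h ≠ 2) {a b : H}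
    {q : ℕ} (hq : q.Prime) (ha : orderOf a = q) (hb : orderOf b = q) : a * b = b * a := by
  have := FinReg_zgroup hφ h2
  set N : Subgroup H := commutator H with hN
  have hcyc : IsCyclic N := IsZGroup.isCyclic_commutator H
  have hcop : (Nat.card N).Coprime N.index := IsZGroup.coprime_commutator_index H
  obtain ⟨n, hn⟩ := hcyc.exists_generator
  have hgen : ∀ x ∈ N, ∃ k : ℤ, (n : H) ^ k = x := by
    intro x hx
    obtain ⟨k, hk⟩ := Subgroup.mem_zpowers_iff.1 (hn ⟨x, hx⟩)
    exact ⟨k, by simpa using congrArg Subtype.val hk⟩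
  by_cases hd : q ∣ Nat.card N
  · have hnd : ¬ q ∣ N.index := by
      intro h
      have := Nat.dvd_gcd hd h
      rw [hcop] at this
      exact hq.one_lt.ne' (Nat.dvd_one.1 this)
    have hmem : ∀ g : H, orderOf g = q → g ∈ N := by
      intro g hg
      rw [← QuotientGroup.eq_one_iff (N := N)]
      have h1 : orderOf (g : H ⧸ N) ∣ q := by
        rw [← hg]
        exact orderOf_map_dvd (QuotientGroup.mk' N) g
      have h3 : orderOf (g : H ⧸ N) ∣ N.index := orderOf_dvd_natCard _
      rcases (Nat.dvd_prime hq).1 h1 with h4 | h4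
      · exact orderOf_eq_one_iff.1 h4
      · rw [h4] at h3
        exact absurd h3 hnd
    obtain ⟨i, hi⟩ := hgen a (hmem a ha)
    obtain ⟨j, hj⟩ := hgen b (hmem b hb)
    rw [← hi, ← hj, ← zpow_add, ← zpow_add, add_comm]
  · have hnN : a * (n : H) * a⁻¹ ∈ Subgroup.zpowers (n : H) := by
      have h1 : a * (n : H) * a⁻¹ ∈ N :=
        (inferInstance : (commutator H).Normal).conj_mem _ n.2 a
      obtain ⟨k, hk⟩ := hgen _ h1
      exact Subgroup.mem_zpowers_iff.2 ⟨k, hk⟩
    have hcn : a * (n : H) = n * a :=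
      hφ.commute_of_normalizes (by rw [ha]; exact hq) (isOfFinOrder_of_finite _) hnN
    have hcomm : ∀ x ∈ N, Commute a x := by
      intro x hx
      obtain ⟨k, hk⟩ := hgen x hx
      rw [← hk]
      exact (show Commute a (n : H) from hcn).zpow_right k
    set c : H := b * a * b⁻¹ * a⁻¹ with hc
    have hcN : c ∈ N := by
      rw [hN, commutator_eq_closure]
      exact Subgroup.subset_closure ⟨b, a, rfl⟩
    have hca : Commute c a := (hcomm c hcN).symm
    have h1 : c * a = b * a * b⁻¹ := by rw [hc]; group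
    have haq : a ^ q = 1 := by rw [← ha]; exact pow_orderOf_eq_one a
    have h3 : c ^ q = 1 := by
      have h4 : (c * a) ^ q = 1 := by
        rw [h1, conj_pow, haq]
        group
      rw [hca.mul_pow, haq, mul_one] at h4
      exact h4
    have h4 : orderOf c ∣ q := orderOf_dvd_of_pow_eq_one h3
    have h5 : orderOf c ∣ Nat.card N := by
      have := orderOf_dvd_natCard (⟨c, hcN⟩ : N)
      rwa [← Subgroup.orderOf_coe] at this
    have h6 : c = 1 := by
      rcases (Nat.dvd_prime hq).1 h4 with h7 | h7
      · exact orderOf_eq_one_iff.1 h7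
      · rw [h7] at h5
        exact absurd h5 hd
    have h7 : b * a * b⁻¹ * a⁻¹ = 1 := by rw [← hc, h6]
    have h8 : b * a = a * b := by
      rw [mul_inv_eq_one, mul_inv_eq_iff_eq_mul] at h7
      exact h7
    exact h8.symm

end Pool.Agent.MPd299d2
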