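import Mathlib
import Pool.Agent.Lib.MP_d299d2_al.FinReg
import Pool.Agent.Lib.MP_d299d2_al.Fin0
import Pool.Agent.Lib.MP_d299d2_al.FinQ

set_option autoImplicit false

/-!
# Periodic groups without involutions with a finite dimensional regular representation
-/

namespace Pool.Agent.MPd299d2

variable {H K V : Type*} [Group H] [Field K] [AddCommGroup V] [Module K V]
  [FiniteDimensional K V] [Nontrivial V] {φ : H →* Module.End K V}

theorem Reg.finite (hφ : Reg φ) (ht : ∀ h : H, IsOfFinOrder h) {S : Set H} (hS : S.Finite)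
    (hgen : Subgroup.closure S = ⊤) : Finite H := by
  have hn : 0 < Module.finrank K V := Module.finrank_pos
  have hψ := hφ.comp_ringHom
    (LinearMap.toMatrixAlgEquiv (Module.finBasis K V)).toRingEquiv.toRingHom
  obtain ⟨p, hp⟩ := CharP.exists K
  rcases CharP.char_is_prime_or_zero K p with h | h
  · have : Fact p.Prime := ⟨h⟩
    exact finite_of_charP p hn hψ ht hS hgen
  · subst h
    have : CharZero K := CharP.charP_to_charZero K
    obtain ⟨d, hd, ψ, hψ'⟩ := exists_rat hn hψ hS hgen
    exact finite_of_rat hd hψ' ht hS hgen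

/-- Elements of the same prime order commute. -/
theorem Reg.commute (hφ : Reg φ) (ht : ∀ h : H, IsOfFinOrder h) (h2 : ∀ h : H, orderOf h ≠ 2)
    {a b : H} {q : ℕ} (hq : q.Prime) (ha : orderOf a = q) (hb : orderOf b = q) :
    a * b = b * a := by
  obtain ⟨H1, hH1⟩ : ∃ H1 : Subgroup H, H1 = Subgroup.closure {a, b} := ⟨_, rfl⟩
  have haH : a ∈ H1 := by
    rw [hH1]
    exact Subgroup.subset_closure (Set.mem_insert _ _)
  have hbH : b ∈ H1 := by
    rw [hH1]
    exact Subgroup.subset_closure (Set.mem_insert_of_mem _ rfl)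
  have hφ1 := hφ.comp H1.subtype Subtype.val_injective
  have hord : ∀ h : H1, orderOf h = orderOf (h : H) := fun h =>
    (orderOf_injective H1.subtype Subtype.val_injective h).symm
  have ht1 : ∀ h : H1, IsOfFinOrder h := fun h => by
    rw [← orderOf_pos_iff, hord, orderOf_pos_iff]
    exact ht _
  have hfin : Finite H1 := by
    subst hH1
    refine hφ1.finite ht1 (S := ((↑) : Subgroup.closure {a, b} → H) ⁻¹' {a, b}) ?_
      (Subgroup.closure_closure_coe_preimage)
    exact Set.Finite.preimage (Subtype.val_injective.injOn) (Set.toFinite _)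
  have hφ2 := hφ1.comp_ringHom
    (S := Module.End (AlgebraicClosure K) (TensorProduct K (AlgebraicClosure K) V))
    (Module.End.baseChangeHom K (AlgebraicClosure K) V).toRingHom
  have hnt : Nontrivial (TensorProduct K (AlgebraicClosure K) V) := by
    apply Module.nontrivial_of_finrank_pos (R := AlgebraicClosure K)
    rw [Module.finrank_baseChange]
    exact Module.finrank_pos
  have h3 := hφ2.commute_finite (fun h => by rw [hord]; exact h2 _) hq
    (a := ⟨a, haH⟩) (b := ⟨b, hbH⟩) (by rw [hord]; exact ha) (by rw [hord]; exact hb)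
  exact congrArg Subtype.val h3

end Pool.Agent.MPd299d2
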