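import Mathlib
import Pool.Agent.Lib.MP_d299d2_al.Dedekind
import Pool.Agent.Lib.MP_d299d2_al.Central
import Pool.Agent.Lib.MP_d299d2_al.Key

set_option autoImplicit false

/-!
# Semilinear periodic groups of regular automorphisms
-/

namespace Pool.Agent.MPd299d2

open TensorProduct

variable {B M H : Type*} [CommRing B] [AddCommGroup M] [Module B M] [Group H]
  [DistribMulAction H M]

/-- conjugation with `h` changes the action of `b` in `B` into that of some `b'` in `b + P` -/
def Triv (P : Ideal B) (h : H) : Prop :=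
  ∃ σ : B → B, (∀ (b : B) (m : M), h • b • m = σ b • h • m) ∧ ∀ b, σ b - b ∈ P

theorem Triv.one (P : Ideal B) : Triv (M := M) P (1 : H) :=
  ⟨id, fun b m => by simp, fun b => by simp⟩

theorem Triv.mul {P : Ideal B} {g h : H} (hg : Triv (M := M) P g) (hh : Triv (M := M) P h) :
    Triv (M := M) P (g * h) := by
  obtain ⟨σ, h1, h2⟩ := hg
  obtain ⟨τ, h3, h4⟩ := hh
  refine ⟨fun b => σ (τ b), fun b m => ?_, fun b => ?_⟩
  · rw [mul_smul, mul_smul, h3, h1]
  · have h5 : σ (τ b) - b = (σ (τ b) - τ b) + (τ b - b) := by ring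
    rw [h5]
    exact P.add_mem (h2 _) (h4 _)

theorem Triv.pow {P : Ideal B} {g : H} (hg : Triv (M := M) P g) (k : ℕ) :
    Triv (M := M) P (g ^ k) := by
  induction k with
  | zero => rw [pow_zero]; exact Triv.one P
  | succ k ih => rw [pow_succ]; exact ih.mul hg

/-- the representation over the residue field -/
theorem exists_rep (P : Ideal B) [P.IsPrime] (hT : ∀ h : H, Triv (M := M) P h) :
    ∃ φ : H →* Module.End P.ResidueField (P.ResidueField ⊗[B] M),
      ∀ (h : H) (k : P.ResidueField) (m : M), φ h (k ⊗ₜ[B] m) = k ⊗ₜ[B] (h • m) := by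
  choose σ hσ1 hσ2 using hT
  let l : H → M →ₗ[B] (P.ResidueField ⊗[B] M) := fun h =>
    { toFun := fun m => 1 ⊗ₜ[B] (h • m)
      map_add' := fun x y => by rw [smul_add, TensorProduct.tmul_add]
      map_smul' := fun b m => by
        rw [hσ1, TensorProduct.tmul_smul, RingHom.id_apply]
        have h1 : algebraMap B P.ResidueField (σ h b) = algebraMap B P.ResidueField b := by
          rw [← sub_eq_zero, ← map_sub, Ideal.algebraMap_residueField_eq_zero]
          exact hσ2 h b
        rw [← algebraMap_smul P.ResidueField (σ h b), h1, algebraMap_smul] }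
  have hl : ∀ h m, l h m = 1 ⊗ₜ[B] (h • m) := fun h m => rfl
  let f : H → Module.End P.ResidueField (P.ResidueField ⊗[B] M) := fun h =>
    (l h).liftBaseChange P.ResidueField
  have hf : ∀ h k m, f h (k ⊗ₜ[B] m) = k ⊗ₜ[B] (h • m) := fun h k m => by
    show (l h).liftBaseChange P.ResidueField (k ⊗ₜ[B] m) = _
    rw [LinearMap.liftBaseChange_tmul, hl, TensorProduct.smul_tmul', smul_eq_mul, mul_one]
  have hext : ∀ F F' : Module.End P.ResidueField (P.ResidueField ⊗[B] M),
      (∀ k m, F (k ⊗ₜ[B] m) = F' (k ⊗ₜ[B] m)) → F = F' := by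
    intro F F' h
    ext x
    simp [h]
  refine ⟨{ toFun := f, map_one' := hext _ _ fun k m => ?_,
            map_mul' := fun g h => hext _ _ fun k m => ?_ }, hf⟩
  · rw [hf, one_smul, Module.End.one_apply]
  · rw [Module.End.mul_apply, hf, hf, hf, mul_smul]

/-- elements of prime order -/
theorem triv_of_prime (h : PR H M) (P : Ideal B) [P.IsPrime] (hP : Module.annihilator B M ≤ P)
    (hsemi : ∀ (a : H) (b : B), ∃ b' : B, ∀ m : M, a • b • m = b' • a • m)
    {a : H} (ha : (orderOf a).Prime) : Triv (M := M) P a := by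
  choose σ hσ using hsemi
  obtain ⟨i, hi0, hiq, hi⟩ := dedekind (M := M) P hP (orderOf a) ha.pos
    (fun i => DistribSMul.toAddMonoidHom M (a ^ i))
    (fun i b => if i = 0 then b else σ (a ^ i) b) (fun m => by simp) (fun b => by simp)
    (fun i b m => by
      rcases Nat.eq_zero_or_pos i with rfl | h0
      · simp
      · simp only [if_neg h0.ne']
        exact hσ _ _ _)
    (fun m => h.sum_zero ha m)
  have h1 : Triv (M := M) P (a ^ i) := by
    refine ⟨σ (a ^ i), fun b m => hσ _ _ _, fun b => ?_⟩
    have h2 := hi b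
    simp only [if_neg hi0.ne'] at h2
    rw [← neg_sub]
    exact P.neg_mem h2
  obtain ⟨m, hm⟩ := exists_pow_eq_self_of_coprime (x := a) (n := i)
    (Nat.coprime_of_lt_prime hi0.ne' hiq ha).symm
  rw [← hm]
  exact h1.pow m

/-- the order of an element of prime order is not in a minimal prime of the annihilator -/
theorem natCast_notMem (h : PR H M) (P : Ideal B)
    (hP : P ∈ (Module.annihilator B M).minimalPrimes) {a : H} (ha : (orderOf a).Prime) :
    ((orderOf a : ℕ) : B) ∉ P := by
  refine IsSMulRegular.notMem_of_mem_minimalPrimes (M := M) (fun x y hxy => ?_) hP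
  have h1 : orderOf a • (x - y) = 0 := by
    have h2 : ((orderOf a : ℕ) : B) • x = ((orderOf a : ℕ) : B) • y := hxy
    rw [Nat.cast_smul_eq_nsmul, Nat.cast_smul_eq_nsmul] at h2
    rw [smul_sub, h2, sub_self]
  exact sub_eq_zero.mp (h.nsmul_inj ha h1)

/-- Elements of the same prime order commute. -/
theorem commute_of_semilinear [Nontrivial M] [Module.Finite B M] (h : PR H M)
    (h2 : ∀ a : H, orderOf a ≠ 2)
    (hsemi : ∀ (a : H) (b : B), ∃ b' : B, ∀ m : M, a • b • m = b' • a • m)
    {a b : H} {q : ℕ} (hq : q.Prime) (ha : orderOf a = q) (hb : orderOf b = q) :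
    a * b = b * a := by
  have hne : Module.annihilator B M ≠ ⊤ := by
    intro h1
    rw [Module.annihilator_eq_top_iff] at h1
    exact not_subsingleton M h1
  obtain ⟨P, hP⟩ := Ideal.nonempty_minimalPrimes hne
  have hPp : P.IsPrime := hP.isPrime
  have hTa : Triv (M := M) P a := triv_of_prime h P hP.le hsemi (by rw [ha]; exact hq)
  have hTb : Triv (M := M) P b := triv_of_prime h P hP.le hsemi (by rw [hb]; exact hq)
  set N : Subgroup H := Subgroup.closure {a, b} with hN
  have hT : ∀ g : N, Triv (M := M) P g := by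
    rintro ⟨g, hg⟩
    have hg' : Triv (M := M) P g := by
      rw [hN] at hg
      induction hg using Subgroup.closure_induction with
      | mem g hg =>
        rcases hg with rfl | hg
        · exact hTa
        · rw [Set.mem_singleton_iff.mp hg]; exact hTb
      | one => exact Triv.one P
      | mul g g' _ _ h3 h4 => exact h3.mul h4
      | inv g _ h3 =>
        have h4 : g⁻¹ = g ^ (orderOf g - 1) := by
          rw [inv_eq_iff_mul_eq_one, ← pow_succ', Nat.sub_add_cancel (h.per g).orderOf_pos,
            pow_orderOf_eq_one]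
        rw [h4]
        exact h3.pow _
    exact hg'
  obtain ⟨φ, hφ⟩ := exists_rep (H := N) (M := M) P hT
  have hord : ∀ g : N, orderOf ((g : N) : H) = orderOf g := fun g => Subgroup.orderOf_coe g
  have hnt : Nontrivial (P.ResidueField ⊗[B] M) := by
    have h3 := (Module.mem_support_iff_nontrivial_residueField_tensorProduct (M := M)
      (⟨P, hPp⟩ : PrimeSpectrum B)).mp (Module.mem_support_iff_of_finite.mpr hP.le)
    exact h3
  have hR : Reg (R := Module.End P.ResidueField (P.ResidueField ⊗[B] M)) φ := by
    intro g hg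
    have hg' : (orderOf (g : H)).Prime := by rw [hord]; exact hg
    refine ⟨?_, (isUnit_natCast_iff _).mpr ?_⟩
    · ext x
      simp only [AlgebraTensorModule.curry_apply, curry_apply, LinearMap.coe_restrictScalars,
        LinearMap.sum_apply, LinearMap.zero_apply]
      have h3 : ∀ i, (φ g ^ i) ((1 : P.ResidueField) ⊗ₜ[B] x) = 1 ⊗ₜ[B] ((g : H) ^ i • x) := by
        intro i
        rw [← map_pow, hφ]
        rfl
      simp only [h3]
      rw [← TensorProduct.tmul_sum, ← hord, h.sum_zero hg', TensorProduct.tmul_zero]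
    · intro h0
      have h3 : algebraMap B P.ResidueField ((orderOf g : ℕ) : B) = 0 := by
        rw [map_natCast]; exact h0
      rw [Ideal.algebraMap_residueField_eq_zero, ← hord] at h3
      exact natCast_notMem h P hP hg' h3
  have haN : a ∈ N := Subgroup.subset_closure (Set.mem_insert _ _)
  have hbN : b ∈ N := Subgroup.subset_closure (Set.mem_insert_of_mem _ rfl)
  have hfin := Reg.commute hR
    (fun g => orderOf_pos_iff.mp (by rw [← hord]; exact (h.per (g : H)).orderOf_pos))
    (fun g => by rw [← hord]; exact h2 g) (a := ⟨a, haN⟩) (b := ⟨b, hbN⟩) hq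
    (by rw [← hord]; exact ha) (by rw [← hord]; exact hb)
  exact congrArg Subtype.val hfin

end Pool.Agent.MPd299d2
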