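import Mathlib
import Pool.Agent.Lib.MP_d299d2_al.Semi

set_option autoImplicit false

/-!
# Blocks for periodic groups of regular automorphisms
-/

namespace Pool.Agent.MPd299d2

open Pointwise

variable {A G : Type*} [Group A] [AddCommGroup G] [DistribMulAction A G]

/-- Elements of prime order stabilize the blocks. -/
theorem PR.smul_block (h : PR A G) {U : AddSubgroup G} (hU : U ≠ ⊥)
    (hind : sSupIndep (Set.range fun a : A => a • U)) {x : A} (hx : (orderOf x).Prime) :
    x • U = U := by
  by_contra hne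
  obtain ⟨⟨y, hyU⟩, hy0⟩ : ∃ y : U, y ≠ 0 := by
    by_contra hcon
    push Not at hcon
    apply hU
    rw [eq_bot_iff]
    intro z hz
    have := congrArg Subtype.val (hcon ⟨z, hz⟩)
    rw [AddSubgroup.mem_bot]
    exact this
  have hy0' : y ≠ 0 := fun h0 => hy0 (Subtype.ext h0)
  have h1 := h.sum_zero hx y
  -- no power of `x` below the order stabilizes the block
  have h2 : ∀ i, 0 < i → i < orderOf x → x ^ i • U ≠ U := by
    intro i hi0 hiq hi
    have h3 : ∀ m : ℕ, (x ^ i) ^ m • U = U := by
      intro m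
      induction m with
      | zero => rw [pow_zero, one_smul]
      | succ m ih => rw [pow_succ, mul_smul, hi, ih]
    obtain ⟨m, hm⟩ := exists_pow_eq_self_of_coprime (x := x) (n := i)
      (Nat.coprime_of_lt_prime hi0.ne' hiq hx).symm
    have h4 := h3 m
    rw [hm] at h4
    exact hne h4
  rw [Finset.sum_range_eq_add_Ico _ hx.pos, pow_zero, one_smul] at h1
  have h3 : y ∈ sSup (Set.range (fun a : A => a • U) \ {U}) := by
    have h4 : y = -∑ i ∈ Finset.Ico 1 (orderOf x), x ^ i • y := eq_neg_of_add_eq_zero_left h1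
    rw [h4]
    refine neg_mem (sum_mem fun i hi => ?_)
    rw [Finset.mem_Ico] at hi
    have h5 : x ^ i • U ∈ Set.range (fun a : A => a • U) \ {U} :=
      ⟨⟨x ^ i, rfl⟩, h2 i (by omega) hi.2⟩
    exact (le_sSup h5) (AddSubgroup.smul_mem_pointwise_smul y (x ^ i) U hyU)
  have h4 : U ∈ Set.range (fun a : A => a • U) := ⟨1, one_smul A U⟩
  have h5 := hind h4
  rw [disjoint_iff] at h5
  have h6 : y ∈ U ⊓ sSup (Set.range (fun a : A => a • U) \ {U}) := ⟨hyU, h3⟩
  rw [h5, AddSubgroup.mem_bot] at h6
  exact hy0' h6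

end Pool.Agent.MPd299d2
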