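import Mathlib
import Pool.Agent.Lib.MP_d299d2_al.Basic

set_option autoImplicit false

/-!
# Passage to a vector space over an algebraically closed field
-/

namespace Pool.Agent.MPd299d2

universe u w

open TensorProduct in
private theorem Vec_field {D : Type} [CommRing D] [IsDomain D] {G : Type u} [AddCommGroup G]
    [Module D G] (x0 : G) (hx : ∀ r : D, r • x0 = 0 → r = 0) :
    ∃ (Ω : Type) (_ : Field Ω) (_ : IsAlgClosed Ω) (V : Type u) (_ : AddCommGroup V)
      (_ : Module Ω V) (_ : Nontrivial V) (F : Module.End D G →+* Module.End Ω V) (ι : D →+* Ω),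
      Function.Injective ι ∧ ∀ r : D, F (r • 1) = ι r • 1 := by
  let K := FractionRing D
  let Ω := AlgebraicClosure K
  have hfl : Module.Flat D Ω := by
    have : Module.Flat D K := IsLocalization.flat K (nonZeroDivisors D)
    exact Module.Flat.trans D K Ω
  refine ⟨Ω, inferInstance, inferInstance, Ω ⊗[D] G, inferInstance, inferInstance, ?_,
    (Module.End.baseChangeHom D Ω G : Module.End D G →ₐ[D] Module.End Ω (Ω ⊗[D] G)),
    algebraMap D Ω, ?_, ?_⟩
  · have h1 : Function.Injective (LinearMap.toSpanSingleton D G x0) := by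
      rw [injective_iff_map_eq_zero]
      intro r hr
      exact hx r hr
    have h2 : Function.Injective ((LinearMap.toSpanSingleton D G x0).lTensor Ω) :=
      Module.Flat.lTensor_preserves_injective_linearMap _ h1
    have h3 : Nontrivial (Ω ⊗[D] D) := (TensorProduct.rid D Ω).toEquiv.nontrivial
    exact h2.nontrivial
  · have h1 : Function.Injective (algebraMap K Ω) := (algebraMap K Ω).injective
    have h2 : Function.Injective (algebraMap D K) := IsFractionRing.injective D K
    rw [IsScalarTower.algebraMap_eq D K Ω]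
    exact h1.comp h2
  · intro r
    show (Module.End.baseChangeHom D Ω G : Module.End D G →ₐ[D] Module.End Ω (Ω ⊗[D] G))
      (r • 1) = _
    rw [map_smul, map_one, algebraMap_smul]

private theorem Vec_main {R : Type} [CommRing R] [IsNoetherianRing R] {A : Type w} {G : Type u}
    [Group A] [AddCommGroup G] [Nontrivial G] [DistribMulAction A G] [Module R G]
    (hc : ∀ (r : R) (b : A) (g : G), r • b • g = b • r • g) (h : PR A G) (r s : R) :
    ∃ (Ω : Type) (_ : Field Ω) (_ : IsAlgClosed Ω) (V : Type u) (_ : AddCommGroup V)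
      (_ : Module Ω V) (_ : Nontrivial V) (φ : A →* Module.End Ω V) (μ ν : Ω), Reg φ ∧
        ∀ a : A, (∀ g : G, a • a • g = r • a • g + s • g) →
          φ a * φ a = μ • φ a + ν • 1 := by
  obtain ⟨P, hP⟩ := associatedPrimes.nonempty R G
  obtain ⟨hPp, x, hx⟩ := isAssociatedPrime_iff.1 hP
  have hx' : ∀ r : R, r ∈ P ↔ r • x = 0 := by
    intro r
    rw [hx, Submodule.mem_colon_singleton, Submodule.mem_bot]
  let T := Submodule.torsionBySet R G (P : Set R)
  have hxT : x ∈ T := by
    rw [Submodule.mem_torsionBySet_iff]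
    rintro ⟨a, ha⟩
    exact (hx' a).1 ha
  have hT : ∀ (b : A) (g : G), g ∈ T → b • g ∈ T := by
    intro b g hg
    rw [Submodule.mem_torsionBySet_iff] at hg ⊢
    intro a
    rw [hc, hg a, smul_zero]
  let ψ : A →* Module.End (R ⧸ P) T :=
    { toFun := fun b =>
        { toFun := fun g => ⟨b • g.1, hT b g.1 g.2⟩
          map_add' := fun g g' => Subtype.ext (smul_add b g.1 g'.1)
          map_smul' := by
            intro r' g
            obtain ⟨r, rfl⟩ := Ideal.Quotient.mk_surjective r'
            apply Subtype.ext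
            exact (hc r b g.1).symm }
      map_one' := by
        apply LinearMap.ext
        intro g
        exact Subtype.ext (one_smul A g.1)
      map_mul' := by
        intro b b'
        apply LinearMap.ext
        intro g
        exact Subtype.ext (mul_smul b b' g.1) }
  have hψ : ∀ (b : A) (g : T), ((ψ b g : T) : G) = b • (g : G) := fun _ _ => rfl
  obtain ⟨Ω, i1, i2, V, i3, i4, i5, F, ι, hι, hF⟩ := Vec_field (D := R ⧸ P) (G := T) ⟨x, hxT⟩ (by
    intro r' hr
    obtain ⟨r, rfl⟩ := Ideal.Quotient.mk_surjective r'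
    rw [Ideal.Quotient.eq_zero_iff_mem, hx']
    exact congrArg Subtype.val hr)
  refine ⟨Ω, i1, i2, V, i3, i4, i5, (F : Module.End (R ⧸ P) T →* Module.End Ω V).comp ψ,
    ι (Ideal.Quotient.mk P r), ι (Ideal.Quotient.mk P s), ?_, ?_⟩
  · intro a ha
    constructor
    · have h1 : ∑ i ∈ Finset.range (orderOf a), ψ a ^ i = 0 := by
        apply LinearMap.ext
        intro g
        apply Subtype.ext
        have h2 := h.sum_zero ha g.1
        rw [LinearMap.sum_apply, Submodule.coe_sum]
        rw [LinearMap.zero_apply, Submodule.coe_zero]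
        rw [← h2]
        refine Finset.sum_congr rfl fun i _ => ?_
        rw [← map_pow, hψ]
      have h3 := congrArg F h1
      rw [map_sum, map_zero] at h3
      rw [← h3]
      refine Finset.sum_congr rfl fun i _ => ?_
      show (F (ψ a)) ^ i = F (ψ a ^ i)
      rw [map_pow]
    · have h1 : ((orderOf a : ℕ) : Ω) ≠ 0 := by
        intro h2
        rw [← map_natCast ι, ← map_zero ι] at h2
        have h3 := hι h2
        have h4 : Ideal.Quotient.mk P ((orderOf a : ℕ) : R) = 0 := by
          rw [map_natCast]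
          exact h3
        rw [Ideal.Quotient.eq_zero_iff_mem, hx', Nat.cast_smul_eq_nsmul] at h4
        have h5 := h.nsmul_inj ha h4
        rw [h5] at hx
        have h6 : (1 : R) ∈ P := by
          rw [hx, Submodule.mem_colon_singleton, Submodule.mem_bot, smul_zero]
        exact hPp.ne_top ((Ideal.eq_top_iff_one P).2 h6)
      have h2 := (isUnit_iff_ne_zero.2 h1).map (algebraMap Ω (Module.End Ω V))
      rwa [map_natCast] at h2
  · intro a ha
    have h1 : ψ a * ψ a = (Ideal.Quotient.mk P r) • ψ a + (Ideal.Quotient.mk P s) • 1 := by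
      apply LinearMap.ext
      intro g
      apply Subtype.ext
      exact ha g.1
    have h2 : (Ideal.Quotient.mk P r) • ψ a = ((Ideal.Quotient.mk P r) • 1) * ψ a := by
      rw [smul_mul_assoc, one_mul]
    have h3 := congrArg F h1
    rw [h2, map_add, map_mul, map_mul, hF, hF, smul_mul_assoc, one_mul] at h3
    exact h3

open scoped IsMulCommutative in
private theorem Vec_hom {G : Type u} [AddCommGroup G] (u v : AddMonoid.End G)
    (huv : u * v = v * u) :
    ∃ f : MvPolynomial (Fin 2) ℤ →+* AddMonoid.End G, f (MvPolynomial.X 0) = u ∧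
      f (MvPolynomial.X 1) = v ∧ ∀ r, f r ∈ Subring.closure ({u, v} : Set (AddMonoid.End G)) := by
  have hcomm : ∀ x ∈ ({u, v} : Set (AddMonoid.End G)), ∀ y ∈ ({u, v} : Set (AddMonoid.End G)),
      x * y = y * x := by
    rintro x (rfl | rfl) y (rfl | rfl)
    · rfl
    · exact huv
    · exact huv.symm
    · rfl
  have := Subring.isMulCommutative_closure hcomm
  have hu' : u ∈ Subring.closure ({u, v} : Set (AddMonoid.End G)) :=
    Subring.subset_closure (Or.inl rfl)
  have hv' : v ∈ Subring.closure ({u, v} : Set (AddMonoid.End G)) :=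
    Subring.subset_closure (Or.inr rfl)
  let f0 : MvPolynomial (Fin 2) ℤ →+* Subring.closure ({u, v} : Set (AddMonoid.End G)) :=
    MvPolynomial.eval₂Hom (Int.castRingHom _) ![⟨u, hu'⟩, ⟨v, hv'⟩]
  refine ⟨(Subring.closure ({u, v} : Set (AddMonoid.End G))).subtype.comp f0, ?_, ?_,
    fun r => (f0 r).2⟩
  · show ((f0 (MvPolynomial.X 0) : Subring.closure ({u, v} : Set (AddMonoid.End G))) :
      AddMonoid.End G) = u
    rw [MvPolynomial.eval₂Hom_X']
    rfl
  · show ((f0 (MvPolynomial.X 1) : Subring.closure ({u, v} : Set (AddMonoid.End G))) :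
      AddMonoid.End G) = v
    rw [MvPolynomial.eval₂Hom_X']
    rfl

theorem exists_vec {A : Type w} {G : Type u} [Group A] [AddCommGroup G] [Nontrivial G]
    [DistribMulAction A G] (h : PR A G) (u v : G →+ G) (huv : ∀ g, u (v g) = v (u g))
    (hu : ∀ (b : A) (g : G), u (b • g) = b • u g) (hv : ∀ (b : A) (g : G), v (b • g) = b • v g) :
    ∃ (Ω : Type) (_ : Field Ω) (_ : IsAlgClosed Ω) (V : Type u) (_ : AddCommGroup V)
      (_ : Module Ω V) (_ : Nontrivial V) (φ : A →* Module.End Ω V) (μ ν : Ω), Reg φ ∧
        ∀ a : A, (∀ g : G, a • a • g = u (a • g) + v g) → φ a * φ a = μ • φ a + ν • 1 := by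
  obtain ⟨f, hf0, hf1, hf⟩ := Vec_hom (u : AddMonoid.End G) (v : AddMonoid.End G)
    (AddMonoidHom.ext huv)
  have hcen : ∀ (T : AddMonoid.End G),
      T ∈ Subring.closure ({(u : AddMonoid.End G), (v : AddMonoid.End G)} :
        Set (AddMonoid.End G)) → ∀ (b : A) (g : G), T (b • g) = b • T g := by
    intro T hT b
    have h1 : Subring.closure ({(u : AddMonoid.End G), (v : AddMonoid.End G)} :
        Set (AddMonoid.End G)) ≤
        Subring.centralizer {DistribMulAction.toAddMonoidEnd A G b} := by
      rw [Subring.closure_le]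
      rintro x (rfl | rfl) y rfl
      · apply AddMonoidHom.ext
        intro g
        exact (hu b g).symm
      · apply AddMonoidHom.ext
        intro g
        exact (hv b g).symm
    have h2 := h1 hT _ rfl
    intro g
    exact (DFunLike.congr_fun h2 g).symm
  let inst : Module (MvPolynomial (Fin 2) ℤ) G := Module.compHom G f
  obtain ⟨Ω, i1, i2, V, i3, i4, i5, φ, μ, ν, hφ, hq⟩ := Vec_main (R := MvPolynomial (Fin 2) ℤ)
    (fun r b g => hcen (f r) (hf r) b g) h (MvPolynomial.X 0) (MvPolynomial.X 1)
  refine ⟨Ω, i1, i2, V, i3, i4, i5, φ, μ, ν, hφ, fun a ha => hq a fun g => ?_⟩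
  show a • a • g = f (MvPolynomial.X 0) (a • g) + f (MvPolynomial.X 1) g
  rw [hf0, hf1]
  exact ha g

end Pool.Agent.MPd299d2
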