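import Mathlib
import Pool.Agent.Lib.MP_d299d2_al.Central
import Pool.Agent.Lib.MP_d299d2_al.Vec

set_option autoImplicit false

/-!
# Regular representations of finite groups lift to characteristic zero
-/

namespace Pool.Agent.MPd299d2

open MonoidAlgebra

variable {H : Type*} [Group H]

/-- the sum of the powers of `h` -/
noncomputable def nm (k : Type*) [CommRing k] (h : H) : MonoidAlgebra k H :=
  ∑ i ∈ Finset.range (orderOf h), of k H h ^ i

theorem of_mul_nm (k : Type*) [CommRing k] (h : H) : of k H h * nm k h = nm k h := by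
  have h1 := Finset.sum_range_succ' (fun i => of k H h ^ i) (orderOf h)
  rw [Finset.sum_range_succ, pow_zero, ← map_pow, pow_orderOf_eq_one, map_one] at h1
  rw [nm, Finset.mul_sum]
  simp only [← pow_succ']
  exact (add_right_cancel h1).symm

theorem nm_mul_nm (k : Type*) [CommRing k] (h : H) :
    nm k h * nm k h = (orderOf h : MonoidAlgebra k H) * nm k h := by
  have h1 : ∀ i : ℕ, of k H h ^ i * nm k h = nm k h := by
    intro i
    induction i with
    | zero => rw [pow_zero, one_mul]
    | succ i ih => rw [pow_succ, mul_assoc, of_mul_nm, ih]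
  have h2 : nm k h * nm k h = (∑ i ∈ Finset.range (orderOf h), of k H h ^ i) * nm k h := rfl
  rw [h2, Finset.sum_mul, Finset.sum_congr rfl (fun i _ => h1 i), Finset.sum_const,
    Finset.card_range, nsmul_eq_mul]

theorem nm_mul_of (k : Type*) [CommRing k] (h g : H) :
    nm k h * of k H g = of k H g * nm k (g⁻¹ * h * g) := by
  have h1 : orderOf (g⁻¹ * h * g) = orderOf h := by
    have := (MulAut.conj g⁻¹).orderOf_eq h
    rwa [MulAut.conj_apply, inv_inv] at this
  rw [nm, nm, h1, Finset.sum_mul, Finset.mul_sum]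
  refine Finset.sum_congr rfl fun i _ => ?_
  rw [← map_pow, ← map_pow, ← map_mul, ← map_mul]
  congr 1
  have h2 : (g⁻¹ * h * g) ^ i = g⁻¹ * h ^ i * g := by
    have := conj_pow (i := i) (a := g⁻¹) (b := h)
    rwa [inv_inv] at this
  rw [h2]
  group

theorem orderOf_conj' (h g : H) : orderOf (g⁻¹ * h * g) = orderOf h := by
  have := (MulAut.conj g⁻¹).orderOf_eq h
  rwa [MulAut.conj_apply, inv_inv] at this

theorem map_nm {k l : Type*} [CommRing k] [CommRing l] (f : k →+* l) (h : H) :
    mapRingHom H f (nm k h) = nm l h := by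
  rw [nm, nm, map_sum]
  refine Finset.sum_congr rfl fun i _ => ?_
  rw [map_pow]
  congr 1
  rw [of_apply, of_apply, mapRingHom_single, map_one]

/-- extension of a representation to the group ring -/
noncomputable def lft {k R : Type*} [CommRing k] [Ring R] (f : k →+* R) (φ : H →* R)
    (hf : ∀ x y, Commute (f x) (φ y)) : MonoidAlgebra k H →+* R := liftNCRingHom f φ hf

theorem lft_nm {k R : Type*} [CommRing k] [Ring R] (f : k →+* R) {φ : H →* R}
    (hf : ∀ x y, Commute (f x) (φ y)) (hφ : Reg φ) {h : H} (hh : (orderOf h).Prime) :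
    lft f φ hf (nm k h) = 0 := by
  rw [nm, map_sum, ← (hφ h hh).1]
  refine Finset.sum_congr rfl fun i _ => ?_
  rw [map_pow]
  congr 1
  rw [lft, of_apply]
  simp

variable {K V : Type*} [Field K] [AddCommGroup V] [Module K V] [Nontrivial V]
  {φ : H →* Module.End K V}

theorem exists_idem [Finite H] (hφ : Reg φ) (l : ℕ) [Fact l.Prime] [CharP K l] :
    ∃ e : MonoidAlgebra (ZMod l) H, IsIdempotentElem e ∧ e ≠ 0 ∧
      ∀ h : H, (orderOf h).Prime → nm (ZMod l) h * e = 0 := by
  classical
  have hcard : NeZero (Nat.card H : ZMod l) := by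
    refine ⟨fun h0 => ?_⟩
    rw [ZMod.natCast_eq_zero_iff] at h0
    obtain ⟨h, hh⟩ := exists_prime_orderOf_dvd_card' l h0
    have h1 := hφ.natCast_ne (c := h) (by rw [hh]; exact Fact.out)
    rw [hh] at h1
    exact h1 (CharP.cast_eq_zero K l)
  obtain ⟨f, hf⟩ : ∃ f : MonoidAlgebra (ZMod l) H →+* Module.End K V,
      ∀ h : H, (orderOf h).Prime → f (nm (ZMod l) h) = 0 :=
    ⟨lft ((algebraMap K (Module.End K V)).comp (ZMod.castHom dvd_rfl K)) φ
      (fun x y => Algebra.commutes (ZMod.castHom dvd_rfl K x) (φ y)), fun h hh => lft_nm _ _ hφ hh⟩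
  obtain ⟨I, hI⟩ : ∃ I : Ideal (MonoidAlgebra (ZMod l) H),
      I = Ideal.span {x | ∃ h : H, (orderOf h).Prime ∧ x = nm (ZMod l) h} := ⟨_, rfl⟩
  have hIf : ∀ x ∈ I, f x = 0 := by
    intro x hx
    rw [hI] at hx
    have h1 : Ideal.span {x | ∃ h : H, (orderOf h).Prime ∧ x = nm (ZMod l) h} ≤ RingHom.ker f := by
      rw [Ideal.span_le]
      rintro x ⟨h, hh, rfl⟩
      exact hf h hh
    exact h1 hx
  obtain ⟨e, he, hIe⟩ := IsSemisimpleRing.ideal_eq_span_idempotent I
  refine ⟨1 - e, he.one_sub, ?_, ?_⟩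
  · intro h0
    have h1 : (1 : MonoidAlgebra (ZMod l) H) ∈ I := by
      rw [hIe, ← sub_eq_zero.mp h0]
      exact Ideal.mem_span_singleton_self _
    have h2 := hIf 1 h1
    rw [map_one] at h2
    exact one_ne_zero h2
  · intro h hh
    have h1 : nm (ZMod l) h ∈ I := by
      rw [hI]
      exact Ideal.subset_span ⟨h, hh, rfl⟩
    rw [hIe, Ideal.mem_span_singleton'] at h1
    obtain ⟨y, hy⟩ := h1
    rw [← hy, mul_sub, mul_one, mul_assoc, he.eq, sub_self]

section lift

variable [Finite H] (l e : ℕ) [Fact l.Prime] (he : e ≠ 0)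

/-- reduction modulo `l` -/
noncomputable def red : MonoidAlgebra (ZMod (l ^ e)) H →+* MonoidAlgebra (ZMod l) H :=
  mapRingHom H (ZMod.castHom (dvd_pow_self l he) (ZMod l))

omit [Finite H] in
theorem red_coeff (x : MonoidAlgebra (ZMod (l ^ e)) H) (g : H) :
    (red l e he x).coeff g = ZMod.castHom (dvd_pow_self l he) (ZMod l) (x.coeff g) := by
  rw [red, coeff_mapRingHom]

theorem dvd_of_cast (c : ZMod (l ^ e)) (hc : ZMod.castHom (dvd_pow_self l he) (ZMod l) c = 0) :
    ∃ d : ZMod (l ^ e), c = (l : ℕ) • d := by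
  have hne : NeZero (l ^ e) := ⟨pow_ne_zero _ (Fact.out : l.Prime).ne_zero⟩
  obtain ⟨n, rfl⟩ := ZMod.natCast_zmod_surjective c
  rw [map_natCast, ZMod.natCast_eq_zero_iff] at hc
  obtain ⟨k, rfl⟩ := hc
  exact ⟨(k : ZMod (l ^ e)), by rw [Nat.cast_mul, nsmul_eq_mul]⟩

theorem exists_of_red (x : MonoidAlgebra (ZMod (l ^ e)) H) (hx : red l e he x = 0) :
    ∃ y : MonoidAlgebra (ZMod (l ^ e)) H, x = (l : ℕ) • y := by
  classical
  have h1 : ∀ g : H, ∃ d : ZMod (l ^ e), x.coeff g = (l : ℕ) • d := fun g => by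
    apply dvd_of_cast l e he
    rw [← red_coeff l e he, hx]
    rfl
  choose d hd using h1
  refine ⟨ofCoeff (Finsupp.equivFunOnFinite.symm d), ?_⟩
  apply coeff_injective
  ext g
  rw [hd g]
  rfl

omit [Finite H] [Fact l.Prime] in
theorem pow_smul_zero (x : MonoidAlgebra (ZMod (l ^ e)) H) : (l ^ e : ℕ) • x = 0 := by
  rw [← Nat.cast_smul_eq_nsmul (ZMod (l ^ e)), ZMod.natCast_self, zero_smul]

theorem red_nilpotent (x : MonoidAlgebra (ZMod (l ^ e)) H) (hx : red l e he x = 0) :
    IsNilpotent x := by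
  obtain ⟨y, rfl⟩ := exists_of_red l e he x hx
  refine ⟨e, ?_⟩
  rw [smul_pow, pow_smul_zero]

theorem red_surjective : Function.Surjective (red (H := H) l e he) := by
  classical
  intro x
  have h1 : ∀ g : H, ∃ d : ZMod (l ^ e), ZMod.castHom (dvd_pow_self l he) (ZMod l) d = x.coeff g :=
    fun g => ZMod.castHom_surjective _ _
  choose d hd using h1
  refine ⟨ofCoeff (Finsupp.equivFunOnFinite.symm d), ?_⟩
  apply coeff_injective
  ext g
  rw [red_coeff, ← hd g]
  rfl

include he in
theorem exists_idem_lift (hφ : Reg φ) [CharP K l] :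
    ∃ ε : MonoidAlgebra (ZMod (l ^ e)) H, (∀ h : H, (orderOf h).Prime → ∀ x,
      nm (ZMod (l ^ e)) h * x * ε = 0) ∧ ∃ g, ∃ n : ℕ, ¬ l ∣ n ∧ ε.coeff g = n := by
  classical
  obtain ⟨e1, h1, h2, h3⟩ := exists_idem hφ l
  obtain ⟨ε, h4, h5⟩ := exists_isIdempotentElem_eq_of_ker_isNilpotent (red (H := H) l e he)
    (red_nilpotent l e he) e1 (red_surjective l e he e1) h1
  refine ⟨ε, ?_, ?_⟩
  · -- modulo `l`
    have a1 : ∀ h : H, (orderOf h).Prime → ∀ x, red l e he (nm (ZMod (l ^ e)) h * x * ε) = 0 := by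
      intro h hh x
      rw [map_mul, map_mul, h5, red, map_nm]
      generalize (mapRingHom H (ZMod.castHom (dvd_pow_self l he) (ZMod l))) x = y
      induction y using MonoidAlgebra.induction_on with
      | of g =>
        rw [nm_mul_of, mul_assoc, h3 _ (by rw [orderOf_conj']; exact hh), mul_zero]
      | add x y hx hy => rw [mul_add, add_mul, hx, hy, add_zero]
      | smul r x hx => rw [mul_smul_comm, smul_mul_assoc, hx, smul_zero]
    intro h hh
    have hcop : Nat.Coprime (orderOf h) (l ^ e) := by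
      apply Nat.Coprime.pow_right
      rw [Nat.coprime_primes hh Fact.out]
      intro h6
      have h7 := hφ.natCast_ne hh
      rw [h6] at h7
      exact h7 (CharP.cast_eq_zero K l)
    have a2 : ∀ n : ℕ, ∀ x, ∃ y, nm (ZMod (l ^ e)) h * x * ε = (l ^ n : ℕ) • (y * ε) := by
      intro n
      induction n with
      | zero => exact fun x => ⟨nm (ZMod (l ^ e)) h * x, by rw [pow_zero, one_smul]⟩
      | succ n ih =>
        intro x
        obtain ⟨y, hy⟩ := ih x
        obtain ⟨z, hz⟩ := exists_of_red l e he _ (a1 h hh y)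
        have b1 : (orderOf h : ℕ) • (nm (ZMod (l ^ e)) h * x * ε) = (l ^ (n + 1) : ℕ) • (z * ε) := by
          calc (orderOf h : ℕ) • (nm (ZMod (l ^ e)) h * x * ε)
              = nm (ZMod (l ^ e)) h * (nm (ZMod (l ^ e)) h * x * ε) := by
                rw [← mul_assoc, ← mul_assoc, nm_mul_nm, nsmul_eq_mul]
                simp only [mul_assoc]
            _ = (l ^ n : ℕ) • (nm (ZMod (l ^ e)) h * y * ε * ε) := by
                rw [hy, mul_smul_comm, mul_assoc _ ε ε, h4.eq, ← mul_assoc]
            _ = _ := by rw [hz, smul_mul_assoc, smul_smul, pow_succ]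
        refine ⟨((orderOf h : ZMod (l ^ e))⁻¹) • z, ?_⟩
        rw [smul_mul_assoc, smul_comm, ← b1, ← Nat.cast_smul_eq_nsmul (ZMod (l ^ e)), smul_smul,
          mul_comm, ZMod.coe_mul_inv_eq_one _ hcop, one_smul]
    intro x
    obtain ⟨y, hy⟩ := a2 e x
    rw [hy, pow_smul_zero]
  · have b1 : ∃ g, e1.coeff g ≠ 0 := by
      by_contra h
      push Not at h
      exact h2 (coeff_injective (Finsupp.ext h))
    obtain ⟨g, hg⟩ := b1
    rw [← h5, red_coeff] at hg
    have hne : NeZero (l ^ e) := ⟨pow_ne_zero _ (Fact.out : l.Prime).ne_zero⟩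
    obtain ⟨n, hn⟩ := ZMod.natCast_zmod_surjective (ε.coeff g)
    refine ⟨g, n, fun h6 => hg ?_, hn.symm⟩
    rw [← hn, map_natCast, ZMod.natCast_eq_zero_iff]
    exact h6

end lift

/-- the left ideal generated by the elements `nm h * g` -/
noncomputable def nmIdeal (H : Type*) [Group H] : Ideal (MonoidAlgebra ℤ H) :=
  Ideal.span {x | ∃ h g : H, (orderOf h).Prime ∧ x = nm ℤ h * of ℤ H g}

theorem nm_mul_mem {h : H} (hh : (orderOf h).Prime) (x : MonoidAlgebra ℤ H) :
    nm ℤ h * x ∈ nmIdeal H := by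
  induction x using MonoidAlgebra.induction_on with
  | of g => exact Ideal.subset_span ⟨h, g, hh, rfl⟩
  | add x y hx hy => rw [mul_add]; exact add_mem hx hy
  | smul r x hx =>
    rw [mul_smul_comm, zsmul_eq_mul]
    exact Ideal.mul_mem_left _ _ hx

theorem natCast_notMem [Finite H] (hφ : Reg φ) {n : ℕ} (hn : n ≠ 0) :
    (n : MonoidAlgebra ℤ H) ∉ nmIdeal H := by
  intro hmem
  obtain ⟨l, hl⟩ := CharP.exists K
  rcases CharP.char_is_prime_or_zero K l with hp | hp
  · have : Fact l.Prime := ⟨hp⟩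
    obtain ⟨ε, h1, g, c, hc, hg⟩ := exists_idem_lift l n hn hφ
    have h2 : ∀ x ∈ nmIdeal H, mapRingHom H (Int.castRingHom (ZMod (l ^ n))) x * ε = 0 := by
      intro x hx
      induction hx using Submodule.span_induction with
      | mem x hx =>
        obtain ⟨h, g, hh, rfl⟩ := hx
        rw [map_mul, map_nm]
        exact h1 h hh _
      | zero => rw [map_zero, zero_mul]
      | add x y _ _ hx hy => rw [map_add, add_mul, hx, hy, add_zero]
      | smul r x _ hx => rw [smul_eq_mul, map_mul, mul_assoc, hx, mul_zero]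
    have h3 := h2 _ hmem
    rw [map_natCast, ← nsmul_eq_mul] at h3
    have h4 : (n : ZMod (l ^ n)) * ε.coeff g = 0 := by
      have h5 := congrArg (fun x => x.coeff g) h3
      rw [← nsmul_eq_mul]
      exact h5
    rw [hg, ← Nat.cast_mul, ZMod.natCast_eq_zero_iff] at h4
    have h5 : l ^ n ∣ n := Nat.Coprime.dvd_of_dvd_mul_right
      (Nat.Coprime.pow_left n ((Nat.Prime.coprime_iff_not_dvd hp).mpr hc)) h4
    have h6 := Nat.le_of_dvd (Nat.pos_of_ne_zero hn) h5
    exact absurd (Nat.lt_pow_self hp.one_lt) (not_lt.mpr h6)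
  · subst hp
    have : CharZero K := CharP.charP_to_charZero K
    obtain ⟨f, hf⟩ : ∃ f : MonoidAlgebra ℤ H →+* Module.End K V,
        ∀ h : H, (orderOf h).Prime → f (nm ℤ h) = 0 :=
      ⟨lft (Int.castRingHom _) φ (fun x y => Int.cast_commute x (φ y)),
        fun h hh => lft_nm _ _ hφ hh⟩
    have h2 : nmIdeal H ≤ RingHom.ker f := by
      rw [nmIdeal, Ideal.span_le]
      rintro x ⟨h, g, hh, rfl⟩
      show f _ = 0
      rw [map_mul, hf h hh, zero_mul]
    have h3 : f n = 0 := h2 hmem
    rw [map_natCast] at h3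
    obtain ⟨v, hv⟩ := exists_ne (0 : V)
    have h4 : (n : K) • v = 0 := by
      have h5 := congrArg (fun x => x v) h3
      rw [Nat.cast_smul_eq_nsmul]
      simpa using h5
    rcases smul_eq_zero.mp h4 with h5 | h5
    · exact hn (Nat.cast_eq_zero.mp h5)
    · exact hv h5

universe u

open TensorProduct in
/-- passage to an algebraically closed field -/
theorem exists_field {D : Type} [CommRing D] [IsDomain D] {G : Type u} [AddCommGroup G]
    [Module D G] (x0 : G) (hx : ∀ r : D, r • x0 = 0 → r = 0) :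
    ∃ (Ω : Type) (_ : Field Ω) (_ : IsAlgClosed Ω) (V : Type u) (_ : AddCommGroup V)
      (_ : Module Ω V) (_ : Nontrivial V) (_ : Module.End D G →+* Module.End Ω V) (ι : D →+* Ω),
      Function.Injective ι := by
  let K := FractionRing D
  let Ω := AlgebraicClosure K
  have hfl : Module.Flat D Ω := by
    have : Module.Flat D K := IsLocalization.flat K (nonZeroDivisors D)
    exact Module.Flat.trans D K Ω
  refine ⟨Ω, inferInstance, inferInstance, Ω ⊗[D] G, inferInstance, inferInstance, ?_,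
    (Module.End.baseChangeHom D Ω G : Module.End D G →ₐ[D] Module.End Ω (Ω ⊗[D] G)),
    algebraMap D Ω, ?_⟩
  · have h1 : Function.Injective (LinearMap.toSpanSingleton D G x0) := by
      rw [injective_iff_map_eq_zero]
      intro r hr
      exact hx r hr
    have h2 : Function.Injective ((LinearMap.toSpanSingleton D G x0).lTensor Ω) :=
      Module.Flat.lTensor_preserves_injective_linearMap _ h1
    have h3 : Nontrivial (Ω ⊗[D] D) := (TensorProduct.rid D Ω).toEquiv.nontrivial
    exact h2.nontrivial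
  · have h1 : Function.Injective (algebraMap K Ω) := (algebraMap K Ω).injective
    have h2 : Function.Injective (algebraMap D K) := IsFractionRing.injective D K
    rw [IsScalarTower.algebraMap_eq D K Ω]
    exact h1.comp h2

/-- left multiplication on the quotient of the group ring -/
noncomputable def qrep (H : Type*) [Group H] :
    MonoidAlgebra ℤ H →+* Module.End ℤ (MonoidAlgebra ℤ H ⧸ nmIdeal H) :=
  Module.toModuleEnd ℤ (MonoidAlgebra ℤ H ⧸ nmIdeal H)

theorem qrep_nm {h : H} (hh : (orderOf h).Prime) : qrep H (nm ℤ h) = 0 := by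
  apply LinearMap.ext
  intro x
  obtain ⟨y, rfl⟩ := Submodule.Quotient.mk_surjective _ x
  have h1 : qrep H (nm ℤ h) (Submodule.Quotient.mk y) = Submodule.Quotient.mk (nm ℤ h * y) := rfl
  rw [h1, LinearMap.zero_apply, Submodule.Quotient.mk_eq_zero]
  exact nm_mul_mem hh y

/-- **Regular representations of finite groups lift to characteristic zero.** -/
theorem exists_charZero {H : Type u} [Group H] [Finite H] {φ : H →* Module.End K V}
    (hφ : Reg φ) :
    ∃ (Ω : Type) (_ : Field Ω) (_ : IsAlgClosed Ω) (_ : CharZero Ω) (V' : Type u)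
      (_ : AddCommGroup V') (_ : Module Ω V') (_ : Nontrivial V') (ψ : H →* Module.End Ω V'),
      Reg ψ := by
  obtain ⟨Ω, iΩ, iac, V', i1, i2, i3, F, ι, hι⟩ := exists_field (D := ℤ)
    (G := MonoidAlgebra ℤ H ⧸ nmIdeal H) (Submodule.Quotient.mk 1) (by
      intro r hr
      by_contra hr0
      have h1 : (r.natAbs : MonoidAlgebra ℤ H) ∈ nmIdeal H := by
        have h2 : (r : MonoidAlgebra ℤ H) ∈ nmIdeal H := by
          rw [← Submodule.Quotient.mk_eq_zero, ← hr, ← Submodule.Quotient.mk_smul,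
            zsmul_eq_mul, mul_one]
        rcases Int.natAbs_eq r with h3 | h3
        · rw [h3, Int.cast_natCast] at h2
          exact h2
        · rw [h3, Int.cast_neg] at h2
          have h4 := neg_mem h2
          rw [neg_neg, Int.cast_natCast] at h4
          exact h4
      exact natCast_notMem hφ (Int.natAbs_ne_zero.mpr hr0) h1)
  have hchar : CharZero Ω := by
    refine ⟨fun a b hab => ?_⟩
    have h1 : ι a = ι b := by rw [map_natCast, map_natCast, hab]
    exact_mod_cast hι h1
  refine ⟨Ω, iΩ, iac, hchar, V', i1, i2, i3, ((F.comp (qrep H) : MonoidAlgebra ℤ H →+*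
    Module.End Ω V') : MonoidAlgebra ℤ H →* Module.End Ω V').comp (of ℤ H), ?_⟩
  intro h hh
  refine ⟨?_, ?_⟩
  · have h1 := congrArg F (qrep_nm hh)
    rw [map_zero, nm, map_sum, map_sum] at h1
    rw [← h1]
    refine Finset.sum_congr rfl fun i _ => ?_
    rw [map_pow, map_pow]
    rfl
  · rw [isUnit_natCast_iff]
    exact Nat.cast_ne_zero.mpr hh.ne_zero

end Pool.Agent.MPd299d2
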