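import Mathlib

set_option autoImplicit false

/-!
# Units `a`, `b` of a ring such that all products `a b ^ i` are roots of the fifth cyclotomic
polynomial: the block matrix calculus.

`P j` are orthogonal idempotents with sum `1`, indexed by `ZMod m`, with `P 0 = 0`; the family
`A j l = P j a P l` and `B j l = P j a⁻¹ P l` satisfies the equations `eqn`.
-/

namespace Pool.Agent.MPd299d2

/-- The data extracted from `Φ₅ (a b ^ i) = 0` for all `i`. -/
structure Blocks (m : ℕ) [NeZero m] (R : Type*) [Ring R] where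
  P : ZMod m → R
  A : ZMod m → ZMod m → R
  B : ZMod m → ZMod m → R
  P0 : P 0 = 0
  PA : ∀ j l, P j * A j l = A j l
  AP : ∀ j l, A j l * P l = A j l
  PB : ∀ j l, P j * B j l = B j l
  BP : ∀ j l, B j l * P l = B j l
  PP : ∀ j, P j * P j = P j
  PP' : ∀ j l, j ≠ l → P j * P l = 0
  eqn : ∀ j l s, A j (s - l) * A (s - l) l + B j (-s - j) * B (-s - j) l
    + (if s = l then A j l else 0) + (if s = -j then B j l else 0)
    + (if s = 0 then P j * P l else 0) = 0
  AB : ∀ j l, ∑ k, A j k * B k l = P j * P l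
  BA : ∀ j l, ∑ k, B j k * A k l = P j * P l
  sumP : ∑ j, P j = 1

namespace Blocks

variable {m : ℕ} [NeZero m] {R : Type*} [Ring R] (D : Blocks m R)

theorem A0 (l : ZMod m) : D.A 0 l = 0 := by rw [← D.PA, D.P0, zero_mul]
theorem A0' (l : ZMod m) : D.A l 0 = 0 := by rw [← D.AP, D.P0, mul_zero]
theorem B0 (l : ZMod m) : D.B 0 l = 0 := by rw [← D.PB, D.P0, zero_mul]
theorem B0' (l : ZMod m) : D.B l 0 = 0 := by rw [← D.BP, D.P0, mul_zero]

theorem L1 (j : ZMod m) : D.B j (-j) = -D.A j (-j) := by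
  by_cases hj : j = 0
  · subst hj
    rw [D.B0, D.A0, neg_zero]
  have h := D.eqn j (-j) (-j)
  have hj' : -j ≠ 0 := neg_ne_zero.mpr hj
  simp only [sub_self, neg_neg, D.A0', D.B0', zero_mul, zero_add, if_true, if_neg hj',
    add_zero] at h
  rw [eq_neg_iff_add_eq_zero, add_comm]
  exact h

theorem L1' (j : ZMod m) : D.B (-j) j = -D.A (-j) j := by
  have := D.L1 (-j)
  rwa [neg_neg] at this

/-- `j + k + l = 0` -/
theorem L2a {j k l : ZMod m} (h : j + k + l = 0) (hk : k ≠ 0) :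
    D.A j l = -(D.B j k * D.B k l) := by
  have hkk : -l - j = k := by linear_combination -h
  have hlj : l ≠ -j := by
    intro h1
    apply hk
    rw [h1] at h
    linear_combination h
  have h2 := D.eqn j l l
  rw [hkk, if_pos rfl, if_neg hlj, sub_self, D.A0', zero_mul, zero_add, add_zero] at h2
  have h3 : (if l = 0 then D.P j * D.P l else 0) = 0 := by
    split_ifs with h4
    · rw [h4, D.P0, mul_zero]
    · rfl
  rw [h3, add_zero] at h2
  rw [eq_neg_iff_add_eq_zero, add_comm]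
  exact h2

theorem L2b {j k l : ZMod m} (h : j + k + l = 0) (hk : k ≠ 0) :
    D.B j l = -(D.A j k * D.A k l) := by
  have hkk : -j - l = k := by linear_combination -h
  have hlj : -j ≠ l := by
    intro h1
    apply hk
    rw [← h1] at h
    linear_combination h
  have h2 := D.eqn j l (-j)
  rw [hkk, if_neg hlj, if_pos rfl, neg_neg, sub_self, D.B0', zero_mul, add_zero, add_zero] at h2
  have h3 : (if -j = 0 then D.P j * D.P l else 0) = 0 := by
    split_ifs with h4
    · rw [neg_eq_zero.mp h4, D.P0, zero_mul]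
    · rfl
  rw [h3, add_zero] at h2
  rw [eq_neg_iff_add_eq_zero, add_comm]
  exact h2

/-- `2 A_{j,-j} A_{-j,j} = - P_j` -/
theorem L3 (j : ZMod m) : 2 * (D.A j (-j) * D.A (-j) j) = -D.P j := by
  by_cases hj : j = 0
  · subst hj
    rw [D.A0, D.P0, zero_mul, mul_zero, neg_zero]
  have h := D.eqn j j 0
  have hj' : (0 : ZMod m) ≠ -j := fun h1 => hj (neg_eq_zero.mp h1.symm)
  rw [if_neg (Ne.symm hj), if_neg hj', if_pos rfl, zero_sub, neg_zero, zero_sub, D.L1, D.L1',
    add_zero, add_zero, neg_mul_neg, D.PP, ← two_mul] at h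
  exact eq_neg_of_add_eq_zero_left h

/-- `j + p + l + n = 0`, `p, n ≠ 0`, `p ≠ -l` -/
theorem L3' {j p l n : ZMod m} (h : j + p + l + n = 0) (hp : p ≠ 0) (hn : n ≠ 0)
    (hpl : p + l ≠ 0) : D.A j p * D.A p l = -(D.B j n * D.B n l) := by
  have h2 := D.eqn j l (p + l)
  have e1 : p + l - l = p := by ring
  have e2 : -(p + l) - j = n := by linear_combination -h
  have e3 : p + l ≠ l := by
    intro h3
    exact hp (by linear_combination h3)
  have e4 : p + l ≠ -j := by
    intro h3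
    exact hn (by linear_combination h - h3)
  rw [e1, e2, if_neg e3, if_neg e4, if_neg hpl, add_zero, add_zero, add_zero] at h2
  exact eq_neg_of_add_eq_zero_left h2

theorem L3'' {j p l n : ZMod m} (h : j + p + l + n = 0) (hp : p ≠ 0) (hn : n ≠ 0)
    (hjp : j + p ≠ 0) : D.B j p * D.B p l = -(D.A j n * D.A n l) := by
  have h1 := D.L3' (j := j) (p := n) (l := l) (n := p) (by linear_combination h) hn hp (by
    intro h3
    exact hjp (by linear_combination h - h3))
  rw [h1, neg_neg]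

theorem L4 {j l : ZMod m} (h : j + l ≠ 0) : D.A j l * D.B l j * D.A j l = D.A j l := by
  by_cases hj : j = 0
  · rw [hj, D.A0, mul_zero]
  by_cases hl : l = 0
  · rw [hl, D.A0', mul_zero]
  have hk : -j - l ≠ 0 := fun h1 => h (by linear_combination -h1)
  have h1 := D.L2a (j := j) (k := -j - l) (l := l) (by ring) hk
  have h2 := D.L2b (j := j) (k := l) (l := -j - l) (by ring) hl
  have h3 := D.L2b (j := -j - l) (k := j) (l := l) (by ring) hj
  have h4 := D.L2b (j := l) (k := -j - l) (l := j) (by ring) hk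
  rw [h4]
  conv_rhs => rw [h1, h2, h3]
  noncomm_ring

theorem L4' {j l : ZMod m} (h : j + l ≠ 0) : D.B j l * D.A l j * D.B j l = D.B j l := by
  by_cases hj : j = 0
  · rw [hj, D.B0, mul_zero]
  by_cases hl : l = 0
  · rw [hl, D.B0', mul_zero]
  have hk : -j - l ≠ 0 := fun h1 => h (by linear_combination -h1)
  have h1 := D.L2b (j := j) (k := -j - l) (l := l) (by ring) hk
  have h2 := D.L2a (j := j) (k := l) (l := -j - l) (by ring) hl
  have h3 := D.L2a (j := -j - l) (k := j) (l := l) (by ring) hj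
  have h4 := D.L2a (j := l) (k := -j - l) (l := j) (by ring) hk
  rw [h4]
  conv_rhs => rw [h1, h2, h3]
  noncomm_ring

/-- the idempotents -/
def E (j l : ZMod m) : R := D.A j l * D.B l j

theorem L5 {j k l : ZMod m} (h : j + k + l = 0) (hk : k ≠ 0) (hl : l ≠ 0) :
    D.E j l = D.B j k * D.A k j := by
  have h1 := D.L2b (j := j) (k := l) (l := k) (by linear_combination h) hl
  have h2 := D.L2b (j := l) (k := k) (l := j) (by linear_combination h) hk
  rw [E, h1, h2]
  noncomm_ring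

theorem E_idem {j l : ZMod m} (h : j + l ≠ 0) : D.E j l * D.E j l = D.E j l := by
  have h1 := D.L4 h
  calc D.E j l * D.E j l = D.A j l * D.B l j * D.A j l * D.B l j := by
        rw [E]; noncomm_ring
    _ = D.E j l := by rw [h1, E]

theorem PE (j l : ZMod m) : D.P j * D.E j l = D.E j l := by
  rw [E, ← mul_assoc, D.PA]

/-- the idempotents commute -/
theorem E_comm {j l l' : ZMod m} (hl : l ≠ 0) (hl' : l' ≠ 0) (hjl : j + l ≠ 0)
    (hjl' : j + l' ≠ 0) : D.E j l * D.E j l' = D.E j l' * D.E j l := by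
  by_cases hll : l = l'
  · rw [hll]
  by_cases hj : j = 0
  · rw [← D.PE, ← D.PE j l', hj, D.P0]
    simp
  obtain ⟨k, hk⟩ : ∃ k, k = -j - l := ⟨_, rfl⟩
  obtain ⟨k', hk'⟩ : ∃ k', k' = -j - l' := ⟨_, rfl⟩
  obtain ⟨n, hn⟩ : ∃ n, n = l' - l := ⟨_, rfl⟩
  have k0 : k ≠ 0 := fun h1 => hjl (by linear_combination hk - h1)
  have k0' : k' ≠ 0 := fun h1 => hjl' (by linear_combination hk' - h1)
  have n0 : n ≠ 0 := fun h1 => hll (by linear_combination hn - h1)
  -- the first product
  have a1 := D.L3'' (j := l) (p := j) (l := k') (n := n) (by rw [hk', hn]; ring) hj n0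
    (by rwa [add_comm])
  have a2 := D.L3' (j := j) (p := l) (l := n) (n := k') (by rw [hk', hn]; ring) hl k0'
    (fun h1 => hl' (by rw [hn] at h1; linear_combination h1))
  have a3 := D.L3' (j := n) (p := k') (l := j) (n := l) (by rw [hk', hn]; ring) k0' hl
    (fun h1 => hl' (by rw [hk'] at h1; linear_combination -h1))
  have a4 := D.L3' (j := k') (p := j) (l := l) (n := n) (by rw [hk', hn]; ring) hj n0 hjl
  have e1 : D.E j l' = D.B j k' * D.A k' j := D.L5 (by rw [hk']; ring) k0' hl'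
  have f1 : D.E j l * D.E j l' = D.A j l * (D.B l j * D.B j k') * D.A k' j := by
    rw [e1, E]; noncomm_ring
  have f2 : D.E j l' * D.E j l = D.B j k' * (D.A k' j * D.A j l) * D.B l j := by
    rw [e1, E]; noncomm_ring
  rw [f1, f2, a1, a4]
  calc D.A j l * -(D.A l n * D.A n k') * D.A k' j
      = -((D.A j l * D.A l n) * (D.A n k' * D.A k' j)) := by noncomm_ring
    _ = -((D.A j l * D.A l n) * -(D.B n l * D.B l j)) := by rw [a3]
    _ = -((-(D.B j k' * D.B k' n)) * -(D.B n l * D.B l j)) := by rw [a2]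
    _ = D.B j k' * -(D.B k' n * D.B n l) * D.B l j := by noncomm_ring

theorem L7 (j : ZMod m) :
    2 * ∑ l ∈ Finset.univ.filter (fun l => l ≠ 0 ∧ j + l ≠ 0), D.E j l = D.P j := by
  have h1 := D.AB j j
  rw [D.PP] at h1
  have h2 : ∑ k, D.A j k * D.B k j = ∑ l ∈ Finset.univ.filter (fun l => l ≠ 0 ∧ j + l ≠ 0), D.E j l
      + D.A j (-j) * D.B (-j) j := by
    rw [← Finset.sum_filter_add_sum_filter_not Finset.univ (fun l => l ≠ 0 ∧ j + l ≠ 0)]
    congr 1
    rw [Finset.sum_eq_single (-j)]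
    · intro b hb hbj
      have : b = 0 := by
        by_contra h0
        have h3 := (Finset.mem_filter.mp hb).2
        apply h3
        refine ⟨h0, fun h4 => hbj (by linear_combination h4)⟩
      rw [this, D.A0', zero_mul]
    · intro hb
      exfalso
      apply hb
      rw [Finset.mem_filter]
      refine ⟨Finset.mem_univ _, ?_⟩
      rintro ⟨_, h4⟩
      exact h4 (add_neg_cancel j)
  rw [h2, D.L1'] at h1
  have h3 := D.L3 j
  have h4 := congrArg (fun x => 2 * x) h1
  simp only [mul_add, mul_neg] at h4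
  rw [h3, neg_neg, two_mul (D.P j)] at h4
  exact add_right_cancel h4

/-- transport of the idempotents -/
theorem L10 {j l p : ZMod m} (hp : p ≠ 0) (hl : l ≠ 0) (hj : j ≠ 0) (hpl : p ≠ l)
    (hjp : j + p ≠ 0) (hjl : j + l ≠ 0) :
    D.E j p * D.A j l = D.A j l * D.E l (p - l) := by
  obtain ⟨q, hq⟩ : ∃ q, q = -j - p := ⟨_, rfl⟩
  obtain ⟨r, hr⟩ : ∃ r, r = p - l := ⟨_, rfl⟩
  have q0 : q ≠ 0 := fun h => hjp (by linear_combination hq - h)
  have r0 : r ≠ 0 := fun h => hpl (by linear_combination h - hr)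
  have e1 : D.E j p = D.B j q * D.A q j := D.L5 (by rw [hq]; ring) q0 hp
  have a1 := D.L3' (j := q) (p := j) (l := l) (n := r) (by rw [hq, hr]; ring) hj r0 hjl
  have a2 := D.L3' (j := j) (p := l) (l := r) (n := q) (by rw [hq, hr]; ring) hl q0
    (fun h => hp (by rw [hr] at h; linear_combination h))
  rw [← hr, e1, E]
  calc D.B j q * D.A q j * D.A j l = D.B j q * (D.A q j * D.A j l) := by noncomm_ring
    _ = -(D.B j q * D.B q r) * D.B r l := by rw [a1]; noncomm_ring
    _ = D.A j l * (D.A l r * D.B r l) := by rw [← a2]; noncomm_ring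

/-- `∑ B_{lp} A_{pl'} = 0` without the terms `p = -l`, `p = -l'` -/
theorem L8 {l l' : ZMod m} (hl : l ≠ 0) (hl' : l' ≠ 0) (hll : l ≠ l') :
    ∑ p ∈ Finset.univ.filter (fun p => p ≠ 0 ∧ p ≠ -l ∧ p ≠ -l'), D.B l p * D.A p l' = 0 := by
  have h1 := D.BA l l'
  rw [D.PP' l l' hll, ← Finset.sum_filter_add_sum_filter_not Finset.univ
    (fun p => p ≠ 0 ∧ p ≠ -l ∧ p ≠ -l')] at h1
  have h2 : ∑ p ∈ Finset.univ.filter (fun p => ¬(p ≠ 0 ∧ p ≠ -l ∧ p ≠ -l')),
      D.B l p * D.A p l' = 0 := by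
    have h3 : ∑ p ∈ Finset.univ.filter (fun p => ¬(p ≠ 0 ∧ p ≠ -l ∧ p ≠ -l')),
      D.B l p * D.A p l' = ∑ p ∈ ({-l, -l'} : Finset (ZMod m)), D.B l p * D.A p l' := by
      symm
      apply Finset.sum_subset
      · intro p hp
        rw [Finset.mem_insert, Finset.mem_singleton] at hp
        rw [Finset.mem_filter]
        refine ⟨Finset.mem_univ _, ?_⟩
        rintro ⟨_, h5, h6⟩
        rcases hp with h | h
        · exact h5 h
        · exact h6 h
      · intro p hp hp'
        rw [Finset.mem_insert, Finset.mem_singleton, not_or] at hp'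
        have : p = 0 := by
          by_contra h0
          exact (Finset.mem_filter.mp hp).2 ⟨h0, hp'.1, hp'.2⟩
        rw [this, D.B0', zero_mul]
    rw [h3, Finset.sum_pair (fun h => hll (neg_injective h)), D.L1]
    have h4 := D.L3' (j := l) (p := -l) (l := l') (n := -l') (by ring) (neg_ne_zero.mpr hl)
      (neg_ne_zero.mpr hl') (fun h => hll (by linear_combination -h))
    rw [D.L1' l'] at h4
    have h5 : D.A l (-l) * D.A (-l) l' = D.B l (-l') * D.A (-l') l' := by
      rw [h4, mul_neg, neg_neg]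
    rw [neg_mul, h5]
    exact neg_add_cancel _
  rwa [h2, add_zero] at h1

theorem L9 {j l l' l'' : ZMod m} (hj : j ≠ 0) (hl : l ≠ 0) (hl' : l' ≠ 0) (hl'' : l'' ≠ 0)
    (hjl : j + l ≠ 0) (hjl'' : j + l'' ≠ 0) (h1 : l ≠ l') (h2 : l'' ≠ l)
    (hf : Finset.univ.filter (fun p : ZMod m => p ≠ 0 ∧ p ≠ -l ∧ p ≠ -l') = {j, -l''}) :
    D.E j l'' * (D.E j l * D.E j l') = D.E j l * D.E j l' := by
  have a1 := D.L8 hl hl' h1
  rw [hf, Finset.sum_pair (fun h => hjl'' (by rw [h]; ring))] at a1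
  have a2 : D.B l j * D.A j l' = -(D.B l (-l'') * D.A (-l'') l') := eq_neg_of_add_eq_zero_left a1
  have a3 := D.L10 (j := j) (l := l) (p := l'') hl'' hl hj h2 hjl'' hjl
  have a4 : D.E l (l'' - l) = D.B l (-l'') * D.A (-l'') l :=
    D.L5 (by ring) (neg_ne_zero.mpr hl'') (sub_ne_zero.mpr h2)
  have a5 := D.L4' (j := l) (l := -l'') (fun h => h2 (by linear_combination -h))
  have b1 : D.E j l * D.E j l' = -(D.A j l * (D.B l (-l'') * D.A (-l'') l') * D.B l' j) := by
    calc D.E j l * D.E j l' = D.A j l * (D.B l j * D.A j l') * D.B l' j := by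
          rw [E, E]; noncomm_ring
      _ = _ := by rw [a2]; noncomm_ring
  rw [b1]
  calc D.E j l'' * -(D.A j l * (D.B l (-l'') * D.A (-l'') l') * D.B l' j)
      = -((D.E j l'' * D.A j l) * (D.B l (-l'') * D.A (-l'') l') * D.B l' j) := by noncomm_ring
    _ = -(D.A j l * (D.B l (-l'') * D.A (-l'') l * D.B l (-l'')) * D.A (-l'') l' * D.B l' j) := by
        rw [a3, a4]; noncomm_ring
    _ = _ := by rw [a5]; noncomm_ring

end Blocks

/-- a simultaneous eigenvector of commuting idempotents -/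
theorem exists_eigen {ι R : Type*} [Ring R] (e : ι → R) (p : R) (hp : p ≠ 0) (hpp : p * p = p)
    (S : Finset ι) (hc : ∀ i ∈ S, ∀ k ∈ S, e i * e k = e k * e i)
    (he : ∀ i ∈ S, e i * e i = e i) (hpe : ∀ i ∈ S, p * e i = e i) :
    ∃ v : R, v ≠ 0 ∧ p * v = v ∧ ∀ i ∈ S, e i * v = v ∨ e i * v = 0 := by
  classical
  induction S using Finset.induction_on with
  | empty => exact ⟨p, hp, hpp, by simp⟩
  | insert i S hi ih =>
    obtain ⟨v, hv, hpv, h⟩ := ih (fun i hi k hk => hc i (Finset.mem_insert_of_mem hi) k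
      (Finset.mem_insert_of_mem hk)) (fun i hi => he i (Finset.mem_insert_of_mem hi))
      (fun i hi => hpe i (Finset.mem_insert_of_mem hi))
    by_cases h0 : e i * v = 0
    · refine ⟨v, hv, hpv, ?_⟩
      intro k hk
      rcases Finset.mem_insert.mp hk with h1 | h1
      · rw [h1]
        exact Or.inr h0
      · exact h k h1
    · refine ⟨e i * v, h0, by rw [← mul_assoc, hpe i (Finset.mem_insert_self _ _)], ?_⟩
      intro k hk
      rcases Finset.mem_insert.mp hk with h1 | h1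
      · rw [h1, ← mul_assoc, he i (Finset.mem_insert_self _ _)]
        exact Or.inl rfl
      · have h2 := hc k hk i (Finset.mem_insert_self _ _)
        rcases h k h1 with h3 | h3
        · left
          rw [← mul_assoc, h2, mul_assoc, h3]
        · right
          rw [← mul_assoc, h2, mul_assoc, h3, mul_zero]

namespace Blocks

variable {m : ℕ} [NeZero m] {K R : Type*} [Field K] [Ring R] [Algebra K R] [Nontrivial R]

theorem exists_k (D : Blocks m R) : ∃ j : ZMod m, j ≠ 0 ∧ ∃ v : R, v ≠ 0 ∧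
    ∃ T : Finset (ZMod m), (∀ l, l ∈ T ↔ (l ≠ 0 ∧ j + l ≠ 0) ∧ D.E j l * v = v) ∧
      2 * (T.card : K) = 1 := by
  classical
  have h1 : ∃ j, D.P j ≠ 0 := by
    by_contra h
    push Not at h
    have := D.sumP
    rw [Finset.sum_eq_zero (fun j _ => h j)] at this
    exact zero_ne_one this
  obtain ⟨j, hj⟩ := h1
  have hj0 : j ≠ 0 := by
    rintro rfl
    exact hj D.P0
  obtain ⟨v, hv, hpv, h⟩ := exists_eigen (fun l => D.E j l) (D.P j) hj (D.PP j)
    (Finset.univ.filter (fun l : ZMod m => l ≠ 0 ∧ j + l ≠ 0))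
    (fun i hi k hk => by
      have h1 := (Finset.mem_filter.mp hi).2
      have h2 := (Finset.mem_filter.mp hk).2
      exact D.E_comm h1.1 h2.1 h1.2 h2.2)
    (fun i hi => D.E_idem (Finset.mem_filter.mp hi).2.2)
    (fun i hi => D.PE j i)
  refine ⟨j, hj0, v, hv, Finset.univ.filter
    (fun l : ZMod m => (l ≠ 0 ∧ j + l ≠ 0) ∧ D.E j l * v = v), ?_, ?_⟩
  · intro l
    rw [Finset.mem_filter]
    simp
  have h2 := congrArg (fun x => x * v) (D.L7 j)
  simp only [mul_assoc, Finset.sum_mul, hpv] at h2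
  have h3 : ∑ l ∈ Finset.univ.filter (fun l : ZMod m => l ≠ 0 ∧ j + l ≠ 0), D.E j l * v
      = ((Finset.univ.filter (fun l : ZMod m => (l ≠ 0 ∧ j + l ≠ 0) ∧ D.E j l * v = v)).card : K)
        • v := by
    rw [← Finset.sum_filter_add_sum_filter_not
      (Finset.univ.filter (fun l : ZMod m => l ≠ 0 ∧ j + l ≠ 0)) (fun l => D.E j l * v = v)]
    rw [Finset.sum_eq_zero (s := Finset.filter (fun l => ¬ D.E j l * v = v) _), add_zero,
      Finset.sum_congr rfl (g := fun _ => v), Finset.sum_const, Finset.filter_filter,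
      ← Nat.cast_smul_eq_nsmul K]
    · intro l hl
      exact (Finset.mem_filter.mp hl).2
    · intro l hl
      have h4 := Finset.mem_filter.mp hl
      exact (h l h4.1).resolve_left h4.2
  rw [h3] at h2
  have h4 : (2 * ((Finset.univ.filter
      (fun l : ZMod m => (l ≠ 0 ∧ j + l ≠ 0) ∧ D.E j l * v = v)).card : K) - 1) • v = 0 := by
    rw [sub_smul, one_smul, mul_smul, sub_eq_zero, two_smul, ← two_mul]
    exact h2
  rcases smul_eq_zero.mp h4 with h5 | h5
  · exact sub_eq_zero.mp h5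
  · exact absurd h5 hv

theorem card_le {j : ZMod m} (hj : j ≠ 0) {T : Finset (ZMod m)}
    (hT : ∀ l ∈ T, l ≠ 0 ∧ j + l ≠ 0) : T.card + 2 ≤ m := by
  classical
  have h3 : T ⊆ (Finset.univ.erase 0).erase (-j) := by
    intro l hl
    have h4 := hT l hl
    rw [Finset.mem_erase, Finset.mem_erase]
    exact ⟨fun h5 => h4.2 (by rw [h5]; ring), h4.1, Finset.mem_univ _⟩
  have h5 := Finset.card_le_card h3
  rw [Finset.card_erase_of_mem (by
    rw [Finset.mem_erase]
    exact ⟨neg_ne_zero.mpr hj, Finset.mem_univ _⟩), Finset.card_erase_of_mem (Finset.mem_univ _),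
    Finset.card_univ, ZMod.card] at h5
  have h6 : 2 ≤ m := by
    by_contra h7
    have h8 : m = 1 := by
      have := NeZero.ne m
      omega
    subst h8
    exact hj (Subsingleton.elim _ _)
  omega

variable (K) in
theorem false_of_char (D : Blocks m R) (h : ∀ k : ℕ, k + 2 ≤ m → (2 * k : K) ≠ 1) : False := by
  obtain ⟨j, hj, v, _, T, hT, h2⟩ := D.exists_k (K := K)
  exact h _ (card_le hj (fun l hl => ((hT l).mp hl).1)) h2

end Blocks

theorem filter_five : ∀ j l l' l'' : ZMod 5, (j ≠ 0 ∧ l ≠ 0 ∧ l' ≠ 0 ∧ l'' ≠ 0 ∧ j + l ≠ 0 ∧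
    j + l' ≠ 0 ∧ j + l'' ≠ 0 ∧ l ≠ l' ∧ l'' ≠ l ∧ l'' ≠ l') →
    Finset.univ.filter (fun p : ZMod 5 => p ≠ 0 ∧ p ≠ -l ∧ p ≠ -l') = {j, -l''} := by
  decide

theorem exists_third : ∀ j l l' : ZMod 5, (j ≠ 0 ∧ l ≠ 0 ∧ l' ≠ 0 ∧ j + l ≠ 0 ∧
    j + l' ≠ 0 ∧ l ≠ l') → ∃ l'' : ZMod 5, l'' ≠ 0 ∧ j + l'' ≠ 0 ∧ l'' ≠ l ∧ l'' ≠ l' := by
  decide

theorem Blocks.false_five (K : Type*) {R : Type*} [Field K] [Ring R] [Algebra K R] [Nontrivial R]
    (D : Blocks 5 R) (h5 : (5 : K) ≠ 0) : False := by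
  classical
  obtain ⟨j, hj, v, _, T, hmem, h2⟩ := D.exists_k (K := K)
  have hcard : T.card + 2 ≤ 5 := Blocks.card_le hj (fun l hl => ((hmem l).mp hl).1)
  have hne2 : T.card ≠ 2 := by
    intro h3
    obtain ⟨l, l', hll, hTl⟩ := Finset.card_eq_two.mp h3
    have m1 := (hmem l).mp (by rw [hTl]; simp)
    have m2 := (hmem l').mp (by rw [hTl]; simp)
    obtain ⟨l'', n1, n2, n3, n4⟩ := exists_third j l l' ⟨hj, m1.1.1, m2.1.1, m1.1.2, m2.1.2, hll⟩
    have hL := D.L9 hj m1.1.1 m2.1.1 n1 m1.1.2 n2 hll n3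
      (filter_five j l l' l'' ⟨hj, m1.1.1, m2.1.1, n1, m1.1.2, m2.1.2, n2, hll, n3, n4⟩)
    have h6 : D.E j l * D.E j l' * v = v := by rw [mul_assoc, m2.2, m1.2]
    have h7 : D.E j l'' * v = v := by
      calc D.E j l'' * v = D.E j l'' * (D.E j l * D.E j l' * v) := by rw [h6]
        _ = D.E j l'' * (D.E j l * D.E j l') * v := by noncomm_ring
        _ = v := by rw [hL, h6]
    have h8 : l'' ∈ T := (hmem l'').mpr ⟨⟨n1, n2⟩, h7⟩
    rw [hTl, Finset.mem_insert, Finset.mem_singleton] at h8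
    rcases h8 with h8 | h8
    · exact n3 h8
    · exact n4 h8
  have h9 : T.card = 0 ∨ T.card = 1 ∨ T.card = 3 := by omega
  rcases h9 with h9 | h9 | h9
  · rw [h9] at h2
    simp at h2
  · rw [h9] at h2
    have h10 : (1 : K) = 0 := by linear_combination h2
    exact one_ne_zero h10
  · rw [h9] at h2
    apply h5
    linear_combination h2

end Pool.Agent.MPd299d2
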