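import Mathlib
import Pool.Agent.Lib.MP_d299d2_al.FiveRing

set_option autoImplicit false

/-!
# Construction of the block matrices
-/

namespace Pool.Agent.MPd299d2

variable {m : ℕ} [NeZero m] {K R : Type*} [Field K] [Ring R] [Algebra K R]

/-- the spectral projections of a unit `b` of order dividing `m`; `β i = b ^ i` -/
noncomputable def proj (ψ : AddChar (ZMod m) K) (β : ZMod m → R) (j : ZMod m) : R :=
  (m : K)⁻¹ • ∑ i, ψ (-(i * j)) • β i

theorem psi_sum {ψ : AddChar (ZMod m) K} (hψ : ψ.IsPrimitive) (b : ZMod m) :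
    ∑ x, ψ (x * b) = if b = 0 then (m : K) else 0 := by
  rw [AddChar.sum_mulShift b hψ, ZMod.card]
  split_ifs <;> simp

/-- Fourier inversion -/
theorem inversion {ψ : AddChar (ZMod m) K} (hψ : ψ.IsPrimitive) (F : ZMod m → R) (s : ZMod m) :
    ∑ i, ψ (-(i * s)) • ∑ q, ψ (i * q) • F q = (m : K) • F s := by
  have h1 : ∀ i : ZMod m, ψ (-(i * s)) • ∑ q, ψ (i * q) • F q
      = ∑ q, ψ (i * (q - s)) • F q := by
    intro i
    rw [Finset.smul_sum]
    refine Finset.sum_congr rfl (fun q _ => ?_)
    rw [smul_smul, ← AddChar.map_add_eq_mul]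
    congr 2
    ring
  simp only [h1]
  rw [Finset.sum_comm]
  simp only [← Finset.sum_smul, psi_sum hψ]
  rw [Finset.sum_eq_single s]
  · simp
  · intro q _ hq
    rw [if_neg (sub_ne_zero.mpr hq), zero_smul]
  · intro h
    exact absurd (Finset.mem_univ s) h

theorem eq_zero_of_fourier {ψ : AddChar (ZMod m) K} (hψ : ψ.IsPrimitive) (hm : (m : K) ≠ 0)
    (F : ZMod m → R) (h : ∀ i, ∑ q, ψ (i * q) • F q = 0) (s : ZMod m) : F s = 0 := by
  have h1 := inversion hψ F s
  simp only [h, smul_zero, Finset.sum_const_zero] at h1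
  rcases smul_eq_zero.mp h1.symm with h2 | h2
  · exact absurd h2 hm
  · exact h2

section proj

variable {ψ : AddChar (ZMod m) K} (hψ : ψ.IsPrimitive) (hm : (m : K) ≠ 0) {β : ZMod m → R}
  (hβ : ∀ i j, β (i + j) = β i * β j) (hβ0 : β 0 = 1)

include hψ hm in
theorem beta_eq (i : ZMod m) : β i = ∑ j, ψ (i * j) • proj ψ β j := by
  have h1 : ∀ j, ψ (i * j) • proj ψ β j = (m : K)⁻¹ • (ψ (i * j) • ∑ k, ψ (-(k * j)) • β k) := by
    intro j
    rw [proj, smul_comm]
  simp only [h1, ← Finset.smul_sum]
  have h2 : ∑ j, ψ (i * j) • ∑ k, ψ (-(k * j)) • β k = (m : K) • β i := by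
    have h3 := inversion hψ (fun k => β (-k)) (-i)
    rw [neg_neg] at h3
    rw [← h3]
    refine Finset.sum_congr rfl (fun j _ => ?_)
    congr 1
    · congr 1
      ring
    · rw [← Equiv.sum_comp (Equiv.neg (ZMod m))]
      refine Finset.sum_congr rfl (fun k _ => ?_)
      simp only [Equiv.neg_apply]
      congr 2
      ring
  rw [h2, smul_smul, inv_mul_cancel₀ hm, one_smul]

include hβ in
theorem beta_mul_proj (i j : ZMod m) : β i * proj ψ β j = ψ (i * j) • proj ψ β j := by
  rw [proj, mul_smul_comm, Finset.mul_sum, smul_comm]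
  congr 1
  rw [Finset.smul_sum, ← Equiv.sum_comp (Equiv.addLeft i)
    (fun k => ψ (i * j) • ψ (-(k * j)) • β k)]
  refine Finset.sum_congr rfl (fun k _ => ?_)
  simp only [Equiv.coe_addLeft]
  rw [mul_smul_comm, hβ, smul_smul, ← AddChar.map_add_eq_mul]
  congr 2
  ring

include hβ in
theorem proj_mul_beta (i j : ZMod m) : proj ψ β j * β i = ψ (i * j) • proj ψ β j := by
  rw [← beta_mul_proj hβ, proj, mul_smul_comm, smul_mul_assoc, Finset.mul_sum, Finset.sum_mul]
  congr 1
  refine Finset.sum_congr rfl (fun k _ => ?_)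
  rw [smul_mul_assoc, mul_smul_comm, ← hβ, ← hβ, add_comm]

include hψ hm hβ in
theorem proj_mul_proj (j l : ZMod m) :
    proj ψ β j * proj ψ β l = if j = l then proj ψ β l else 0 := by
  conv_lhs => rw [proj]
  rw [smul_mul_assoc, Finset.sum_mul]
  have h1 : ∀ i : ZMod m, ψ (-(i * j)) • β i * proj ψ β l = ψ (i * (l - j)) • proj ψ β l := by
    intro i
    rw [smul_mul_assoc, beta_mul_proj hβ, smul_smul, ← AddChar.map_add_eq_mul]
    congr 2
    ring
  simp only [h1, ← Finset.sum_smul, psi_sum hψ]
  by_cases h : j = l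
  · rw [if_pos h, if_pos (by rw [h, sub_self]), smul_smul, inv_mul_cancel₀ hm, one_smul]
  · rw [if_neg h, if_neg (sub_ne_zero.mpr (Ne.symm h)), zero_smul, smul_zero]

include hψ hm hβ0 in
theorem sum_proj : ∑ j, proj ψ β j = 1 := by
  have := beta_eq hψ hm (β := β) 0
  simp only [zero_mul, AddChar.map_zero_eq_one, one_smul] at this
  rw [← this, hβ0]

theorem proj_zero (hsum : ∑ i, β i = 0) : proj ψ β 0 = 0 := by
  rw [proj]
  simp only [mul_zero, neg_zero, AddChar.map_zero_eq_one, one_smul, hsum, smul_zero]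

/-- the block matrices of `a` and `a⁻¹` -/
noncomputable def mkBlocks (hsum : ∑ i, β i = 0) (a a' : R) (haa : a * a' = 1) (haa' : a' * a = 1)
    (hr : ∀ i, a * β i * a * β i + a * β i + 1 + β (-i) * a' + β (-i) * a' * β (-i) * a' = 0) :
    Blocks m R where
  P := proj ψ β
  A j l := proj ψ β j * a * proj ψ β l
  B j l := proj ψ β j * a' * proj ψ β l
  P0 := proj_zero hsum
  PA j l := by
    rw [← mul_assoc, ← mul_assoc, proj_mul_proj hψ hm hβ, if_pos rfl]
  AP j l := by
    rw [mul_assoc, proj_mul_proj hψ hm hβ, if_pos rfl]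
  PB j l := by
    rw [← mul_assoc, ← mul_assoc, proj_mul_proj hψ hm hβ, if_pos rfl]
  BP j l := by
    rw [mul_assoc, proj_mul_proj hψ hm hβ, if_pos rfl]
  PP j := by rw [proj_mul_proj hψ hm hβ, if_pos rfl]
  PP' j l h := by rw [proj_mul_proj hψ hm hβ, if_neg h]
  eqn j l s := by
    revert s
    refine eq_zero_of_fourier hψ hm _ (fun i => ?_)
    have h1 := congrArg (fun x => proj ψ β j * x * proj ψ β l) (hr i)
    simp only [mul_zero, zero_mul] at h1
    have hpp : ∀ j : ZMod m, proj ψ β j * proj ψ β j = proj ψ β j := fun j => by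
      rw [proj_mul_proj hψ hm hβ, if_pos rfl]
    have t1 : proj ψ β j * (a * β i * a * β i) * proj ψ β l
        = ∑ q, ψ (i * q) • ((proj ψ β j * a * proj ψ β (q - l)) *
          (proj ψ β (q - l) * a * proj ψ β l)) := by
      rw [← Equiv.sum_comp (Equiv.addRight l) (fun q => ψ (i * q) •
        ((proj ψ β j * a * proj ψ β (q - l)) * (proj ψ β (q - l) * a * proj ψ β l)))]
      simp only [Equiv.coe_addRight, add_sub_cancel_right]
      calc proj ψ β j * (a * β i * a * β i) * proj ψ β l
          = proj ψ β j * a * β i * a * (β i * proj ψ β l) := by noncomm_ring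
        _ = ψ (i * l) • (proj ψ β j * a * β i * a * proj ψ β l) := by
          rw [beta_mul_proj hβ, mul_smul_comm]
        _ = ψ (i * l) • (proj ψ β j * a * (∑ p, ψ (i * p) • proj ψ β p) * a * proj ψ β l) := by
          rw [← beta_eq hψ hm]
        _ = _ := by
          rw [Finset.mul_sum, Finset.sum_mul, Finset.sum_mul, Finset.smul_sum]
          refine Finset.sum_congr rfl (fun p _ => ?_)
          rw [mul_smul_comm, smul_mul_assoc, smul_mul_assoc, smul_smul, ← AddChar.map_add_eq_mul]
          congr 1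
          · congr 1
            ring
          · conv_lhs => rw [← hpp p]
            noncomm_ring
    have t2 : proj ψ β j * (β (-i) * a' * β (-i) * a') * proj ψ β l
        = ∑ q, ψ (i * q) • ((proj ψ β j * a' * proj ψ β (-q - j)) *
          (proj ψ β (-q - j) * a' * proj ψ β l)) := by
      rw [← Equiv.sum_comp ((Equiv.neg (ZMod m)).trans (Equiv.subRight j)) (fun q => ψ (i * q) •
        ((proj ψ β j * a' * proj ψ β (-q - j)) * (proj ψ β (-q - j) * a' * proj ψ β l)))]
      have hs : ∀ p : ZMod m, -(-p - j) - j = p := fun p => by ring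
      simp only [Equiv.trans_apply, Equiv.neg_apply, Equiv.subRight_apply, hs]
      calc proj ψ β j * (β (-i) * a' * β (-i) * a') * proj ψ β l
          = (proj ψ β j * β (-i)) * a' * β (-i) * a' * proj ψ β l := by noncomm_ring
        _ = ψ (-i * j) • (proj ψ β j * a' * β (-i) * a' * proj ψ β l) := by
          rw [proj_mul_beta hβ]
          simp only [smul_mul_assoc]
        _ = ψ (-i * j) • (proj ψ β j * a' * (∑ p, ψ (-i * p) • proj ψ β p) * a' *
            proj ψ β l) := by
          rw [← beta_eq hψ hm]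
        _ = _ := by
          rw [Finset.mul_sum, Finset.sum_mul, Finset.sum_mul, Finset.smul_sum]
          refine Finset.sum_congr rfl (fun p _ => ?_)
          rw [mul_smul_comm, smul_mul_assoc, smul_mul_assoc, smul_smul, ← AddChar.map_add_eq_mul]
          congr 1
          · congr 1
            ring
          · conv_lhs => rw [← hpp p]
            noncomm_ring
    have t3 : proj ψ β j * (a * β i) * proj ψ β l
        = ∑ q, ψ (i * q) • (if q = l then proj ψ β j * a * proj ψ β l else 0) := by
      rw [Finset.sum_eq_single l (fun q _ hq => by rw [if_neg hq, smul_zero])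
        (fun h => absurd (Finset.mem_univ _) h), if_pos rfl]
      calc proj ψ β j * (a * β i) * proj ψ β l = proj ψ β j * a * (β i * proj ψ β l) := by
            noncomm_ring
        _ = _ := by rw [beta_mul_proj hβ, mul_smul_comm]
    have t4 : proj ψ β j * (β (-i) * a') * proj ψ β l
        = ∑ q, ψ (i * q) • (if q = -j then proj ψ β j * a' * proj ψ β l else 0) := by
      rw [Finset.sum_eq_single (-j) (fun q _ hq => by rw [if_neg hq, smul_zero])
        (fun h => absurd (Finset.mem_univ _) h), if_pos rfl]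
      calc proj ψ β j * (β (-i) * a') * proj ψ β l = (proj ψ β j * β (-i)) * a' * proj ψ β l := by
            noncomm_ring
        _ = _ := by
          rw [proj_mul_beta hβ, smul_mul_assoc, smul_mul_assoc]
          congr 2
          ring
    have t5 : proj ψ β j * 1 * proj ψ β l
        = ∑ q, ψ (i * q) • (if q = 0 then proj ψ β j * proj ψ β l else 0) := by
      rw [Finset.sum_eq_single 0 (fun q _ hq => by rw [if_neg hq, smul_zero])
        (fun h => absurd (Finset.mem_univ _) h), if_pos rfl, mul_zero,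
        AddChar.map_zero_eq_one, one_smul, mul_one]
    simp only [smul_add, Finset.sum_add_distrib]
    rw [← t1, ← t2, ← t3, ← t4, ← t5]
    refine Eq.trans ?_ h1
    noncomm_ring
  AB j l := by
    have h1 : ∀ k : ZMod m, proj ψ β j * a * proj ψ β k * (proj ψ β k * a' * proj ψ β l)
        = proj ψ β j * a * proj ψ β k * (a' * proj ψ β l) := by
      intro k
      have h2 : proj ψ β k * proj ψ β k = proj ψ β k := by
        rw [proj_mul_proj hψ hm hβ, if_pos rfl]
      conv_rhs => rw [← h2]
      noncomm_ring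
    simp only [h1]
    rw [← Finset.sum_mul, ← Finset.mul_sum, sum_proj hψ hm hβ0, mul_one]
    calc proj ψ β j * a * (a' * proj ψ β l) = proj ψ β j * (a * a') * proj ψ β l := by
          noncomm_ring
      _ = _ := by rw [haa, mul_one]
  BA j l := by
    have h1 : ∀ k : ZMod m, proj ψ β j * a' * proj ψ β k * (proj ψ β k * a * proj ψ β l)
        = proj ψ β j * a' * proj ψ β k * (a * proj ψ β l) := by
      intro k
      have h2 : proj ψ β k * proj ψ β k = proj ψ β k := by
        rw [proj_mul_proj hψ hm hβ, if_pos rfl]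
      conv_rhs => rw [← h2]
      noncomm_ring
    simp only [h1]
    rw [← Finset.sum_mul, ← Finset.mul_sum, sum_proj hψ hm hβ0, mul_one]
    calc proj ψ β j * a' * (a * proj ψ β l) = proj ψ β j * (a' * a) * proj ψ β l := by
          noncomm_ring
      _ = _ := by rw [haa', mul_one]
  sumP := sum_proj hψ hm hβ0

end proj

end Pool.Agent.MPd299d2
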