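import Mathlib
import Pool.Agent.Lib.MP_d299d2_al.FiveRing

set_option autoImplicit false

/-!
# The walk calculus

The block `a x y z = A (z - y) (y - x)` is thought of as a step from the ordered pair `(x, y)` to
the ordered pair `(y, z)`.
-/

namespace Pool.Agent.MPd299d2

namespace Blocks

variable {m : ℕ} [NeZero m] {R : Type*} [Ring R] (D : Blocks m R)

theorem Ls {j l : ZMod m} (h : j ≠ l) : D.A j (-l) * D.A (-l) l = D.A j (-j) * D.B (-j) l := by
  have h1 := D.eqn j l 0
  have e1 : (if (0 : ZMod m) = l then D.A j l else 0) = 0 := by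
    split_ifs with h2
    · rw [← h2, D.A0']
    · rfl
  have e2 : (if (0 : ZMod m) = -j then D.B j l else 0) = 0 := by
    split_ifs with h2
    · rw [neg_eq_zero.mp h2.symm, D.B0]
    · rfl
  rw [e1, e2, if_pos rfl, D.PP' j l h, zero_sub, neg_zero, zero_sub, D.L1, add_zero, add_zero,
    add_zero] at h1
  rw [eq_neg_of_add_eq_zero_left h1]
  noncomm_ring

theorem Bs {p l : ZMod m} (h : p ≠ l) : D.B p (-l) * D.A (-l) l = D.A p (-p) * D.A (-p) l := by
  by_cases hp : p = 0
  · rw [hp, D.B0, D.A0, zero_mul, zero_mul]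
  by_cases hl : l = 0
  · rw [hl, D.A0', D.A0', mul_zero, mul_zero]
  have h1 := D.L3' (j := p) (p := -p) (l := l) (n := -l) (by ring) (neg_ne_zero.mpr hp)
    (neg_ne_zero.mpr hl) (fun h1 => h (by linear_combination -h1))
  rw [h1, D.L1' l]
  noncomm_ring

/-- `B` in terms of `A` -/
theorem Bt {j l : ZMod m} (h : j + l ≠ 0) :
    D.B j l = -(2 * (D.A j (-j) * D.A (-j) (-l) * D.A (-l) l)) := by
  have h1 := D.Ls (j := -j) (l := l) (fun h1 => h (by rw [← h1]; ring))
  have h2 := D.L3 j
  rw [neg_neg] at h1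
  have h3 : 2 * (D.A j (-j) * (D.A (-j) (-l) * D.A (-l) l)) = -D.B j l := by
    rw [h1]
    calc 2 * (D.A j (-j) * (D.A (-j) j * D.B j l)) = (2 * (D.A j (-j) * D.A (-j) j)) * D.B j l := by
          noncomm_ring
      _ = -D.B j l := by rw [h2, neg_mul, D.PB]
  rw [mul_assoc, h3, neg_neg]

theorem T10 {j l : ZMod m} (hjl : j ≠ l) (hl : l ≠ 0) :
    D.E j (-l) * D.A j (-j) = D.A j (-j) * D.E (-j) (j - l) := by
  have h1 := D.Bs (p := -l) (l := -j) (fun h => hjl (neg_injective h).symm)
  rw [neg_neg, neg_neg] at h1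
  have h2 := D.Ls hjl
  have h3 := D.L5 (j := -j) (k := l) (l := j - l) (by ring) hl (sub_ne_zero.mpr hjl)
  rw [h3, E, mul_assoc, h1, ← mul_assoc, h2, mul_assoc]

/-- one step of a walk -/
def a (x y z : ZMod m) : R := D.A (z - y) (y - x)

/-- the idempotent at the pair `(x, y)` which belongs to the point `z` -/
def ep (x y z : ZMod m) : R := D.E (y - x) (x - z)

theorem Pa (x y z : ZMod m) : D.P (z - y) * D.a x y z = D.a x y z := D.PA _ _

theorem aP (x y z : ZMod m) : D.a x y z * D.P (y - x) = D.a x y z := D.AP _ _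

theorem epP (x y z : ZMod m) : D.ep x y z * D.P (y - x) = D.ep x y z := by
  rw [ep, E, mul_assoc, D.BP]

theorem Pep (x y z : ZMod m) : D.P (y - x) * D.ep x y z = D.ep x y z := D.PE _ _

theorem tau2 (x y : ZMod m) : 2 * (D.a y x y * D.a x y x) = -D.P (y - x) := by
  have h := D.L3 (y - x)
  rw [neg_sub] at h
  exact h

theorem walkH {x y z : ZMod m} (hyz : y ≠ z) :
    D.a y z x * D.a x y z = 2 * (D.a x z x * D.a y x z * D.a x y x) := by
  have h1 := D.L2b (j := x - z) (k := z - y) (l := y - x) (by ring) (sub_ne_zero.mpr hyz.symm)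
  have h2 := D.Bt (j := x - z) (l := y - x) (fun h => hyz (by linear_combination h))
  rw [neg_sub, neg_sub] at h2
  have h3 : -(D.A (x - z) (z - y) * D.A (z - y) (y - x)) =
    -(2 * (D.A (x - z) (z - x) * D.A (z - x) (x - y) * D.A (x - y) (y - x))) := by
    rw [← h1, h2]
  exact neg_injective h3

theorem walkQ {x y z w : ZMod m} (hyz : y ≠ z) (hxz : x ≠ z) (hyw : y ≠ w) (hxw : x ≠ w) :
    D.a y z w * D.a x y z = 2 * (D.a w z w * D.a x w z * D.a y x w * D.a x y x) := by
  have h1 := D.L3' (j := w - z) (p := z - y) (l := y - x) (n := x - w) (by ring)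
    (sub_ne_zero.mpr hyz.symm) (sub_ne_zero.mpr hxw) (fun h => hxz (by linear_combination -h))
  have h2 := D.Bt (j := w - z) (l := x - w) (fun h => hxz (by linear_combination h))
  have h3 := D.Bt (j := x - w) (l := y - x) (fun h => hyw (by linear_combination h))
  rw [neg_sub, neg_sub] at h2 h3
  have h4 := D.tau2 x w
  have h5 := D.Pa y x w
  calc D.a y z w * D.a x y z = -(D.B (w - z) (x - w) * D.B (x - w) (y - x)) := h1
    _ = -(2 * (D.a w z w * D.a x w z * (2 * (D.a w x w * D.a x w x)) * D.a y x w *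
        D.a x y x)) := by
      rw [h2, h3]
      simp only [a]
      noncomm_ring
    _ = 2 * (D.a w z w * D.a x w z * (D.P (w - x) * D.a y x w) * D.a x y x) := by
      rw [h4]
      noncomm_ring
    _ = _ := by rw [h5]

theorem walkI {x y w : ZMod m} (hxy : x ≠ y) (hyw : y ≠ w) :
    D.a y x w * D.a x y x * D.a w x y = D.ep x w y * D.a w x w := by
  have hne : w - x ≠ y - x := fun h => hyw (by linear_combination -h)
  have h1 := D.Ls hne
  have h2 := D.T10 hne (sub_ne_zero.mpr hxy.symm)
  have h3 := D.L5 (j := -(w - x)) (k := y - x) (l := (w - x) - (y - x)) (by ring)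
    (sub_ne_zero.mpr hxy.symm) (sub_ne_zero.mpr hne)
  rw [h3] at h2
  have e1 : -(w - x) = x - w := by ring
  have e2 : -(y - x) = x - y := by ring
  rw [e1, e2] at h1 h2
  show D.A (w - x) (x - y) * D.A (x - y) (y - x) * D.A (y - x) (x - w) =
    D.E (w - x) (x - y) * D.A (w - x) (x - w)
  rw [h1, h2, mul_assoc]

theorem absorb_right {x y z : ZMod m} (hxz : x ≠ z) (hyz : y ≠ z) :
    D.a x y z * D.ep x y z = D.a x y z := by
  have h1 := D.L5 (j := y - x) (k := z - y) (l := x - z) (by ring) (sub_ne_zero.mpr hyz.symm)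
    (sub_ne_zero.mpr hxz)
  have h2 := D.L4 (j := z - y) (l := y - x) (fun h => hxz (by linear_combination -h))
  rw [ep, h1, a, ← mul_assoc]
  exact h2

theorem absorb_left {x y z : ZMod m} (hxz : x ≠ z) :
    D.ep y z x * D.a x y z = D.a x y z := by
  have h2 := D.L4 (j := z - y) (l := y - x) (fun h => hxz (by linear_combination -h))
  exact h2

theorem transport {x y z w : ZMod m} (hxy : x ≠ y) (hxz : x ≠ z) (hyz : y ≠ z) (hxw : x ≠ w)
    (hyw : y ≠ w) (hzw : z ≠ w) : D.ep y z w * D.a x y z = D.a x y z * D.ep x y w := by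
  have h1 := D.L10 (j := z - y) (l := y - x) (p := y - w) (sub_ne_zero.mpr hyw)
    (sub_ne_zero.mpr hxy.symm) (sub_ne_zero.mpr hyz.symm)
    (fun h => hxw (by linear_combination h)) (fun h => hzw (by linear_combination h))
    (fun h => hxz (by linear_combination -h))
  have e : y - w - (y - x) = x - w := by ring
  rw [e] at h1
  exact h1

theorem transport_tau {x y w : ZMod m} (hxw : x ≠ w) (hyw : y ≠ w) :
    D.ep y x w * D.a x y x = D.a x y x * D.ep x y w := by
  have hne : x - y ≠ w - y := fun h => hxw (by linear_combination h)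
  have h2 := D.T10 hne (sub_ne_zero.mpr hyw.symm)
  have e1 : -(x - y) = y - x := by ring
  have e2 : -(w - y) = y - w := by ring
  have e3 : x - y - (w - y) = x - w := by ring
  rw [e1, e2, e3] at h2
  exact h2

theorem walkcc {x y z : ZMod m} (hxz : x ≠ z) (hyz : y ≠ z) :
    2 * (D.a z x y * D.a x z x * (D.a y x z * D.a x y x)) = - D.ep x y z := by
  have h1 := D.walkI (x := x) (y := z) (w := y) hxz hyz.symm
  calc 2 * (D.a z x y * D.a x z x * (D.a y x z * D.a x y x))
      = 2 * ((D.a z x y * D.a x z x * D.a y x z) * D.a x y x) := by noncomm_ring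
    _ = D.ep x y z * (2 * (D.a y x y * D.a x y x)) := by rw [h1]; noncomm_ring
    _ = - D.ep x y z := by rw [D.tau2, mul_neg, D.epP]

theorem walk4 (x y z w : ZMod m) :
    4 * (D.a y z w * D.a z y z * (D.a y z y * (D.a x y z * D.a y x y * D.a x y x))) =
      D.a y z w * D.a x y z := by
  have h1 := D.tau2 y z
  have h2 := D.tau2 x y
  calc 4 * (D.a y z w * D.a z y z * (D.a y z y * (D.a x y z * D.a y x y * D.a x y x)))
      = D.a y z w * (2 * (D.a z y z * D.a y z y)) * D.a x y z *
          (2 * (D.a y x y * D.a x y x)) := by noncomm_ring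
    _ = D.a y z w * (D.P (z - y) * D.a x y z * D.P (y - x)) := by
        rw [h1, h2]
        noncomm_ring
    _ = _ := by rw [D.Pa, D.aP]

theorem walk5 (x y z w : ZMod m) :
    2 * (D.a w z w * (D.a x w z * D.a w x w * (D.a x w x * (D.a y x w * D.a x y x)))) =
      - (D.a w z w * D.a x w z * D.a y x w * D.a x y x) := by
  have h1 := D.tau2 x w
  calc 2 * (D.a w z w * (D.a x w z * D.a w x w * (D.a x w x * (D.a y x w * D.a x y x))))
      = D.a w z w * D.a x w z * (2 * (D.a w x w * D.a x w x)) * D.a y x w * D.a x y x := by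
        noncomm_ring
    _ = - (D.a w z w * D.a x w z * (D.P (w - x) * D.a y x w) * D.a x y x) := by
        rw [h1]
        noncomm_ring
    _ = _ := by rw [D.Pa]

theorem walk3 (x y z : ZMod m) :
    2 * (D.a x y z * D.a y x y * D.a x y x) = - D.a x y z := by
  have h1 := D.tau2 x y
  calc 2 * (D.a x y z * D.a y x y * D.a x y x) = D.a x y z * (2 * (D.a y x y * D.a x y x)) := by
        noncomm_ring
    _ = - (D.a x y z * D.P (y - x)) := by rw [h1]; noncomm_ring
    _ = _ := by rw [D.aP]

end Blocks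

end Pool.Agent.MPd299d2
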