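import Mathlib

set_option autoImplicit false

/-!
# Rotation systems

Abstract form of the relations between the blocks of `a`: the subspaces `VV x y` are permuted by
linear maps `T x y` (exchange of the two points) and `c x y z` (rotation about `x` from `y`
to `z`). We derive the relations of the loops `F x y z w`; they are those of the transpositions
in a spin representation of the symmetric group.
-/

namespace Pool.Agent.MPd299d2

/-- a rotation system -/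
structure Rot (K V S : Type*) [Field K] [AddCommGroup V] [Module K V] where
  VV : S → S → Submodule K V
  T : S → S → Module.End K V
  c : S → S → S → Module.End K V
  T_mem : ∀ {x y : S} {v : V}, x ≠ y → v ∈ VV x y → T x y v ∈ VV y x
  c_mem : ∀ {x y z : S} {v : V}, x ≠ y → x ≠ z → y ≠ z → v ∈ VV x y → c x y z v ∈ VV x z
  TT : ∀ {x y : S} {v : V}, x ≠ y → v ∈ VV x y → T y x (T x y v) = v
  cc : ∀ {x y z : S} {v : V}, x ≠ y → x ≠ z → y ≠ z → v ∈ VV x y → c x z y (c x y z v) = v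
  H : ∀ {x y z : S} {v : V}, x ≠ y → x ≠ z → y ≠ z → v ∈ VV x y →
    c z y x (T y z (c y x z (T x y v))) = - T x z (c x y z v)
  anti : ∀ {x y z w : S} {v : V}, x ≠ y → x ≠ z → x ≠ w → y ≠ z → y ≠ w → z ≠ w → v ∈ VV x y →
    c z y w (T y z (c y x z (T x y v))) = - T w z (c w x z (T x w (c x y w v)))

namespace Rot

variable {K V S : Type*} [Field K] [AddCommGroup V] [Module K V] (D : Rot K V S)

/-- rotation about the second point -/
def cb (y x z : S) (v : V) : V := D.T y z (D.c y x z (D.T x y v))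

/-- loops -/
def F (x y z w : S) : Module.End K V := D.c x w y * D.c x z w * D.c x y z

theorem F_apply (x y z w : S) (v : V) :
    D.F x y z w v = D.c x w y (D.c x z w (D.c x y z v)) := rfl

theorem cb_mem {x y z : S} {v : V} (hxy : x ≠ y) (hxz : x ≠ z) (hyz : y ≠ z) (hv : v ∈ D.VV x y) :
    D.cb y x z v ∈ D.VV z y :=
  D.T_mem hyz (D.c_mem hxy.symm hyz hxz (D.T_mem hxy hv))

theorem F_mem {x y z w : S} {v : V} (hxy : x ≠ y) (hxz : x ≠ z) (hxw : x ≠ w) (hyz : y ≠ z)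
    (hyw : y ≠ w) (hzw : z ≠ w) (hv : v ∈ D.VV x y) : D.F x y z w v ∈ D.VV x y :=
  D.c_mem hxw hxy hyw.symm (D.c_mem hxz hxw hzw (D.c_mem hxy hxz hyz hv))

theorem H' {x y z : S} {v : V} (hxy : x ≠ y) (hxz : x ≠ z) (hyz : y ≠ z) (hv : v ∈ D.VV x y) :
    D.c z y x (D.cb y x z v) = - D.T x z (D.c x y z v) := D.H hxy hxz hyz hv

theorem anti' {x y z w : S} {v : V} (hxy : x ≠ y) (hxz : x ≠ z) (hxw : x ≠ w) (hyz : y ≠ z)
    (hyw : y ≠ w) (hzw : z ≠ w) (hv : v ∈ D.VV x y) :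
    D.c z y w (D.cb y x z v) = - D.cb w x z (D.c x y w v) := D.anti hxy hxz hxw hyz hyw hzw hv

theorem low {x y w : S} {v : V} (hxy : x ≠ y) (hxw : x ≠ w) (hyw : y ≠ w) (hv : v ∈ D.VV x y) :
    D.cb w x y (D.c x y w v) = - D.c y x w (D.T x y v) := by
  have m1 := D.c_mem hxy hxw hyw hv
  have m2 := D.cb_mem hxw hxy hyw.symm m1
  have m3 := D.T_mem hxw m1
  have m4 := D.c_mem hxw.symm hyw.symm hxy m3
  have h1 := D.H hyw hxy.symm hxw.symm m2
  have e1 : D.T y w (D.cb w x y (D.c x y w v)) = D.c w x y (D.T x w (D.c x y w v)) :=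
    D.TT hyw.symm m4
  rw [e1, D.cc hxw.symm hyw.symm hxy m3, D.TT hxw m1, D.cc hxy hxw hyw hv] at h1
  have m5 := D.c_mem hyw hxy.symm hxw.symm m2
  have h2 := congrArg (D.T x y) h1
  rw [map_neg, D.TT hxy.symm m5] at h2
  rw [h2, map_neg, D.cc hyw hxy.symm hxw.symm m2, neg_neg]

theorem star {x y z w : S} {u : V} (hxy : x ≠ y) (hxz : x ≠ z) (hxw : x ≠ w) (hyz : y ≠ z)
    (hyw : y ≠ w) (hzw : z ≠ w) (hu : u ∈ D.VV x y) :
    D.c z y w (D.c z x y (D.T x z (D.c x y z u))) =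
      - D.c z x w (D.T x z (D.c x w z (D.c x y w u))) := by
  have m1 := D.cb_mem hxy hxz hyz hu
  have m2 := D.c_mem hxy hxw hyw hu
  have m3 := D.cb_mem hxw hxz hzw.symm m2
  have h1 := D.H' hxy hxz hyz hu
  have h2 := D.H' hxw hxz hzw.symm m2
  have h3 := D.anti' hxy hxz hxw hyz hyw hzw hu
  have e1 : D.T x z (D.c x y z u) = - D.c z y x (D.cb y x z u) := by rw [h1, neg_neg]
  have e2 : D.T x z (D.c x w z (D.c x y w u)) = - D.c z w x (D.cb w x z (D.c x y w u)) := by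
    rw [h2, neg_neg]
  rw [e1, e2, map_neg, map_neg, map_neg, D.cc hyz.symm hxz.symm hxy.symm m1,
    D.cc hzw hxz.symm hxw.symm m3, h3, neg_neg]

/-- `T F = - F T` -/
theorem TF {x y z w : S} {v : V} (hxy : x ≠ y) (hxz : x ≠ z) (hxw : x ≠ w) (hyz : y ≠ z)
    (hyw : y ≠ w) (hzw : z ≠ w) (hv : v ∈ D.VV x z) :
    D.F z x y w (D.T x z v) = - D.T x z (D.F x z y w v) := by
  have m1 := D.c_mem hxz hxy hyz.symm hv
  have m2 := D.c_mem hxy hxw hyw m1
  have m3 := D.c_mem hxw hxz hzw.symm m2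
  have m4 := D.T_mem hxz m3
  have h1 := D.star hxy hxz hxw hyz hyw hzw m1
  rw [D.cc hxz hxy hyz.symm hv] at h1
  rw [F_apply, h1, map_neg, D.cc hxz.symm hzw hxw m4, F_apply]

theorem TFT {x y z w : S} {v : V} (hxy : x ≠ y) (hxz : x ≠ z) (hxw : x ≠ w) (hyz : y ≠ z)
    (hyw : y ≠ w) (hzw : z ≠ w) (hv : v ∈ D.VV z x) :
    D.T x z (D.F x z y w (D.T z x v)) = - D.F z x y w v := by
  have h1 := D.TF hxy hxz hxw hyz hyw hzw (D.T_mem hxz.symm hv)
  rw [D.TT hxz.symm hv] at h1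
  rw [h1, neg_neg]

/-- `F x y z w = - F x y w z` -/
theorem Fswap {x y z w : S} {v : V} (hxy : x ≠ y) (hxz : x ≠ z) (hxw : x ≠ w) (hyz : y ≠ z)
    (hyw : y ≠ w) (hzw : z ≠ w) (hv : v ∈ D.VV z x) :
    D.F z x y w v = - D.F z x w y v := by
  have h1 := D.TFT hxy hxz hxw hyz hyw hzw hv
  obtain ⟨s, hs⟩ : ∃ s, s = D.c z x w v := ⟨_, rfl⟩
  have ms : s ∈ D.VV z w := by
    rw [hs]
    exact D.c_mem hxz.symm hzw hxw hv
  have mu0 := D.T_mem hxz.symm hv
  have mu1 := D.c_mem hxz hxy hyz.symm mu0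
  have mu1' := D.c_mem hxy hxw hyw mu1
  have e1 := D.H' hxy hxw hyw mu1
  have e2 := D.anti' hxz hxw hxy hzw hyz.symm hyw.symm mu0
  have e3 : D.cb z x w (D.T z x v) = D.T z w s := by
    rw [cb, D.TT hxz.symm hv, hs]
  rw [e3] at e2
  -- `u2 = cb y x w u1`
  have e4 : D.cb y x w (D.c x z y (D.T z x v)) = - D.c w z y (D.T z w s) := by
    rw [e2, neg_neg]
  have mTs := D.T_mem hzw ms
  have e5 : D.c x y w (D.c x z y (D.T z x v)) = D.T w x (D.c w y x (D.c w z y (D.T z w s))) := by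
    have h2 := congrArg (D.T w x) e1
    rw [map_neg, D.TT hxw mu1', e4, map_neg, map_neg] at h2
    exact neg_injective h2.symm
  have m6 := D.c_mem hzw.symm hyw.symm hyz.symm mTs
  have m7 := D.c_mem hyw.symm hxw.symm hxy.symm m6
  have e6 := D.low hxw.symm hzw.symm hxz m7
  have m8 := D.c_mem hxw.symm hzw.symm hxz m7
  have e7 : D.T x z (D.cb z w x (D.c w x z (D.c w y x (D.c w z y (D.T z w s))))) =
      - D.c z w x (D.F z w y x s) := by
    have m9 := D.T_mem hzw.symm m8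
    have m10 := D.c_mem hzw hxz.symm hxw.symm m9
    rw [cb, D.TT hxz.symm m10]
    have h3 := D.TFT hyw.symm hzw.symm hxw.symm hyz hxy.symm hxz.symm ms
    rw [F_apply] at h3
    rw [h3, map_neg]
  have m11 := D.c_mem hzw hyz.symm hyw.symm ms
  have m12 := D.c_mem hyz.symm hxz.symm hxy.symm m11
  have e8 : D.c z w x (D.F z w y x s) = D.F z x w y v := by
    rw [F_apply, D.cc hxz.symm hzw hxw m12, F_apply, hs]
  rw [← neg_neg (D.F z x y w v), ← h1]
  have e9 : D.c x w z (D.T w x (D.c w y x (D.c w z y (D.T z w s)))) =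
      - D.cb z w x (D.c w x z (D.c w y x (D.c w z y (D.T z w s)))) := by
    rw [e6, neg_neg]
  have e10 : D.F x z y w (D.T z x v) = - D.cb z w x (D.c w x z (D.c w y x (D.c w z y
      (D.T z w s)))) := by
    rw [F_apply, e5, e9]
  rw [e10, map_neg, e7, neg_neg, e8]

/-- rotations about `y` anticommute with the rotations about `x` -/
theorem cbF {x y y' z w : S} {v : V} (hxy : x ≠ y) (hxy' : x ≠ y') (hxz : x ≠ z) (hxw : x ≠ w)
    (hyy' : y ≠ y') (hyz : y ≠ z) (hyw : y ≠ w) (hy'z : y' ≠ z) (hy'w : y' ≠ w) (hzw : z ≠ w)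
    (hv : v ∈ D.VV y x) :
    D.cb x y y' (D.F y x z w v) = - D.F y' x z w (D.cb x y y' v) := by
  have m1 := D.c_mem hxy.symm hyz hxz hv
  have m2 := D.c_mem hyz hyw hzw m1
  have e1 := D.anti' hyw hyy' hxy.symm hy'w.symm hxw.symm hxy'.symm m2
  have e2 := D.anti' hyz hyy' hyw hy'z.symm hzw hy'w m1
  have e3 := D.anti' hxy.symm hyy' hyz hxy' hxz hy'z hv
  have e1' : D.cb x y y' (D.c y w x (D.c y z w (D.c y x z v)))
      = - D.c y' w x (D.cb w y y' (D.c y z w (D.c y x z v))) := by rw [e1, neg_neg]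
  have e2' : D.cb w y y' (D.c y z w (D.c y x z v)) = - D.c y' z w (D.cb z y y' (D.c y x z v)) := by
    rw [e2, neg_neg]
  have e3' : D.cb z y y' (D.c y x z v) = - D.c y' x z (D.cb x y y' v) := by rw [e3, neg_neg]
  rw [F_apply, e1', e2', e3', F_apply]
  simp only [map_neg, neg_neg]

/-- `c F = - F c` -/
theorem cF {x y y' z w : S} {u : V} (hxy : x ≠ y) (hxy' : x ≠ y') (hxz : x ≠ z) (hxw : x ≠ w)
    (hyy' : y ≠ y') (hyz : y ≠ z) (hyw : y ≠ w) (hy'z : y' ≠ z) (hy'w : y' ≠ w) (hzw : z ≠ w)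
    (hu : u ∈ D.VV x y) :
    D.c x y y' (D.F x y z w u) = - D.F x y' z w (D.c x y y' u) := by
  have mt := D.T_mem hxy hu
  have m1 := D.F_mem hxy hxz hxw hyz hyw hzw hu
  have m2 := D.c_mem hxy hxy' hyy' m1
  have m3 := D.c_mem hxy hxy' hyy' hu
  have m4 := D.F_mem hxy' hxz hxw hy'z hy'w hzw m3
  have h1 := D.cbF hxy hxy' hxz hxw hyy' hyz hyw hy'z hy'w hzw mt
  have h2 := D.TF hxz hxy hxw hyz.symm hzw hyw hu
  have h3 := D.TF hxz hxy' hxw hy'z.symm hzw hy'w m3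
  rw [h2, cb, map_neg, D.TT hxy m1, cb, D.TT hxy hu, h3, map_neg, map_neg, neg_neg] at h1
  have h4 := congrArg (D.T y' x) h1
  rw [map_neg, D.TT hxy' m2, D.TT hxy' m4] at h4
  rw [← h4, neg_neg]

theorem FF {x y a b : S} {v : V} (hxy : x ≠ y) (hxa : x ≠ a) (hxb : x ≠ b) (hya : y ≠ a)
    (hyb : y ≠ b) (hab : a ≠ b) (hv : v ∈ D.VV x y) : D.F x y a b (D.F x y b a v) = v := by
  have m1 := D.c_mem hxy hxb hyb hv
  have m2 := D.c_mem hxb hxa hab.symm m1
  rw [F_apply, F_apply, D.cc hxa hxy hya.symm m2, D.cc hxb hxa hab.symm m1, D.cc hxy hxb hyb hv]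

theorem FFsq {x y a b : S} {v : V} (hxy : x ≠ y) (hxa : x ≠ a) (hxb : x ≠ b) (hya : y ≠ a)
    (hyb : y ≠ b) (hab : a ≠ b) (hv : v ∈ D.VV x y) : D.F x y a b (D.F x y a b v) = - v := by
  rw [D.Fswap hya hxy.symm hyb hxa.symm hab hxb hv, map_neg, D.FF hxy hxa hxb hya hyb hab hv]

theorem FFdisj {x y a b c d : S} {v : V} (hxy : x ≠ y) (hxa : x ≠ a) (hxb : x ≠ b) (hya : y ≠ a)
    (hyb : y ≠ b) (hab : a ≠ b) (hxc : x ≠ c) (hxd : x ≠ d) (hyc : y ≠ c) (hyd : y ≠ d)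
    (hcd : c ≠ d) (hac : a ≠ c) (had : a ≠ d) (hbc : b ≠ c) (hbd : b ≠ d) (hv : v ∈ D.VV x y) :
    D.F x y a b (D.F x y c d v) = - D.F x y c d (D.F x y a b v) := by
  have m1 := D.c_mem hxy hxc hyc hv
  have m2 := D.c_mem hxc hxd hcd m1
  have e1 := D.cF hxy hxc hxa hxb hyc hya hyb hac.symm hbc.symm hab hv
  have e2 := D.cF hxc hxd hxa hxb hcd hac.symm hbc.symm had.symm hbd.symm hab m1
  have e3 := D.cF hxd hxy hxa hxb hyd.symm had.symm hbd.symm hya hyb hab m2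
  rw [F_apply _ x y c d (D.F x y a b v), e1, map_neg, e2, neg_neg, e3, F_apply _ x y c d v]
  rw [neg_neg]

theorem FFshare {x y a b d : S} {v : V} (hxy : x ≠ y) (hxa : x ≠ a) (hxb : x ≠ b) (hya : y ≠ a)
    (hyb : y ≠ b) (hab : a ≠ b) (hxd : x ≠ d) (hyd : y ≠ d)
    (had : a ≠ d) (hbd : b ≠ d) (hv : v ∈ D.VV x y) :
    D.F x y a b (D.F x y a d v) = - D.F x y b d (D.F x y a b v) := by
  have m1 := D.c_mem hxy hxa hya hv
  have m2 := D.c_mem hxa hxd had m1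
  have m3 := D.c_mem hxa hxb hab m1
  have e1 := D.cF hxd hxy hxa hxb hyd.symm had.symm hbd.symm hya hyb hab m2
  have e1' : D.F x y a b (D.c x d y (D.c x a d (D.c x y a v))) =
      - D.c x d y (D.F x d a b (D.c x a d (D.c x y a v))) := by rw [e1, neg_neg]
  rw [F_apply _ x y a d v, e1', F_apply _ x d a b, D.cc hxa hxd had m1,
    F_apply _ x y b d, F_apply _ x y a b v, D.cc hxb hxy hyb.symm m3]

end Rot

end Pool.Agent.MPd299d2
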