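import Mathlib
import Pool.Agent.Lib.MP_d299d2_al.Rot

set_option autoImplicit false

/-!
# Finite-dimensional subsystems of rotation systems
-/

namespace Pool.Agent.MPd299d2

section dietzmann

variable {K V ι : Type*} [Field K] [AddCommGroup V] [Module K V]

/-- the action of a word -/
def word (f : ι → Module.End K V) (l : List ι) (u : V) : V := l.foldr (fun i u => f i u) u

theorem word_nil (f : ι → Module.End K V) (u : V) : word f [] u = u := rfl

theorem word_cons (f : ι → Module.End K V) (i : ι) (l : List ι) (u : V) :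
    word f (i :: l) u = f i (word f l u) := rfl

theorem word_append (f : ι → Module.End K V) (l l' : List ι) (u : V) :
    word f (l ++ l') u = word f l (word f l' u) := by
  rw [word, List.foldr_append]
  rfl

theorem word_smul (f : ι → Module.End K V) (l : List ι) (s : K) (u : V) :
    word f l (s • u) = s • word f l u := by
  induction l with
  | nil => rfl
  | cons i l ih => rw [word_cons, word_cons, ih, map_smul]

theorem word_mem {f : ι → Module.End K V} {M : Submodule K V} (hM : ∀ i, ∀ v ∈ M, f i v ∈ M)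
    (l : List ι) {u : V} (hu : u ∈ M) : word f l u ∈ M := by
  induction l with
  | nil => exact hu
  | cons i l ih => exact hM i _ ih

theorem word_move {f : ι → Module.End K V} {M : Submodule K V} (hM : ∀ i, ∀ v ∈ M, f i v ∈ M)
    (hc : ∀ i j, ∃ k, ∃ s : K, ∀ v ∈ M, f i (f j v) = s • f k (f i v)) (i : ι) (l : List ι) :
    ∃ l' : List ι, ∃ s : K, l'.length = l.length ∧
      ∀ u ∈ M, f i (word f l u) = s • word f l' (f i u) := by
  induction l with
  | nil => exact ⟨[], 1, rfl, fun u _ => by rw [word_nil, word_nil, one_smul]⟩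
  | cons j l ih =>
    obtain ⟨l', s, h1, h2⟩ := ih
    obtain ⟨k, s0, h3⟩ := hc i j
    refine ⟨k :: l', s0 * s, by simp [h1], fun u hu => ?_⟩
    rw [word_cons, h3 _ (word_mem hM l hu), h2 u hu, map_smul, smul_smul, word_cons]

theorem word_reduce {f : ι → Module.End K V} {M : Submodule K V} (hM : ∀ i, ∀ v ∈ M, f i v ∈ M)
    (hc : ∀ i j, ∃ k, ∃ s : K, ∀ v ∈ M, f i (f j v) = s • f k (f i v))
    (hs : ∀ i, ∃ s : K, ∀ v ∈ M, f i (f i v) = s • v) (n : ℕ) :
    ∀ l : List ι, l.length ≤ n → ∃ l' : List ι, ∃ s : K, l'.Nodup ∧ l'.length ≤ l.length ∧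
      ∀ u ∈ M, word f l u = s • word f l' u := by
  classical
  induction n using Nat.strong_induction_on with
  | _ n ih =>
    intro l hl
    cases l with
    | nil => exact ⟨[], 1, List.nodup_nil, le_rfl, fun u _ => by rw [one_smul]⟩
    | cons i l0 =>
      rw [List.length_cons] at hl
      obtain ⟨l1, s1, hn1, hl1, h1⟩ := ih l0.length (by omega) l0 le_rfl
      by_cases hi : i ∈ l1
      · obtain ⟨a, b, hab⟩ := List.append_of_mem hi
        obtain ⟨a', s2, ha', h2⟩ := word_move hM hc i a
        obtain ⟨s3, h3⟩ := hs i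
        have hlen : (a' ++ b).length < n := by
          rw [hab, List.length_append, List.length_cons] at hl1
          rw [List.length_append, ha']
          omega
        obtain ⟨l4, s4, hn4, hl4, h4⟩ := ih _ hlen (a' ++ b) le_rfl
        refine ⟨l4, s1 * (s2 * (s3 * s4)), hn4, ?_, fun u hu => ?_⟩
        · rw [hab, List.length_append, List.length_cons] at hl1
          rw [List.length_append, ha'] at hl4
          rw [List.length_cons]
          omega
        · have mb := word_mem hM b hu
          rw [word_cons, h1 u hu, hab, map_smul, word_append, word_cons, h2 _ (hM i _ mb),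
            h3 _ mb, word_smul, ← word_append, h4 u hu]
          simp only [smul_smul]
      · refine ⟨i :: l1, s1, List.nodup_cons.mpr ⟨hi, hn1⟩, by simpa using hl1, fun u hu => ?_⟩
        rw [word_cons, h1 u hu, map_smul, word_cons]

theorem exists_fd [Finite ι] (f : ι → Module.End K V) (M : Submodule K V)
    (hM : ∀ i, ∀ v ∈ M, f i v ∈ M)
    (hc : ∀ i j, ∃ k, ∃ s : K, ∀ v ∈ M, f i (f j v) = s • f k (f i v))
    (hs : ∀ i, ∃ s : K, ∀ v ∈ M, f i (f i v) = s • v) {v : V} (hv : v ∈ M) :
    ∃ D : Submodule K V, FiniteDimensional K D ∧ v ∈ D ∧ D ≤ M ∧ ∀ i, ∀ u ∈ D, f i u ∈ D := by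
  classical
  have := Fintype.ofFinite ι
  have hfin : Finite {l : List ι // l.Nodup} := by
    have h1 : {l : List ι | l.Nodup} ⊆ {l : List ι | l.length ≤ Fintype.card ι} :=
      fun l hl => List.Nodup.length_le_card hl
    exact (List.finite_length_le ι (Fintype.card ι)).subset h1
  refine ⟨Submodule.span K (Set.range fun l : {l : List ι // l.Nodup} => word f l.1 v),
    FiniteDimensional.span_of_finite K (Set.finite_range _),
    Submodule.subset_span ⟨⟨[], List.nodup_nil⟩, rfl⟩, ?_, ?_⟩
  · rw [Submodule.span_le]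
    rintro _ ⟨l, rfl⟩
    exact word_mem hM _ hv
  · intro i u hu
    induction hu using Submodule.span_induction with
    | mem u hu =>
      obtain ⟨l, rfl⟩ := hu
      obtain ⟨l', s, hn, _, h⟩ := word_reduce hM hc hs _ (i :: l.1) le_rfl
      have h1 := h v hv
      rw [word_cons] at h1
      show f i (word f l.1 v) ∈ _
      rw [h1]
      exact Submodule.smul_mem _ _ (Submodule.subset_span ⟨⟨l', hn⟩, rfl⟩)
    | zero => rw [map_zero]; exact Submodule.zero_mem _
    | add a b _ _ ha hb => rw [map_add]; exact Submodule.add_mem _ ha hb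
    | smul s a _ ha => rw [map_smul]; exact Submodule.smul_mem _ _ ha

end dietzmann

namespace Rot

variable {K V S : Type*} [Field K] [AddCommGroup V] [Module K V] (D : Rot K V S)

/-- the loops at a state generate a finite-dimensional algebra -/
theorem exists_loop [Finite S] {x y : S} (hxy : x ≠ y) {v : V} (hv : v ∈ D.VV x y) :
    ∃ N : Submodule K V, FiniteDimensional K N ∧ v ∈ N ∧ N ≤ D.VV x y ∧
      ∀ a b : S, x ≠ a → x ≠ b → y ≠ a → y ≠ b → a ≠ b → ∀ u ∈ N, D.F x y a b u ∈ N := by
  have key : ∃ N : Submodule K V, FiniteDimensional K N ∧ v ∈ N ∧ N ≤ D.VV x y ∧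
      ∀ p : {p : S × S // x ≠ p.1 ∧ x ≠ p.2 ∧ y ≠ p.1 ∧ y ≠ p.2 ∧ p.1 ≠ p.2}, ∀ u ∈ N,
        D.F x y p.1.1 p.1.2 u ∈ N := by
    refine exists_fd (fun p : {p : S × S // x ≠ p.1 ∧ x ≠ p.2 ∧ y ≠ p.1 ∧ y ≠ p.2 ∧ p.1 ≠ p.2} =>
      D.F x y p.1.1 p.1.2) (D.VV x y) ?_ ?_ ?_ hv
    · rintro ⟨⟨a, b⟩, h1, h2, h3, h4, h5⟩ u hu
      exact D.F_mem hxy h1 h2 h3 h4 h5 hu
    · rintro ⟨⟨a, b⟩, hxa, hxb, hya, hyb, hab⟩ ⟨⟨c, d⟩, hxc, hxd, hyc, hyd, hcd⟩
      simp only at hxa hxb hya hyb hab hxc hxd hyc hyd hcd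
      by_cases hac : a = c
      · subst hac
        by_cases hbd : b = d
        · subst hbd
          exact ⟨⟨(a, b), hxa, hxb, hya, hyb, hab⟩, 1, fun u _ => by rw [one_smul]⟩
        · exact ⟨⟨(b, d), hxb, hxd, hyb, hyd, hbd⟩, -1, fun u hu => by
            rw [neg_one_smul]
            exact D.FFshare hxy hxa hxb hya hyb hab hxd hyd hcd hbd hu⟩
      · by_cases had : a = d
        · subst had
          by_cases hbc : b = c
          · subst hbc
            exact ⟨⟨(b, a), hxb, hxa, hyb, hya, hcd⟩, 1, fun u hu => by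
              rw [one_smul]
              show D.F x y a b (D.F x y b a u) = D.F x y b a (D.F x y a b u)
              rw [D.FF hxy hxa hxb hya hyb hab hu, D.FF hxy hxb hxa hyb hya hcd hu]⟩
          · exact ⟨⟨(b, c), hxb, hxc, hyb, hyc, hbc⟩, 1, fun u hu => by
              rw [one_smul]
              show D.F x y a b (D.F x y c a u) = D.F x y b c (D.F x y a b u)
              rw [D.Fswap hyc hxy.symm hya hxc.symm hcd hxa hu, map_neg,
                D.FFshare hxy hxa hxb hya hyb hab hxc hyc hac hbc hu, neg_neg]⟩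
        · by_cases hbc : b = c
          · subst hbc
            exact ⟨⟨(a, d), hxa, hxd, hya, hyd, had⟩, -1, fun u hu => by
              rw [neg_one_smul]
              show D.F x y a b (D.F x y b d u) = - D.F x y a d (D.F x y a b u)
              have m1 := D.F_mem hxy hxb hxd hyb hyd hcd hu
              rw [D.Fswap hya hxy.symm hyb hxa.symm hab hxb m1,
                D.FFshare hxy hxb hxa hyb hya (Ne.symm hab) hxd hyd hcd had hu, neg_neg,
                D.Fswap hyb hxy.symm hya hxb.symm (Ne.symm hab) hxa hu, map_neg]⟩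
          · by_cases hbd : b = d
            · subst hbd
              exact ⟨⟨(a, c), hxa, hxc, hya, hyc, hac⟩, 1, fun u hu => by
                rw [one_smul]
                show D.F x y a b (D.F x y c b u) = D.F x y a c (D.F x y a b u)
                have m1 := D.F_mem hxy hxc hxb hyc hyb hcd hu
                rw [D.Fswap hya hxy.symm hyb hxa.symm hab hxb m1,
                  D.Fswap hyc hxy.symm hyb hxc.symm hcd hxb hu, map_neg, neg_neg,
                  D.FFshare hxy hxb hxa hyb hya (Ne.symm hab) hxc hyc (Ne.symm hcd) hac hu,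
                  D.Fswap hyb hxy.symm hya hxb.symm (Ne.symm hab) hxa hu, map_neg, neg_neg]⟩
            · exact ⟨⟨(c, d), hxc, hxd, hyc, hyd, hcd⟩, -1, fun u hu => by
                rw [neg_one_smul]
                exact D.FFdisj hxy hxa hxb hya hyb hab hxc hxd hyc hyd hcd hac had hbc hbd hu⟩
    · rintro ⟨⟨a, b⟩, hxa, hxb, hya, hyb, hab⟩
      exact ⟨-1, fun u hu => by
        rw [neg_one_smul]
        exact D.FFsq hxy hxa hxb hya hyb hab hu⟩
  obtain ⟨N, h1, h2, h3, h4⟩ := key
  exact ⟨N, h1, h2, h3, fun a b p1 p2 p3 p4 p5 u hu => h4 ⟨(a, b), p1, p2, p3, p4, p5⟩ u hu⟩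

/-- the subsystem generated by `D0` -/
theorem exists_sub [Finite S] {x0 y0 : S} (h0 : x0 ≠ y0) {v : V} (hv : v ∈ D.VV x0 y0) :
    ∃ N : S → S → Submodule K V, (∀ x y, FiniteDimensional K (N x y)) ∧ v ∈ N x0 y0 ∧
      (∀ x y, x ≠ y → N x y ≤ D.VV x y) ∧
      (∀ x y, x ≠ y → ∀ u ∈ N x y, D.T x y u ∈ N y x) ∧
      (∀ x y z, x ≠ y → x ≠ z → y ≠ z → ∀ u ∈ N x y, D.c x y z u ∈ N x z) := by
  classical
  obtain ⟨N0, hfd, hvN, hN0, hF⟩ := D.exists_loop h0 hv
  -- the states `(x0, y)`
  obtain ⟨N1, hN1⟩ : ∃ N1 : S → Submodule K V, N1 = fun y =>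
    if y = y0 then N0 else Submodule.map (D.c x0 y0 y) N0 := ⟨_, rfl⟩
  have n1a : N1 y0 = N0 := by rw [hN1]; exact if_pos rfl
  have n1b : ∀ y, y ≠ y0 → N1 y = Submodule.map (D.c x0 y0 y) N0 := fun y hy => by
    rw [hN1]; exact if_neg hy
  have n1le : ∀ y, x0 ≠ y → N1 y ≤ D.VV x0 y := by
    intro y hy
    by_cases h : y = y0
    · subst h
      rw [n1a]
      exact hN0
    · rw [n1b y h]
      rintro _ ⟨u, hu, rfl⟩
      exact D.c_mem h0 hy (Ne.symm h) (hN0 hu)
  have n1c : ∀ y z, x0 ≠ y → x0 ≠ z → y ≠ z → ∀ u ∈ N1 y, D.c x0 y z u ∈ N1 z := by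
    intro y z hy hz hyz u hu
    by_cases h : y = y0
    · subst h
      rw [n1a] at hu
      rw [n1b z hyz.symm]
      exact Submodule.mem_map_of_mem hu
    · rw [n1b y h] at hu
      obtain ⟨u', hu', rfl⟩ := hu
      by_cases hz0 : z = y0
      · subst hz0
        rw [n1a, D.cc hz hy (Ne.symm h) (hN0 hu')]
        exact hu'
      · rw [n1b z hz0]
        refine ⟨D.F x0 y0 y z u', hF y z hy hz (Ne.symm h) (Ne.symm hz0) hyz u' hu', ?_⟩
        have m1 := D.c_mem h0 hy (Ne.symm h) (hN0 hu')
        have m2 := D.c_mem hy hz hyz m1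
        rw [F_apply, D.cc hz h0 hz0 m2]
  -- all states
  obtain ⟨N, hN⟩ : ∃ N : S → S → Submodule K V, N = fun x y =>
    if x = x0 then N1 y else if y = x0 then Submodule.map (D.T x0 x) (N1 x)
      else Submodule.map (D.T y x * D.c y x0 x * D.T x0 y) (N1 y) := ⟨_, rfl⟩
  have na : ∀ y, N x0 y = N1 y := fun y => by rw [hN]; exact if_pos rfl
  have nb : ∀ x, x ≠ x0 → N x x0 = Submodule.map (D.T x0 x) (N1 x) := fun x hx => by
    rw [hN]
    simp only [if_neg hx, if_true]
  have nc : ∀ x y, x ≠ x0 → y ≠ x0 →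
      N x y = Submodule.map (D.T y x * D.c y x0 x * D.T x0 y) (N1 y) := fun x y hx hy => by
    rw [hN]
    simp only [if_neg hx, if_neg hy]
  have ncm : ∀ x y, x ≠ x0 → y ≠ x0 → ∀ u ∈ N1 y, D.cb y x0 x u ∈ N x y := by
    intro x y hx hy u hu
    rw [nc x y hx hy]
    exact Submodule.mem_map_of_mem (f := D.T y x * D.c y x0 x * D.T x0 y) hu
  refine ⟨N, ?_, ?_, ?_, ?_, ?_⟩
  · intro x y
    have hf1 : ∀ y, FiniteDimensional K (N1 y) := by
      intro y
      by_cases h : y = y0
      · rw [h, n1a]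
        exact hfd
      · rw [n1b y h]
        infer_instance
    by_cases hx : x = x0
    · rw [hx, na]
      exact hf1 y
    · by_cases hy : y = x0
      · rw [hy, nb x hx]
        have := hf1 x
        infer_instance
      · rw [nc x y hx hy]
        have := hf1 y
        infer_instance
  · rw [na, n1a]
    exact hvN
  · intro x y hxy
    by_cases hx : x = x0
    · subst hx
      rw [na]
      exact n1le y hxy
    · by_cases hy : y = x0
      · subst hy
        rw [nb x hx]
        rintro _ ⟨u, hu, rfl⟩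
        exact D.T_mem hxy.symm (n1le x hxy.symm hu)
      · rw [nc x y hx hy]
        rintro _ ⟨u, hu, rfl⟩
        exact D.cb_mem (Ne.symm hy) (Ne.symm hx) hxy.symm (n1le y (Ne.symm hy) hu)
  · intro x y hxy u hu
    by_cases hx : x = x0
    · subst hx
      rw [na] at hu
      rw [nb y hxy.symm]
      exact Submodule.mem_map_of_mem hu
    · by_cases hy : y = x0
      · subst hy
        rw [nb x hx] at hu
        obtain ⟨u', hu', rfl⟩ := hu
        rw [na, D.TT hxy.symm (n1le x hxy.symm hu')]
        exact hu'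
      · rw [nc x y hx hy] at hu
        obtain ⟨u', hu', rfl⟩ := hu
        have mu := n1le y (Ne.symm hy) hu'
        have m1 := D.T_mem (Ne.symm hy) mu
        have m2 := D.c_mem hy hxy.symm (Ne.symm hx) m1
        show D.T x y (D.T y x (D.c y x0 x (D.T x0 y u'))) ∈ N y x
        rw [D.TT hxy.symm m2]
        have h1 := D.low (Ne.symm hy) (Ne.symm hx) hxy.symm mu
        rw [← neg_neg (D.c y x0 x (D.T x0 y u')), ← h1]
        exact Submodule.neg_mem _ (ncm y x hy hx _ (n1c y x (Ne.symm hy) (Ne.symm hx) hxy.symm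
          u' hu'))
  · intro x y z hxy hxz hyz u hu
    by_cases hx : x = x0
    · subst hx
      rw [na] at hu ⊢
      exact n1c y z hxy hxz hyz u hu
    · by_cases hy : y = x0
      · subst hy
        rw [nb x hx] at hu
        obtain ⟨u', hu', rfl⟩ := hu
        have mu := n1le x (Ne.symm hx) hu'
        have h1 := D.low (Ne.symm hx) hyz hxz mu
        rw [← neg_neg (D.c x y z (D.T y x u')), ← h1]
        exact Submodule.neg_mem _ (ncm x z hx hyz.symm _ (n1c x z (Ne.symm hx) hyz hxz u' hu'))
      · by_cases hz : z = x0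
        · subst hz
          rw [nc x y hx hy] at hu
          obtain ⟨u', hu', rfl⟩ := hu
          have mu := n1le y (Ne.symm hy) hu'
          have h1 := D.H' (Ne.symm hy) (Ne.symm hx) hxy.symm mu
          show D.c x y z (D.cb y z x u') ∈ N x z
          rw [h1, nb x hx]
          exact Submodule.neg_mem _ (Submodule.mem_map_of_mem (n1c y x (Ne.symm hy) (Ne.symm hx)
            hxy.symm u' hu'))
        · rw [nc x y hx hy] at hu
          obtain ⟨u', hu', rfl⟩ := hu
          have mu := n1le y (Ne.symm hy) hu'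
          have h1 := D.anti' (Ne.symm hy) (Ne.symm hx) (Ne.symm hz) hxy.symm hyz hxz mu
          show D.c x y z (D.cb y x0 x u') ∈ N x z
          rw [h1]
          exact Submodule.neg_mem _ (ncm x z hx hz _ (n1c y z (Ne.symm hy) (Ne.symm hz) hyz u'
            hu'))

end Rot

end Pool.Agent.MPd299d2
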