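import Mathlib
import Pool.Agent.Lib.MP_d299d2_al.FiveWalk
import Pool.Agent.Lib.MP_d299d2_al.RotFin

set_option autoImplicit false

/-!
# The rotation system of the blocks
-/

namespace Pool.Agent.MPd299d2

theorem End_two {K V : Type*} [Field K] [AddCommGroup V] [Module K V] (f : Module.End K V)
    (v : V) : (2 * f) v = (2 : K) • f v := by
  rw [two_mul, LinearMap.add_apply, two_smul]

theorem End_four {K V : Type*} [Field K] [AddCommGroup V] [Module K V] (f : Module.End K V)
    (v : V) : (4 * f) v = (4 : K) • f v := by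
  have h1 : (4 : Module.End K V) * f = 2 * (2 * f) := by noncomm_ring
  rw [h1, End_two, End_two, smul_smul]
  norm_num

namespace Blocks

variable {m : ℕ} [NeZero m] {K V : Type*} [Field K] [AddCommGroup V] [Module K V]
  (D : Blocks m (Module.End K V))

/-- the vectors at the pair `(x, y)` for which exactly the points of `S` are visible -/
def VV (S : Set (ZMod m)) (x y : ZMod m) : Submodule K V where
  carrier := {v | D.P (y - x) v = v ∧ ∀ z, z ≠ x → z ≠ y →
    (z ∈ S → D.ep x y z v = v) ∧ (z ∉ S → D.ep x y z v = 0)}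
  add_mem' := by
    rintro v w ⟨h1, h2⟩ ⟨h3, h4⟩
    refine ⟨by rw [map_add, h1, h3], fun z hx hy => ⟨fun hz => ?_, fun hz => ?_⟩⟩
    · rw [map_add, (h2 z hx hy).1 hz, (h4 z hx hy).1 hz]
    · rw [map_add, (h2 z hx hy).2 hz, (h4 z hx hy).2 hz, add_zero]
  zero_mem' := ⟨map_zero _, fun z _ _ => ⟨fun _ => map_zero _, fun _ => map_zero _⟩⟩
  smul_mem' := by
    rintro s v ⟨h1, h2⟩
    refine ⟨by rw [map_smul, h1], fun z hx hy => ⟨fun hz => ?_, fun hz => ?_⟩⟩
    · rw [map_smul, (h2 z hx hy).1 hz]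
    · rw [map_smul, (h2 z hx hy).2 hz, smul_zero]

theorem mem_VV {S : Set (ZMod m)} {x y : ZMod m} {v : V} : v ∈ D.VV S x y ↔
    D.P (y - x) v = v ∧ ∀ z, z ≠ x → z ≠ y →
      (z ∈ S → D.ep x y z v = v) ∧ (z ∉ S → D.ep x y z v = 0) := Iff.rfl

theorem T_mem {S : Set (ZMod m)} {x y : ZMod m} {v : V} (hv : v ∈ D.VV S x y) :
    D.a x y x v ∈ D.VV S y x := by
  obtain ⟨_, h2⟩ := hv
  refine ⟨?_, fun z hx hy => ?_⟩
  · rw [← Module.End.mul_apply, D.Pa]
  · have h3 := congrArg (fun f => f v) (D.transport_tau hy.symm hx.symm)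
    simp only [Module.End.mul_apply] at h3
    refine ⟨fun hz => ?_, fun hz => ?_⟩
    · rw [h3, (h2 z hy hx).1 hz]
    · rw [h3, (h2 z hy hx).2 hz, map_zero]

theorem a_mem {S : Set (ZMod m)} {x y z : ZMod m} {v : V} (hxy : x ≠ y) (hxz : x ≠ z)
    (hyz : y ≠ z) (hx : x ∈ S) (hv : v ∈ D.VV S x y) : D.a x y z v ∈ D.VV S y z := by
  obtain ⟨_, h2⟩ := hv
  refine ⟨?_, fun w hwy hwz => ?_⟩
  · rw [← Module.End.mul_apply, D.Pa]
  · by_cases hwx : w = x
    · subst hwx
      refine ⟨fun _ => ?_, fun hz => absurd hx hz⟩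
      rw [← Module.End.mul_apply, D.absorb_left hxz]
    · have h3 := congrArg (fun f => f v) (D.transport hxy hxz hyz (Ne.symm hwx) hwy.symm hwz.symm)
      simp only [Module.End.mul_apply] at h3
      refine ⟨fun hz => ?_, fun hz => ?_⟩
      · rw [h3, (h2 w hwx hwy).1 hz]
      · rw [h3, (h2 w hwx hwy).2 hz, map_zero]

theorem a_kill {S : Set (ZMod m)} {x y z : ZMod m} {v : V} (hxz : x ≠ z)
    (hyz : y ≠ z) (hz : z ∉ S) (hv : v ∈ D.VV S x y) : D.a x y z v = 0 := by
  rw [← D.absorb_right hxz hyz, Module.End.mul_apply, (hv.2 z hxz.symm hyz.symm).2 hz, map_zero]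

/-- the rotation system -/
noncomputable def rot (S : Set (ZMod m)) {c : K} (hc : c * c = -2) : Rot K V S where
  VV x y := D.VV S x y
  T x y := c • D.a x y x
  c x y z := c • (D.a y x z * D.a x y x)
  T_mem := by
    rintro x y v _ hv
    exact Submodule.smul_mem _ _ (D.T_mem hv)
  c_mem := by
    rintro ⟨x, hx⟩ ⟨y, hy⟩ ⟨z, hz⟩ v hxy hxz hyz hv
    have h1 : x ≠ y := fun h => hxy (Subtype.ext h)
    have h2 : x ≠ z := fun h => hxz (Subtype.ext h)
    have h3 : y ≠ z := fun h => hyz (Subtype.ext h)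
    exact Submodule.smul_mem _ _ (D.a_mem h1.symm h3 h2 hy (D.T_mem hv))
  TT := by
    rintro ⟨x, hx⟩ ⟨y, hy⟩ v hxy hv
    have h1 := congrArg (fun f => f v) (D.tau2 x y)
    simp only [two_mul, LinearMap.add_apply, Module.End.mul_apply, LinearMap.neg_apply, hv.1] at h1
    show c • D.a y x y (c • D.a x y x v) = v
    rw [map_smul, smul_smul, hc, neg_smul, two_smul, h1, neg_neg]
  cc := by
    rintro ⟨x, hx⟩ ⟨y, hy⟩ ⟨z, hz⟩ v hxy hxz hyz hv
    have h2 : x ≠ z := fun h => hxz (Subtype.ext h)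
    have h3 : y ≠ z := fun h => hyz (Subtype.ext h)
    have h1 := congrArg (fun f => f v) (D.walkcc h2 h3)
    simp only [two_mul, LinearMap.add_apply, LinearMap.neg_apply,
      (hv.2 z h2.symm h3.symm).1 hz] at h1
    show c • (D.a z x y * D.a x z x) (c • (D.a y x z * D.a x y x) v) = v
    rw [map_smul, smul_smul, hc, neg_smul, two_smul, ← Module.End.mul_apply, h1, neg_neg]
  H := by
    rintro ⟨x, hx⟩ ⟨y, hy⟩ ⟨z, hz⟩ v hxy hxz hyz hv
    have h3 : y ≠ z := fun h => hyz (Subtype.ext h)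
    have hc4 : c * (c * (c * c)) = 4 := by linear_combination (c * c - 2) * hc
    have hc4' : c * (c * -2) = 4 := by linear_combination (-2) * hc
    have e1 := congrArg (fun f => f v) (D.walk4 x y z x)
    have e2 := congrArg (fun f => f v) (D.walkH (x := x) h3)
    simp only [End_two, End_four] at e1 e2
    show c • (D.a y z x * D.a z y z) (c • D.a y z y (c • (D.a x y z * D.a y x y)
      (c • D.a x y x v))) = - (c • D.a x z x (c • (D.a y x z * D.a x y x) v))
    simp only [map_smul, smul_smul, hc]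
    rw [hc4', neg_smul, neg_neg]
    exact e1.trans e2
  anti := by
    rintro ⟨x, hx⟩ ⟨y, hy⟩ ⟨z, hz⟩ ⟨w, hw⟩ v hxy hxz hxw hyz hyw hzw hv
    have h2 : x ≠ z := fun h => hxz (Subtype.ext h)
    have h3 : y ≠ z := fun h => hyz (Subtype.ext h)
    have h4 : y ≠ w := fun h => hyw (Subtype.ext h)
    have h5 : x ≠ w := fun h => hxw (Subtype.ext h)
    have hc4' : c * (c * -2) = 4 := by linear_combination (-2) * hc
    have e1 := congrArg (fun f => f v) (D.walk4 x y z w)
    have e2 := congrArg (fun f => f v) (D.walkQ h3 h2 h4 h5)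
    have e3 := congrArg (fun f => f v) (D.walk5 x y z w)
    simp only [End_two, End_four] at e1 e2 e3
    show c • (D.a y z w * D.a z y z) (c • D.a y z y (c • (D.a x y z * D.a y x y)
      (c • D.a x y x v))) = - (c • D.a w z w (c • (D.a x w z * D.a w x w) (c • D.a x w x
      (c • (D.a y x w * D.a x y x) v))))
    simp only [map_smul, smul_smul, hc, hc4']
    have e4 : (4 : K) • (D.a w z w) ((D.a x w z * D.a w x w) ((D.a x w x)
        ((D.a y x w * D.a x y x) v))) = (2 : K) • -(D.a w z w * D.a x w z * D.a y x w *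
          D.a x y x) v := by
      have e5 : (4 : K) = 2 * 2 := by norm_num
      rw [e5, mul_smul]
      exact congrArg (fun u => (2 : K) • u) e3
    rw [e4, smul_neg, neg_neg]
    exact e1.trans e2

/-- a finite-dimensional subspace which is invariant under all blocks -/
theorem exists_invariant [Nontrivial V] {c : K} (hc : c * c = -2) :
    ∃ W : Submodule K V, FiniteDimensional K W ∧ W ≠ ⊥ ∧ (∀ j, ∀ u ∈ W, D.P j u ∈ W) ∧
      (∀ j l, ∀ u ∈ W, D.A j l u ∈ W) := by
  classical
  by_cases hc0 : c = 0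
  · exfalso
    have h2 : (2 : K) = 0 := by
      rw [hc0, mul_zero] at hc
      exact neg_eq_zero.mp hc.symm
    have h3 : ∀ j, D.P j = 0 := by
      intro j
      apply LinearMap.ext
      intro v
      have h4 := congrArg (fun f => f v) (D.L3 j)
      simp only [End_two, h2, zero_smul, LinearMap.neg_apply] at h4
      rw [LinearMap.zero_apply, ← neg_neg (D.P j v), ← h4, neg_zero]
    have h5 := D.sumP
    rw [Finset.sum_eq_zero (fun j _ => h3 j)] at h5
    exact zero_ne_one h5
  have h1 : ∃ j, D.P j ≠ 0 := by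
    by_contra h
    push Not at h
    have := D.sumP
    rw [Finset.sum_eq_zero (fun j _ => h j)] at this
    exact zero_ne_one this
  obtain ⟨j, hj⟩ := h1
  have hj0 : j ≠ 0 := by
    rintro rfl
    exact hj D.P0
  obtain ⟨f, hf, hpf, h⟩ := exists_eigen (fun l => D.E j l) (D.P j) hj (D.PP j)
    (Finset.univ.filter (fun l : ZMod m => l ≠ 0 ∧ j + l ≠ 0))
    (fun i hi k hk => by
      have h1 := (Finset.mem_filter.mp hi).2
      have h2 := (Finset.mem_filter.mp hk).2
      exact D.E_comm h1.1 h2.1 h1.2 h2.2)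
    (fun i hi => D.E_idem (Finset.mem_filter.mp hi).2.2)
    (fun i hi => D.PE j i)
  obtain ⟨w, hw⟩ : ∃ w, f w ≠ 0 := by
    by_contra h
    push Not at h
    exact hf (LinearMap.ext h)
  obtain ⟨u, hu⟩ : ∃ u, u = f w := ⟨_, rfl⟩
  have hu0 : u ≠ 0 := by rw [hu]; exact hw
  obtain ⟨S, hS⟩ : ∃ S : Set (ZMod m), S = {z | z = 0 ∨ z = j ∨ D.ep 0 j z u = u} := ⟨_, rfl⟩
  have h0S : (0 : ZMod m) ∈ S := by rw [hS]; exact Or.inl rfl
  have hjS : j ∈ S := by rw [hS]; exact Or.inr (Or.inl rfl)
  have huV : u ∈ D.VV S 0 j := by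
    refine ⟨?_, fun z hz0 hzj => ?_⟩
    · rw [sub_zero, hu, ← Module.End.mul_apply, hpf]
    · have hl := h (0 - z) (Finset.mem_filter.mpr ⟨Finset.mem_univ _, by simpa using hz0,
        fun h => hzj (by linear_combination -h)⟩)
      have hep : D.ep 0 j z = D.E j (0 - z) := by rw [ep, sub_zero]
      refine ⟨fun hz => ?_, fun hz => ?_⟩
      · rw [hS] at hz
        rcases hz with h1 | h1 | h1
        · exact absurd h1 hz0
        · exact absurd h1 hzj
        · exact h1
      · rcases hl with h1 | h1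
        · exfalso
          apply hz
          rw [hS]
          refine Or.inr (Or.inr ?_)
          rw [hep, hu, ← Module.End.mul_apply, h1]
        · rw [hep, hu, ← Module.End.mul_apply, h1]
          rfl
  obtain ⟨N, n1, n2, n3, n4, n5⟩ := (D.rot S hc).exists_sub (x0 := ⟨0, h0S⟩) (y0 := ⟨j, hjS⟩)
    (fun h => hj0 (congrArg Subtype.val h).symm) huV
  have nV : ∀ x y : S, x ≠ y → ∀ u ∈ N x y, u ∈ D.VV S x y := fun x y hxy u hu => n3 x y hxy hu
  obtain ⟨W, hW⟩ : ∃ W : Submodule K V, W = ⨆ p : {p : S × S // p.1 ≠ p.2}, N p.1.1 p.1.2 :=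
    ⟨_, rfl⟩
  have hle : ∀ x y : S, x ≠ y → N x y ≤ W := fun x y hxy => by
    rw [hW]
    exact le_iSup (fun p : {p : S × S // p.1 ≠ p.2} => N p.1.1 p.1.2) ⟨(x, y), hxy⟩
  have key : ∀ f : Module.End K V, (∀ x y : S, x ≠ y → ∀ u ∈ N x y, f u ∈ W) →
      ∀ u ∈ W, f u ∈ W := by
    intro f hf u hu
    have h2 : W ≤ W.comap f := by
      conv_lhs => rw [hW]
      refine iSup_le (fun p => ?_)
      intro u hu
      exact hf p.1.1 p.1.2 p.2 u hu
    exact h2 hu
  refine ⟨W, ?_, ?_, fun i => key _ ?_, fun i l => key _ ?_⟩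
  · rw [hW]
    have := fun p : {p : S × S // p.1 ≠ p.2} => n1 p.1.1 p.1.2
    infer_instance
  · intro h2
    have h3 := hle _ _ (fun h => hj0 (congrArg Subtype.val h).symm) n2
    rw [h2, Submodule.mem_bot] at h3
    exact hu0 h3
  · intro x y hxy u hu
    have h2 := (nV x y hxy u hu).1
    by_cases h3 : i = y - x
    · rw [h3, h2]
      exact hle x y hxy hu
    · rw [← h2, ← Module.End.mul_apply, D.PP' _ _ h3]
      exact Submodule.zero_mem _
  · intro x y hxy u hu
    have hxy' : (x : ZMod m) ≠ y := fun h => hxy (Subtype.ext h)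
    have h2 := nV x y hxy u hu
    by_cases h3 : l = y - x
    · obtain ⟨z, hz⟩ : ∃ z : ZMod m, z = y + i := ⟨_, rfl⟩
      have h4 : D.A i l = D.a x y z := by
        rw [a, h3, hz, add_sub_cancel_left]
      rw [h4]
      by_cases hzy : z = y
      · rw [a, hzy, sub_self, D.A0]
        exact Submodule.zero_mem _
      by_cases hzx : z = x
      · rw [hzx]
        have h5 := n4 x y hxy u hu
        have h6 : D.a x y x u = c⁻¹ • (D.rot S hc).T x y u := by
          show _ = c⁻¹ • (c • D.a x y x u)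
          rw [smul_smul, inv_mul_cancel₀ hc0, one_smul]
        rw [h6]
        exact Submodule.smul_mem _ _ (hle y x hxy.symm h5)
      · by_cases hzS : z ∈ S
        · have h7 : (⟨z, hzS⟩ : S) ≠ x := fun h => hzx (congrArg Subtype.val h)
          have h8 : (⟨z, hzS⟩ : S) ≠ y := fun h => hzy (congrArg Subtype.val h)
          have h5 := n5 y x ⟨z, hzS⟩ hxy.symm h8.symm h7.symm _ (n4 x y hxy u hu)
          have h6 : D.a x y z u = (D.rot S hc).c y x ⟨z, hzS⟩ ((D.rot S hc).T x y u) := by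
            show _ = c • (D.a x y z * D.a y x y) (c • D.a x y x u)
            rw [map_smul, smul_smul, hc, neg_smul]
            have h9 := congrArg (fun f => f u) (D.walk3 x y z)
            simp only [End_two] at h9
            rw [← neg_neg (D.a x y z u)]
            exact congrArg Neg.neg h9.symm
          rw [h6]
          exact hle y ⟨z, hzS⟩ h8.symm h5
        · rw [D.a_kill (Ne.symm hzx) (Ne.symm hzy) hzS h2]
          exact Submodule.zero_mem _
    · rw [← D.AP, Module.End.mul_apply]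
      have h4 : D.P l u = 0 := by
        rw [← h2.1, ← Module.End.mul_apply, D.PP' _ _ h3]
        rfl
      rw [h4, map_zero]
      exact Submodule.zero_mem _

end Blocks

end Pool.Agent.MPd299d2
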