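import Mathlib
import Pool.Agent.Lib.MP_d299d2_al.FiveLift
import Pool.Agent.Lib.MP_d299d2_al.FiveRot
import Pool.Agent.Lib.MP_d299d2_al.FiveMk
import Pool.Agent.Lib.MP_d299d2_al.Key

set_option autoImplicit false

/-!
# Cosets of elements of order five
-/

namespace Pool.Agent.MPd299d2

section blocks

variable {A K R : Type*} [Group A] [Field K] [IsAlgClosed K] [Ring R] [Algebra K R] [Nontrivial R]
  {φ : A →* R}

omit [Nontrivial R] in
theorem five_rel {X X' : R} (h : ∑ i ∈ Finset.range 5, X ^ i = 0)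
    (h2 : X' * X = 1) : X * X + X + 1 + X' + X' * X' = 0 := by
  have h3 : X' * X' * ∑ i ∈ Finset.range 5, X ^ i = 0 := by rw [h, mul_zero]
  have h4 : X' * X' * ∑ i ∈ Finset.range 5, X ^ i = X * X + X + 1 + X' + X' * X' := by
    simp only [Finset.sum_range_succ, Finset.sum_range_zero, pow_zero, pow_one, zero_add]
    have e1 : X' * X' * X ^ 2 = 1 := by
      calc X' * X' * X ^ 2 = X' * (X' * X) * X := by noncomm_ring
        _ = 1 := by rw [h2, mul_one, h2]
    have e2 : X' * X' * X ^ 3 = X := by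
      calc X' * X' * X ^ 3 = X' * X' * X ^ 2 * X := by noncomm_ring
        _ = X := by rw [e1, one_mul]
    have e3 : X' * X' * X ^ 4 = X * X := by
      calc X' * X' * X ^ 4 = X' * X' * X ^ 2 * (X * X) := by noncomm_ring
        _ = X * X := by rw [e1, one_mul]
    have e4 : X' * X' * X = X' := by rw [mul_assoc, h2, mul_one]
    rw [mul_add, mul_add, mul_add, mul_add, e1, e2, e3, e4, mul_one]
    abel
  rw [← h4, h3]

/-- the blocks attached to a coset of elements of order five -/
theorem exists_blocks (hφ : Reg φ) {a b : A} {p : ℕ} (hp : p.Prime) (hb : orderOf b = p)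
    (h5 : ∀ i : ℕ, orderOf (a * b ^ i) = 5) :
    ∃ (_ : NeZero p) (D : Blocks p R) (ψ : AddChar (ZMod p) K),
      φ a = ∑ j, ∑ l, D.A j l ∧ φ b = ∑ j, ψ j • D.P j := by
  have hne : NeZero p := ⟨hp.ne_zero⟩
  have hpK : (p : K) ≠ 0 := by
    intro h0
    have h1 := (hφ b (by rw [hb]; exact hp)).2
    rw [hb, ← map_natCast (algebraMap K R), h0, map_zero] at h1
    exact not_isUnit_zero h1
  have : NeZero (p : K) := ⟨hpK⟩
  obtain ⟨ζ, hζ⟩ := HasEnoughRootsOfUnity.exists_primitiveRoot K p
  obtain ⟨ψ, hψ⟩ : ∃ ψ : AddChar (ZMod p) K, ψ.IsPrimitive :=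
    ⟨_, AddChar.zmodChar_primitive_of_primitive_root p hζ⟩
  obtain ⟨β, hβd⟩ : ∃ β : ZMod p → R, ∀ i, β i = φ (b ^ i.val) := ⟨_, fun i => rfl⟩
  have hmod : ∀ n : ℕ, b ^ (n % p) = b ^ n := fun n => by
    rw [← hb]; exact pow_mod_orderOf b n
  have hβ : ∀ i j, β (i + j) = β i * β j := by
    intro i j
    rw [hβd, hβd, hβd, ← map_mul, ← pow_add, ZMod.val_add, hmod]
  have hβ0 : β 0 = 1 := by rw [hβd, ZMod.val_zero, pow_zero, map_one]
  have hsum : ∑ i, β i = 0 := by
    have h1 := (hφ b (by rw [hb]; exact hp)).1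
    rw [hb] at h1
    rw [← h1]
    symm
    refine Finset.sum_bij' (fun i _ => (i : ZMod p)) (fun i _ => i.val) ?_ ?_ ?_ ?_ ?_
    · intro i _
      exact Finset.mem_univ _
    · intro i _
      exact Finset.mem_range.mpr (ZMod.val_lt i)
    · intro i hi
      exact ZMod.val_cast_of_lt (Finset.mem_range.mp hi)
    · intro i _
      exact ZMod.natCast_zmod_val i
    · intro i hi
      rw [hβd, ZMod.val_cast_of_lt (Finset.mem_range.mp hi), map_pow]
  have hβn' : ∀ i, β (-i) * β i = 1 := fun i => by rw [← hβ, neg_add_cancel, hβ0]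
  have haa : φ a * φ a⁻¹ = 1 := by rw [← map_mul, mul_inv_cancel, map_one]
  have haa' : φ a⁻¹ * φ a = 1 := by rw [← map_mul, inv_mul_cancel, map_one]
  have hr : ∀ i, φ a * β i * φ a * β i + φ a * β i + 1 + β (-i) * φ a⁻¹ +
      β (-i) * φ a⁻¹ * β (-i) * φ a⁻¹ = 0 := by
    intro i
    have h1 := (hφ (a * b ^ i.val) (by rw [h5]; norm_num)).1
    rw [h5, map_mul, ← hβd] at h1
    have h2 := five_rel h1 (X' := β (-i) * φ a⁻¹)
      (by
        calc β (-i) * φ a⁻¹ * (φ a * β i) = β (-i) * (φ a⁻¹ * φ a) * β i := by noncomm_ring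
          _ = 1 := by rw [haa', mul_one, hβn'])
    rw [← h2]
    noncomm_ring
  refine ⟨hne, mkBlocks hψ hpK hβ hβ0 hsum (φ a) (φ a⁻¹) haa haa' hr, ψ, ?_, ?_⟩
  · have h1 := sum_proj hψ hpK (β := β) hβ0
    show φ a = ∑ j, ∑ l, proj ψ β j * φ a * proj ψ β l
    simp only [← Finset.mul_sum, h1, mul_one, ← Finset.sum_mul, one_mul]
  · have h1 := beta_eq hψ hpK (β := β) 1
    have h2 : β 1 = φ b := by
      rw [hβd]
      congr 1
      have h3 : ((1 : ℕ) : ZMod p).val = 1 % p := ZMod.val_natCast _ _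
      rw [Nat.cast_one] at h3
      rw [h3, hmod, pow_one]
    rw [← h2, h1]
    simp only [one_mul]
    rfl

/-- In characteristic zero there is no such coset. -/
theorem false_of_charZero [CharZero K] (hφ : Reg φ) {a b : A} {p : ℕ} (hp : p.Prime)
    (hb : orderOf b = p) (h5 : ∀ i : ℕ, orderOf (a * b ^ i) = 5) : False := by
  obtain ⟨hne, D, -, -, -⟩ := exists_blocks (K := K) hφ hp hb h5
  refine Blocks.false_of_char K D (fun k _ h => ?_)
  have h1 : ((2 * k : ℕ) : K) = ((1 : ℕ) : K) := by push_cast; exact h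
  have h2 : 2 * k = 1 := Nat.cast_injective h1
  omega

end blocks

/-- restriction of a regular representation -/
theorem exists_restrict {A K V : Type*} [Group A] [Field K] [AddCommGroup V] [Module K V]
    {φ : A →* Module.End K V} (hφ : Reg φ) (ht : ∀ a : A, IsOfFinOrder a) {a b : A}
    (W : Submodule K V) [Nontrivial W] (ha : ∀ u ∈ W, φ a u ∈ W) (hb : ∀ u ∈ W, φ b u ∈ W) :
    ∃ ψ : Subgroup.closure ({a, b} : Set A) →* Module.End K W, Reg ψ := by
  have h1 : ∀ g ∈ Subgroup.closure ({a, b} : Set A), ∀ u ∈ W, φ g u ∈ W := by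
    intro g hg
    induction hg using Subgroup.closure_induction with
    | mem x hx =>
      rcases hx with rfl | hx
      · exact ha
      · rw [Set.mem_singleton_iff] at hx
        rw [hx]
        exact hb
    | one => intro u hu; rw [map_one]; exact hu
    | mul x y _ _ hx hy =>
      intro u hu
      rw [map_mul, Module.End.mul_apply]
      exact hx _ (hy _ hu)
    | inv x _ hx =>
      have h2 : ∀ n : ℕ, ∀ u ∈ W, φ (x ^ n) u ∈ W := by
        intro n
        induction n with
        | zero => intro u hu; rw [pow_zero, map_one]; exact hu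
        | succ n ih =>
          intro u hu
          rw [pow_succ, map_mul, Module.End.mul_apply]
          exact ih _ (hx _ hu)
      have h3 : x⁻¹ = x ^ (orderOf x - 1) := by
        rw [inv_eq_iff_mul_eq_one, ← pow_succ', Nat.sub_add_cancel (ht x).orderOf_pos,
          pow_orderOf_eq_one]
      rw [h3]
      exact h2 _
  obtain ⟨ψ, hψ⟩ : ∃ ψ : Subgroup.closure ({a, b} : Set A) →* Module.End K W,
      ∀ g : Subgroup.closure ({a, b} : Set A), ∀ u : W, (ψ g u : V) = φ g u := by
    refine ⟨⟨⟨fun g => (φ g).restrict (h1 g g.2), ?_⟩, ?_⟩, fun g u => rfl⟩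
    · ext u
      show φ (1 : A) u = u
      rw [map_one]
      rfl
    · intro g g'
      ext u
      show φ ((g : A) * g') u = φ g (φ g' u)
      rw [map_mul]
      rfl
  refine ⟨ψ, fun h hh => ?_⟩
  have ho : orderOf (h : A) = orderOf h :=
    orderOf_injective (Subgroup.closure ({a, b} : Set A)).subtype Subtype.val_injective h
  obtain ⟨h2, h3⟩ := hφ (h : A) (by rw [ho]; exact hh)
  rw [ho] at h2 h3
  refine ⟨?_, ?_⟩
  · apply LinearMap.ext
    intro u
    apply Subtype.ext
    have h4 := congrArg (fun f => f (u : V)) h2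
    simp only [← map_pow, LinearMap.sum_apply, LinearMap.zero_apply] at h4
    simp only [← map_pow, LinearMap.sum_apply, LinearMap.zero_apply, Submodule.coe_sum,
      Submodule.coe_zero, hψ]
    exact h4
  · have hV : Nontrivial V := Function.Injective.nontrivial (Submodule.injective_subtype W)
    rw [isUnit_natCast_iff] at h3 ⊢
    exact h3

/-- the case of an element `b` of prime order -/
theorem false_of_coset {A Ω V : Type*} [Group A] [Field Ω] [IsAlgClosed Ω] [AddCommGroup V]
    [Module Ω V] [Nontrivial V] {φ : A →* Module.End Ω V} (hφ : Reg φ)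
    (ht : ∀ a : A, IsOfFinOrder a) {a b : A} {p : ℕ} (hp : p.Prime)
    (hb : orderOf b = p) (h5 : ∀ i : ℕ, orderOf (a * b ^ i) = 5) : False := by
  obtain ⟨hne, D, ψ, ha', hb'⟩ := exists_blocks (K := Ω) hφ hp hb h5
  obtain ⟨c, hc⟩ := IsAlgClosed.exists_pow_nat_eq (-2 : Ω) (n := 2) (by norm_num)
  obtain ⟨W, hfd, hW, hP, hA⟩ := D.exists_invariant (c := c) (by rw [← pow_two, hc])
  have hWn : Nontrivial W := by
    rw [Submodule.nontrivial_iff_ne_bot]
    exact hW
  obtain ⟨χ, hχ⟩ := exists_restrict hφ ht (a := a) (b := b) W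
    (fun u hu => by
      rw [ha', LinearMap.sum_apply]
      refine Submodule.sum_mem _ fun j _ => ?_
      rw [LinearMap.sum_apply]
      exact Submodule.sum_mem _ fun l _ => hA j l u hu)
    (fun u hu => by
      rw [hb', LinearMap.sum_apply]
      refine Submodule.sum_mem _ fun j _ => ?_
      rw [LinearMap.smul_apply]
      exact Submodule.smul_mem _ _ (hP j u hu))
  have hord : ∀ h : Subgroup.closure ({a, b} : Set A), orderOf h = orderOf (h : A) := fun h =>
    (orderOf_injective (Subgroup.closure ({a, b} : Set A)).subtype Subtype.val_injective h).symm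
  have ht1 : ∀ h : Subgroup.closure ({a, b} : Set A), IsOfFinOrder h := fun h => by
    rw [← orderOf_pos_iff, hord, orderOf_pos_iff]
    exact ht _
  have hfin : Finite (Subgroup.closure ({a, b} : Set A)) := by
    refine hχ.finite ht1 (S := ((↑) : Subgroup.closure {a, b} → A) ⁻¹' {a, b}) ?_
      (Subgroup.closure_closure_coe_preimage)
    exact Set.Finite.preimage (Subtype.val_injective.injOn) (Set.toFinite _)
  obtain ⟨Ω', i1, i2, i3, V', i4, i5, i6, θ, hθ⟩ := exists_charZero hχ
  have haH : a ∈ Subgroup.closure ({a, b} : Set A) :=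
    Subgroup.subset_closure (Set.mem_insert _ _)
  have hbH : b ∈ Subgroup.closure ({a, b} : Set A) :=
    Subgroup.subset_closure (Set.mem_insert_of_mem _ rfl)
  exact false_of_charZero (K := Ω') hθ (a := ⟨a, haH⟩) (b := ⟨b, hbH⟩) hp (by rw [hord]; exact hb)
    (fun i => by rw [hord]; exact h5 i)

universe u w

/-- **A coset of a nontrivial finite cyclic subgroup does not consist of elements of order
five.** -/
theorem PR.coset {A : Type w} {G : Type u} [Group A] [AddCommGroup G] [Nontrivial G]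
    [DistribMulAction A G] (h : PR A G) {a b : A} (h5 : ∀ i : ℕ, orderOf (a * b ^ i) = 5) :
    b = 1 := by
  by_contra hb
  obtain ⟨k, hk⟩ := exists_pow_prime hb (h.per b)
  obtain ⟨Ω, i1, i2, V, i3, i4, i5, φ, μ, ν, hφ, -⟩ := exists_vec h 0 0 (fun g => rfl)
    (fun b g => (smul_zero b).symm) (fun b g => (smul_zero b).symm)
  exact false_of_coset hφ h.per hk rfl (fun i => by rw [← pow_mul]; exact h5 _)

end Pool.Agent.MPd299d2
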