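import Mathlib

set_option autoImplicit false

/-!
# Two quadratic operators whose product has finite order have finite dimensional invariant subspaces
-/

namespace Pool.Agent.MPd299d2

theorem exists_invariant {Ω V : Type*} [Field Ω] [AddCommGroup V] [Module Ω V]
    (a b : Module.End Ω V) (u v u' v' : Ω) (ha : a * a = u • a + v • 1)
    (hb : b * b = u' • b + v' • 1) (n : ℕ) (hn : 0 < n) (hab : (a * b) ^ n = 1) (x : V) :
    ∃ W : Submodule Ω V, FiniteDimensional Ω W ∧ x ∈ W ∧ (∀ y ∈ W, a y ∈ W) ∧
      ∀ y ∈ W, b y ∈ W := by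
  have ha' : ∀ y, a (a y) = u • a y + v • y := fun y => by
    rw [← Module.End.mul_apply, ha]; rfl
  have hb' : ∀ y, b (b y) = u' • b y + v' • y := fun y => by
    rw [← Module.End.mul_apply, hb]; rfl
  set g : Module.End Ω V := a * b with hg
  have hg' : ∀ y, g y = a (b y) := fun y => rfl
  set t : Module.End Ω V := a * b + b * a - u' • a - u • b + (u * u') • 1 with ht
  have ht' : ∀ y, t y = a (b y) + b (a y) - u' • a y - u • b y + (u * u') • y := fun y => rfl
  have hta : ∀ y, t (a y) = a (t y) := fun y => by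
    rw [ht', ht']
    simp only [map_add, map_sub, map_smul, ha', hb']
    module
  have htb : ∀ y, t (b y) = b (t y) := fun y => by
    rw [ht', ht']
    simp only [map_add, map_sub, map_smul, ha', hb']
    module
  have htg : ∀ y, g (g y) = t (g y) - (v * v') • y := fun y => by
    rw [ht', hg', hg']
    simp only [map_add, map_sub, map_smul, ha', hb']
    module
  set s : Fin n × Fin 3 → V := fun p => (g ^ (p.1 : ℕ)) (![x, a x, b x] p.2) with hs
  set W := Submodule.span Ω (Set.range s) with hW
  have hgen : ∀ i, i < n → ∀ z ∈ ({x, a x, b x} : Set V), (g ^ i) z ∈ W := by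
    intro i hi z hz
    have : ∃ j : Fin 3, ![x, a x, b x] j = z := by
      rcases hz with rfl | rfl | rfl
      · exact ⟨0, rfl⟩
      · exact ⟨1, rfl⟩
      · exact ⟨2, rfl⟩
    obtain ⟨j, rfl⟩ := this
    exact Submodule.subset_span ⟨(⟨i, hi⟩, j), rfl⟩
  have hgenall : ∀ i, ∀ z ∈ ({x, a x, b x} : Set V), (g ^ i) z ∈ W := by
    intro i z hz
    have h1 : g ^ i = g ^ (i % n) := by
      conv_lhs => rw [← Nat.div_add_mod i n, pow_add, pow_mul, hab, one_pow, one_mul]
    rw [h1]
    exact hgen _ (Nat.mod_lt _ hn) z hz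
  have hind : ∀ f : Module.End Ω V, (∀ i, ∀ z ∈ ({x, a x, b x} : Set V), f ((g ^ i) z) ∈ W) →
      ∀ y ∈ W, f y ∈ W := by
    intro f hf y hy
    induction hy using Submodule.span_induction with
    | mem y hy =>
      obtain ⟨⟨i, j⟩, rfl⟩ := hy
      refine hf i _ ?_
      fin_cases j
      · exact Or.inl rfl
      · exact Or.inr (Or.inl rfl)
      · exact Or.inr (Or.inr rfl)
    | zero => rw [map_zero]; exact W.zero_mem
    | add y z _ _ h1 h2 => rw [map_add]; exact W.add_mem h1 h2
    | smul c y _ h1 => rw [map_smul]; exact W.smul_mem c h1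
  have hgW : ∀ y ∈ W, g y ∈ W := hind g fun i z hz => by
    rw [← Module.End.mul_apply, ← pow_succ']
    exact hgenall _ z hz
  have hgpW : ∀ (k : ℕ), ∀ y ∈ W, (g ^ k) y ∈ W := by
    intro k
    induction k with
    | zero => intro y hy; exact hy
    | succ k ih =>
      intro y hy
      rw [pow_succ', Module.End.mul_apply]
      exact hgW _ (ih y hy)
  have htW : ∀ y ∈ W, t y ∈ W := by
    intro y hy
    have h1 := htg ((g ^ (n - 1)) y)
    have h2 : g ((g ^ (n - 1)) y) = y := by
      rw [← Module.End.mul_apply, ← pow_succ', Nat.sub_add_cancel hn, hab, Module.End.one_apply]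
    rw [h2] at h1
    have h3 : t y = g y + (v * v') • (g ^ (n - 1)) y := by
      rw [h1]; abel
    rw [h3]
    exact W.add_mem (hgW y hy) (W.smul_mem _ (hgpW _ y hy))
  have hrec : ∀ f : Module.End Ω V, (∀ y, t (f y) = f (t y)) → ∀ z, f z ∈ W → f (g z) ∈ W →
      ∀ i : ℕ, f ((g ^ i) z) ∈ W ∧ f ((g ^ (i + 1)) z) ∈ W := by
    intro f hf z h0 h1 i
    induction i with
    | zero => exact ⟨h0, by rw [zero_add, pow_one]; exact h1⟩
    | succ i ih =>
      refine ⟨ih.2, ?_⟩
      have h2 : (g ^ (i + 1 + 1)) z = t ((g ^ (i + 1)) z) - (v * v') • (g ^ i) z := by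
        rw [pow_succ', Module.End.mul_apply, pow_succ', Module.End.mul_apply]
        exact htg _
      rw [h2, map_sub, map_smul, ← hf]
      exact W.sub_mem (htW _ ih.2) (W.smul_mem _ ih.1)
  have hx : x ∈ W := by simpa using hgenall 0 x (Or.inl rfl)
  have hax : a x ∈ W := by simpa using hgenall 0 (a x) (Or.inr (Or.inl rfl))
  have hbx : b x ∈ W := by simpa using hgenall 0 (b x) (Or.inr (Or.inr rfl))
  have hba : ∀ y, b (a y) = t y - g y + u' • a y + u • b y - (u * u') • y := fun y => by
    rw [ht', hg']; module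
  have hbaW : ∀ y ∈ W, a y ∈ W → b y ∈ W → b (a y) ∈ W := by
    intro y hy h1 h2
    rw [hba]
    exact W.sub_mem (W.add_mem (W.add_mem (W.sub_mem (htW y hy) (hgW y hy)) (W.smul_mem _ h1))
      (W.smul_mem _ h2)) (W.smul_mem _ hy)
  have hbax : b (a x) ∈ W := hbaW x hx hax hbx
  have habx : a (b x) ∈ W := hgW x hx
  have haax : a (a x) ∈ W := by
    rw [ha']; exact W.add_mem (W.smul_mem _ hax) (W.smul_mem _ hx)
  have hbbx : b (b x) ∈ W := by
    rw [hb']; exact W.add_mem (W.smul_mem _ hbx) (W.smul_mem _ hx)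
  have haW : ∀ y ∈ W, a y ∈ W := hind a fun i z hz => by
    refine (hrec a hta z ?_ ?_ i).1
    · rcases hz with rfl | rfl | rfl
      · exact hax
      · exact haax
      · exact habx
    · rcases hz with rfl | rfl | rfl
      · rw [hg', ha']
        exact W.add_mem (W.smul_mem _ habx) (W.smul_mem _ hbx)
      · rw [hg', ha']
        exact W.add_mem (W.smul_mem _ (hgW _ hax)) (W.smul_mem _ hbax)
      · rw [hg', ha']
        exact W.add_mem (W.smul_mem _ (hgW _ hbx)) (W.smul_mem _ hbbx)
  have hbabx : b (a (b x)) ∈ W := hbaW (b x) hbx habx hbbx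
  have hbW : ∀ y ∈ W, b y ∈ W := hind b fun i z hz => by
    refine (hrec b htb z ?_ ?_ i).1
    · rcases hz with rfl | rfl | rfl
      · exact hbx
      · exact hbax
      · exact hbbx
    · rcases hz with rfl | rfl | rfl
      · rw [hg']; exact hbabx
      · rw [hg']
        exact hbaW _ hbax (haW _ hbax) (by
          rw [hb']; exact W.add_mem (W.smul_mem _ hbax) (W.smul_mem _ hax))
      · rw [hg', hb', map_add, map_add, map_smul, map_smul, map_smul, map_smul]
        exact W.add_mem (W.smul_mem _ hbabx) (W.smul_mem _ hbax)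
  exact ⟨W, FiniteDimensional.span_of_finite Ω (Set.finite_range s), hx, haW, hbW⟩

end Pool.Agent.MPd299d2
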